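import Pool.Agent.Helper83.MobileTraps.Pois

open MeasureTheory ProbabilityTheory Filter
open scoped ENNReal NNReal Topology

set_option linter.unusedSectionVars false

namespace Pool.Agent.Helper83.MobileTraps

open Pool.Agent.Helper83.Traps

variable {d : ℕ} [NeZero d] {Ω : Type*} [MeasurableSpace Ω] {P : Measure Ω}
  [IsProbabilityMeasure P] {ρ ν : ℝ≥0} {N : (Fin d → ℤ) → Ω → ℕ}
  {Y : (Fin d → ℤ) → ℕ → ℝ≥0 → Ω → (Fin d → ℤ)}

/-- measurable version of the coincidence time -/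
noncomputable def Lsup (T : ℕ) (x z : ℝ≥0 → Fin d → ℤ) : ℝ≥0∞ :=
  limsup (fun m => rsum m T x z) atTop

lemma Lsup_eq {x z : ℝ≥0 → Fin d → ℤ} (hx : RC x) (hz : RC z) (T : ℕ) :
    Lsup T x z = Lint T x z := (tendsto_rsum hx hz T).limsup_eq

lemma measurable_coin' (s : ℝ≥0) :
    Measurable fun p : (ℝ≥0 → Fin d → ℤ) × (ℝ≥0 → Fin d → ℤ) => coin p.1 p.2 s := by
  have h1 : Measurable fun p : (ℝ≥0 → Fin d → ℤ) × (ℝ≥0 → Fin d → ℤ) => (p.1 s, p.2 s) :=
    ((measurable_pi_apply s).comp measurable_fst).prodMk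
      ((measurable_pi_apply s).comp measurable_snd)
  have h2 := (Measurable.of_discrete (f := fun q : (Fin d → ℤ) × (Fin d → ℤ) =>
    if q.1 = q.2 then (1 : ℝ≥0∞) else 0)).comp h1
  exact h2

lemma measurable_rsum' (m T : ℕ) :
    Measurable fun p : (ℝ≥0 → Fin d → ℤ) × (ℝ≥0 → Fin d → ℤ) => rsum m T p.1 p.2 := by
  unfold rsum
  exact (Finset.measurable_fun_sum _ fun i _ => Finset.measurable_fun_sum _ fun l _ =>
    measurable_coin' _).const_mul _

lemma measurable_Lsup' (T : ℕ) :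
    Measurable fun p : (ℝ≥0 → Fin d → ℤ) × (ℝ≥0 → Fin d → ℤ) => Lsup T p.1 p.2 := by
  unfold Lsup
  exact Measurable.limsup fun m => measurable_rsum' m T

lemma measurable_Lsup (T : ℕ) (x : ℝ≥0 → Fin d → ℤ) :
    Measurable fun z : ℝ≥0 → Fin d → ℤ => Lsup T x z := by
  have h1 : Measurable fun z : ℝ≥0 → Fin d → ℤ => (x, z) := measurable_const.prodMk measurable_id
  have h2 := (measurable_Lsup' T).comp h1
  exact h2

/-- Riemann sum as a function of the blocks -/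
noncomputable def Rf (m T : ℕ) (x : ℝ≥0 → Fin d → ℤ) (y : Fin d → ℤ)
    (b : ℕ → Fin m → Fin d → ℤ) : ℝ≥0∞ :=
  (m : ℝ≥0∞)⁻¹ * ∑ i ∈ Finset.range T, ∑ l : Fin m,
    if x (tm m i l) = y + pos b i l then 1 else 0

lemma measurable_Rf (m T : ℕ) (x : ℝ≥0 → Fin d → ℤ) (y : Fin d → ℤ) :
    Measurable (Rf m T x y) := by
  unfold Rf
  refine Measurable.const_mul ?_ _
  refine Finset.measurable_fun_sum _ fun i _ => Finset.measurable_fun_sum _ fun l _ => ?_
  exact (Measurable.of_discrete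
    (f := fun v : Fin d → ℤ => if x (tm m i l) = y + v then (1 : ℝ≥0∞) else 0)).comp
    (measurable_pos i l)

lemma rsum_eq_Rf (m T : ℕ) (x z : ℝ≥0 → Fin d → ℤ) :
    rsum m T x z = Rf m T x (z 0) (blk m z) := by
  unfold rsum Rf coin
  congr 1
  refine Finset.sum_congr rfl fun i _ => Finset.sum_congr rfl fun l _ => ?_
  rw [pos_blk, add_sub_cancel]

lemma tendsto_wexp_Lint {Z : ℝ≥0 → Ω → (Fin d → ℤ)} {y : Fin d → ℤ} (hZ : IsCTSRW P d ρ y Z)
    (g g' : ℝ≥0) (T : ℕ) {x x' : ℝ≥0 → Fin d → ℤ} (hx : RC x) (hx' : RC x') :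
    Tendsto (fun m : ℕ => ∫⁻ b, wexp (g * Rf m T x y b + g' * Rf m T x' y b)
      ∂PP (muB d m ρ)) atTop
      (𝓝 (∫⁻ ω, wexp (g * Lint T x (pth Z ω) + g' * Lint T x' (pth Z ω)) ∂P)) := by
  have hm1 : ∀ m x, Measurable fun ω => rsum m T x (pth Z ω) := fun m x =>
    measurable_rsum hZ.measurable m T x
  have h1 : Tendsto (fun m : ℕ =>
      ∫⁻ ω, wexp (g * rsum m T x (pth Z ω) + g' * rsum m T x' (pth Z ω)) ∂P) atTop
      (𝓝 (∫⁻ ω, wexp (g * Lint T x (pth Z ω) + g' * Lint T x' (pth Z ω)) ∂P)) := by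
    refine tendsto_lintegral_of_dominated_convergence (fun _ => 1) (fun m => ?_) (fun m => ?_)
      (by simp) ?_
    · exact measurable_wexp.comp (((hm1 m x).const_mul _).add ((hm1 m x').const_mul _))
    · exact ae_of_all _ fun ω => wexp_le_one _
    · refine ae_of_all _ fun ω => tendsto_wexp ?_
      exact (ENNReal.Tendsto.const_mul (tendsto_rsum hx (rc_pth hZ ω) T)
        (Or.inr (by simp))).add (ENNReal.Tendsto.const_mul (tendsto_rsum hx' (rc_pth hZ ω) T)
        (Or.inr (by simp)))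
  refine h1.congr' ?_
  filter_upwards [eventually_ge_atTop 1] with m hm
  have hmR : Measurable fun b : ℕ → Fin m → Fin d → ℤ =>
      wexp (g * Rf m T x y b + g' * Rf m T x' y b) :=
    measurable_wexp.comp (((measurable_Rf m T x y).const_mul _).add
      ((measurable_Rf m T x' y).const_mul _))
  rw [← hZ.map_blk hm, lintegral_map hmR (measurable_blkX hZ.measurable m)]
  refine lintegral_congr fun ω => ?_
  rw [rsum_eq_Rf, rsum_eq_Rf]
  have h2 : pth Z ω 0 = y := hZ.start ω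
  rw [h2]
  rfl

lemma law_indep {Z Z' : ℝ≥0 → Ω → (Fin d → ℤ)} {y : Fin d → ℤ} (hZ : IsCTSRW P d ρ y Z)
    (hZ' : IsCTSRW P d ρ y Z') (g g' : ℝ≥0) (T : ℕ) {x x' : ℝ≥0 → Fin d → ℤ} (hx : RC x)
    (hx' : RC x') :
    ∫⁻ ω, wexp (g * Lint T x (pth Z ω) + g' * Lint T x' (pth Z ω)) ∂P =
      ∫⁻ ω, wexp (g * Lint T x (pth Z' ω) + g' * Lint T x' (pth Z' ω)) ∂P :=
  tendsto_nhds_unique (tendsto_wexp_Lint hZ g g' T hx hx') (tendsto_wexp_Lint hZ' g g' T hx hx')

/-- the Laplace functional for the coincidence times -/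
lemma annealed (hS : IsTrapSystem P d ρ ν N Y) (g g' : ℝ≥0) (T : ℕ)
    {x x' : ℝ≥0 → Fin d → ℤ} (hx : RC x) (hx' : RC x') :
    ∫⁻ ω, wexp (∑' y, ∑ j ∈ Finset.range (N y ω),
      (g * Lint T x (pth (Y y j) ω) + g' * Lint T x' (pth (Y y j) ω))) ∂P =
      wexp (ν * ∑' y, ∫⁻ ω, e1 (g * Lint T x (pth (Y y 0) ω) +
        g' * Lint T x' (pth (Y y 0) ω)) ∂P) := by
  set A : (ℝ≥0 → Fin d → ℤ) → ℝ≥0∞ := fun z => g * Lsup T x z + g' * Lsup T x' z with hA
  have hmA : Measurable A := ((measurable_Lsup T x).const_mul _).add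
    ((measurable_Lsup T x').const_mul _)
  have hAeq : ∀ y j ω, A (pth (Y y j) ω) =
      g * Lint T x (pth (Y y j) ω) + g' * Lint T x' (pth (Y y j) ω) := by
    intro y j ω
    simp only [hA]
    rw [Lsup_eq hx (rc_pth (hS.walk y j) ω), Lsup_eq hx' (rc_pth (hS.walk y j) ω)]
  have hAfin : ∀ y j ω, A (pth (Y y j) ω) ≠ ⊤ := by
    intro y j ω
    rw [hAeq]
    exact ENNReal.add_ne_top.2 ⟨ENNReal.mul_ne_top (by simp) (Lint_ne_top _ _ _),
      ENNReal.mul_ne_top (by simp) (Lint_ne_top _ _ _)⟩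
  have hmAY : ∀ y j, Measurable fun ω => A (pth (Y y j) ω) := fun y j =>
    hmA.comp (measurable_pi_lambda _ fun t => (hS.walk y j).measurable t)
  have h := poisson_formula hS hmA (v := fun y => ∫⁻ ω, wexp (A (pth (Y y 0) ω)) ∂P) (by
    intro y j
    simp only [hAeq]
    exact law_indep (hS.walk y j) (hS.walk y 0) g g' T hx hx')
  simp only [hAeq] at h
  rw [h]
  congr 2
  refine tsum_congr fun y => ?_
  have hs : ∫⁻ ω, e1 (A (pth (Y y 0) ω)) ∂P + ∫⁻ ω, wexp (A (pth (Y y 0) ω)) ∂P = 1 := by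
    have hm1 : Measurable fun ω => e1 (A (pth (Y y 0) ω)) := measurable_e1.comp (hmAY y 0)
    rw [← lintegral_add_left hm1]
    have : ∀ ω, e1 (A (pth (Y y 0) ω)) + wexp (A (pth (Y y 0) ω)) = 1 := fun ω =>
      e1_add_wexp (hAfin y 0 ω)
    simp only [this]
    simp
  simp only [hAeq] at hs
  have hfin : ∫⁻ ω, wexp (g * Lint T x (pth (Y y 0) ω) + g' * Lint T x' (pth (Y y 0) ω)) ∂P ≠ ⊤ := by
    refine ne_top_of_le_ne_top ENNReal.one_ne_top ?_
    rw [← hs]; exact le_add_self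
  rw [← hs, ENNReal.add_sub_cancel_right hfin]

/-! the survival weight -/

lemma measurable_coin_time {x z : ℝ≥0 → Fin d → ℤ} (hx : RC x) (hz : RC z) :
    Measurable fun s : ℝ => coin x z s.toNNReal := by
  have h := measurable_coin_joint (Ω := Unit) (Z := fun t _ => z t) (fun t => measurable_const)
    (fun _ => hz) hx
  have h2 : Measurable fun s : ℝ => ((), s) := measurable_const.prodMk measurable_id
  have h3 := h.comp h2
  exact h3

lemma weight_eq (hS : IsTrapSystem P d ρ ν N Y) (γ : ℝ≥0) (T : ℕ) {x : ℝ≥0 → Fin d → ℤ}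
    (hx : RC x) (ω : Ω) : weight γ (field N Y ω) T x =
      wexp (∑' y, ∑ j ∈ Finset.range (N y ω), γ * Lint T x (pth (Y y j) ω)) := by
  unfold weight wexp
  congr 3
  have hc : ∀ y j, Measurable fun s : ℝ => coin x (pth (Y y j) ω) s.toNNReal := fun y j =>
    measurable_coin_time hx (rc_pth (hS.walk y j) ω)
  have h1 : ∀ s : ℝ, field N Y ω s.toNNReal (x s.toNNReal) =
      ∑' y, ∑ j ∈ Finset.range (N y ω), coin x (pth (Y y j) ω) s.toNNReal := by
    intro s
    unfold field coin pth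
    refine tsum_congr fun y => Finset.sum_congr rfl fun j _ => ?_
    simp only [eq_comm]
  have h2 : ((T : ℝ≥0) : ℝ) = (T : ℝ) := by simp
  rw [h2]
  simp only [h1]
  rw [lintegral_tsum fun y => (Finset.measurable_fun_sum _ fun j _ => hc y j).aemeasurable,
    ← ENNReal.tsum_mul_left]
  refine tsum_congr fun y => ?_
  rw [lintegral_finsetSum _ fun j _ => hc y j, Finset.mul_sum]
  rfl

lemma annealed_one (hS : IsTrapSystem P d ρ ν N Y) (γ : ℝ≥0) (T : ℕ)
    {x : ℝ≥0 → Fin d → ℤ} (hx : RC x) :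
    ∫⁻ ω, weight γ (field N Y ω) T x ∂P = wexp (ν * W1 P (fun y => Y y 0) γ T x) := by
  have h := annealed hS γ 0 T hx hx
  simp only [ENNReal.coe_zero, zero_mul, add_zero] at h
  unfold W1
  rw [← h]
  exact lintegral_congr fun ω => weight_eq hS γ T hx ω

lemma annealed_two (hS : IsTrapSystem P d ρ ν N Y) (γ : ℝ≥0) (T : ℕ)
    {x x' : ℝ≥0 → Fin d → ℤ} (hx : RC x) (hx' : RC x') :
    ∫⁻ ω, weight γ (field N Y ω) T x * weight γ (field N Y ω) T x' ∂P =
      wexp (ν * W2 P (fun y => Y y 0) γ T x x') := by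
  have h := annealed hS γ γ T hx hx'
  unfold W2
  rw [← h]
  refine lintegral_congr fun ω => ?_
  rw [weight_eq hS γ T hx ω, weight_eq hS γ T hx' ω, ← wexp_add, ← ENNReal.tsum_add]
  simp only [Finset.sum_add_distrib]

end Pool.Agent.Helper83.MobileTraps
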