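import Mathlib

open MeasureTheory ProbabilityTheory Filter
open scoped ENNReal NNReal Topology

namespace Pool.Agent.Helper83.MobileTraps

/-- One step of the simple symmetric random walk on `ℤ^d`: each of the `2d` neighbours of the
origin has probability `1/(2d)`. -/
noncomputable def stepLaw (d : ℕ) : Measure (Fin d → ℤ) :=
  (2 * (d : ℝ≥0∞))⁻¹ • ∑ i : Fin d, (Measure.dirac (Pi.single i 1) + Measure.dirac (Pi.single i (-1)))

/-- Law of the simple symmetric random walk after `n` steps. -/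
noncomputable def srwLaw (d : ℕ) : ℕ → Measure (Fin d → ℤ)
  | 0 => Measure.dirac 0
  | n + 1 => Measure.conv (srwLaw d n) (stepLaw d)

/-- Law at time `t` of the continuous-time walk with jump rate `κ` started at the origin: the
number of jumps is Poisson with mean `κ t`. -/
noncomputable def ctLaw (d : ℕ) (κ t : ℝ≥0) : Measure (Fin d → ℤ) :=
  Measure.sum fun n : ℕ => poissonMeasure (κ * t) {n} • srwLaw d n

/-- `X` is a continuous-time simple symmetric random walk on `ℤ^d` with jump rate `κ` started at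
`x₀`: its paths are right-continuous with left limits, its increments are independent, and the
increment over a time interval of length `t` has law `ctLaw d κ t`. -/
structure IsCTSRW {Ω : Type*} [MeasurableSpace Ω] (P : Measure Ω) (d : ℕ) (κ : ℝ≥0)
    (x₀ : Fin d → ℤ) (X : ℝ≥0 → Ω → (Fin d → ℤ)) : Prop where
  measurable : ∀ t, Measurable (X t)
  start : ∀ ω, X 0 ω = x₀
  rightCont : ∀ ω t, ∀ᶠ s in 𝓝[>] t, X s ω = X t ω
  leftLim : ∀ ω t, ∃ v, ∀ᶠ s in 𝓝[<] t, X s ω = v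
  indep : HasIndepIncrements X P
  law : ∀ s t, P.map (fun ω => X (s + t) ω - X s ω) = ctLaw d κ t

/-- The mobile traps: `N y` is the number of traps that start at `y` (i.i.d. Poisson with mean
`ν`), and `Y y j` is the trajectory of the `j`-th of them (independent continuous-time simple
symmetric random walks with jump rate `ρ`, independent of the numbers). -/
structure IsTrapSystem {Ω : Type*} [MeasurableSpace Ω] (P : Measure Ω) (d : ℕ) (ρ ν : ℝ≥0)
    (N : (Fin d → ℤ) → Ω → ℕ) (Y : (Fin d → ℤ) → ℕ → ℝ≥0 → Ω → (Fin d → ℤ)) : Prop where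
  measN : ∀ y, Measurable (N y)
  lawN : ∀ y, P.map (N y) = poissonMeasure ν
  walk : ∀ y j, IsCTSRW P d ρ y (Y y j)
  indepN : iIndepFun N P
  indepY : iIndepFun (fun (p : (Fin d → ℤ) × ℕ) (ω : Ω) (t : ℝ≥0) => Y p.1 p.2 t ω) P
  indepNY : IndepFun (fun (ω : Ω) (y : Fin d → ℤ) => N y ω)
    (fun (ω : Ω) (p : (Fin d → ℤ) × ℕ) (t : ℝ≥0) => Y p.1 p.2 t ω) P

/-- The trap field: the number of traps at `x` at time `t`. -/
noncomputable def field {Ω : Type*} {d : ℕ} (N : (Fin d → ℤ) → Ω → ℕ)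
    (Y : (Fin d → ℤ) → ℕ → ℝ≥0 → Ω → (Fin d → ℤ)) (ω : Ω) (t : ℝ≥0) (x : Fin d → ℤ) : ℝ≥0∞ :=
  ∑' y : Fin d → ℤ, ∑ j ∈ Finset.range (N y ω), if Y y j t ω = x then 1 else 0

/-- The survival weight `exp (-γ ∫₀ᵗ ξ(s, x(s)) ds)` of a path `x` in a field `ξ`
(equal to `0` when the integral is infinite). -/
noncomputable def weight {d : ℕ} (γ : ℝ≥0) (ξ : ℝ≥0 → (Fin d → ℤ) → ℝ≥0∞) (t : ℝ≥0)
    (x : ℝ≥0 → (Fin d → ℤ)) : ℝ≥0∞ :=
  EReal.exp (-((γ * ∫⁻ s in Set.Icc (0 : ℝ) t, ξ s.toNNReal (x s.toNNReal) : ℝ≥0∞) : EReal))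

/-- The quenched probability `P^ξ_{γ,t}(X ∈ A)` where `A` is a set of trajectories. -/
noncomputable def quenched {Ω' : Type*} [MeasurableSpace Ω'] {d : ℕ} (P' : Measure Ω')
    (X : ℝ≥0 → Ω' → (Fin d → ℤ)) (γ : ℝ≥0) (ξ : ℝ≥0 → (Fin d → ℤ) → ℝ≥0∞) (t : ℝ≥0)
    (A : Set (ℝ≥0 → (Fin d → ℤ))) : ℝ≥0∞ :=
  (∫⁻ ω' in {ω' | (fun s => X s ω') ∈ A}, weight γ ξ t (fun s => X s ω') ∂P') /
    ∫⁻ ω', weight γ ξ t (fun s => X s ω') ∂P'

/-- Euclidean length of a lattice point. -/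
noncomputable def len {d : ℕ} (x : Fin d → ℤ) : ℝ := Real.sqrt (∑ i, (x i : ℝ) ^ 2)

/-- The walk is super-diffusive in the field `ξ`: for every `M`, the quenched probability of
`|X(t)| ≤ M √t` tends to `0`. -/
def SuperDiffusive {Ω' : Type*} [MeasurableSpace Ω'] {d : ℕ} (P' : Measure Ω')
    (X : ℝ≥0 → Ω' → (Fin d → ℤ)) (γ : ℝ≥0) (ξ : ℝ≥0 → (Fin d → ℤ) → ℝ≥0∞) : Prop :=
  ∀ M : ℝ, Tendsto (fun t : ℝ≥0 => quenched P' X γ ξ t {x | len (x t) ≤ M * Real.sqrt t})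
    atTop (𝓝 0)

end Pool.Agent.Helper83.MobileTraps
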