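import Pool.Agent.Helper83.MobileTraps.HK1

open MeasureTheory ProbabilityTheory Filter Complex
open scoped ENNReal NNReal Topology

namespace Pool.Agent.Helper83.MobileTraps.Exist

open Pool.Agent.Helper83.MobileTraps

variable {d : ℕ}

/-- character -/
noncomputable def ex (θ : Fin d → ℝ) (x : Fin d → ℤ) : ℂ := cexp ((∑ j, (x j : ℝ) * θ j : ℝ) * I)

lemma ex_zero (θ : Fin d → ℝ) : ex θ 0 = 1 := by simp [ex]

lemma ex_zero_left (x : Fin d → ℤ) : ex 0 x = 1 := by simp [ex]

lemma ex_add (θ : Fin d → ℝ) (x y : Fin d → ℤ) : ex θ (x + y) = ex θ x * ex θ y := by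
  unfold ex
  rw [← Complex.exp_add, ← add_mul, ← ofReal_add, ← Finset.sum_add_distrib]
  have h : ∑ j, (((x + y) j : ℤ) : ℝ) * θ j = ∑ j, ((x j : ℝ) * θ j + (y j : ℝ) * θ j) := by
    refine Finset.sum_congr rfl fun j _ => ?_
    rw [Pi.add_apply]; push_cast; ring
  rw [h]

lemma ex_sum {A : Type*} (S : Finset A) (θ : Fin d → ℝ) (f : A → Fin d → ℤ) :
    ex θ (∑ a ∈ S, f a) = ∏ a ∈ S, ex θ (f a) := by
  classical
  induction S using Finset.induction_on with
  | empty => simp [ex_zero]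
  | insert a S ha ih => rw [Finset.sum_insert ha, Finset.prod_insert ha, ex_add, ih]

lemma norm_ex (θ : Fin d → ℝ) (x : Fin d → ℤ) : ‖ex θ x‖ = 1 := Complex.norm_exp_ofReal_mul_I _

lemma measurable_ex (θ : Fin d → ℝ) : Measurable (ex θ) := Measurable.of_discrete

lemma integrable_ex {μ : Measure (Fin d → ℤ)} [IsFiniteMeasure μ] (θ : Fin d → ℝ) :
    Integrable (ex θ) μ :=
  Integrable.of_bound (measurable_ex θ).aestronglyMeasurable 1 (ae_of_all _ fun x => (norm_ex θ x).le)

/-- characteristic function -/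
noncomputable def cf (μ : Measure (Fin d → ℤ)) (θ : Fin d → ℝ) : ℂ := ∫ x, ex θ x ∂μ

lemma cf_conv {μ ν : Measure (Fin d → ℤ)} [IsFiniteMeasure μ] [IsFiniteMeasure ν]
    (θ : Fin d → ℝ) : cf (Measure.conv μ ν) θ = cf μ θ * cf ν θ := by
  unfold cf Measure.conv
  rw [integral_map measurable_add.aemeasurable (measurable_ex θ).aestronglyMeasurable]
  simp only [ex_add]
  rw [integral_prod_mul (f := ex θ) (g := ex θ)]

lemma cf_srw [NeZero d] (n : ℕ) (θ : Fin d → ℝ) : cf (srwLaw d n) θ = cf (stepLaw d) θ ^ n := by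
  induction n with
  | zero => unfold cf srwLaw; rw [integral_dirac, ex_zero]; simp
  | succ n ih =>
    show cf (Measure.conv (srwLaw d n) (stepLaw d)) θ = _
    rw [cf_conv, ih, pow_succ]

lemma norm_cf_le {μ : Measure (Fin d → ℤ)} [IsProbabilityMeasure μ] (θ : Fin d → ℝ) :
    ‖cf μ θ‖ ≤ 1 := by
  unfold cf
  refine (norm_integral_le_of_norm_le_const (C := 1) (ae_of_all _ fun x => (norm_ex θ x).le)).trans ?_
  simp

lemma poisson_series (r : ℝ≥0) (z : ℂ) :
    ∑' n : ℕ, (Real.exp (-r) * r ^ n / n.factorial : ℝ) • z ^ n = cexp (r * (z - 1)) := by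
  have h2 : ∀ n : ℕ, (Real.exp (-r) * r ^ n / n.factorial : ℝ) • z ^ n =
      cexp (-(r : ℝ)) * ((((r : ℝ) : ℂ) * z) ^ n / n.factorial) := by
    intro n
    rw [real_smul, mul_pow]
    push_cast
    ring
  simp only [h2]
  rw [tsum_mul_left, (NormedSpace.expSeries_div_hasSum_exp (((r : ℝ) : ℂ) * z)).tsum_eq,
    ← Complex.exp_eq_exp_ℂ, ← Complex.exp_add]
  congr 1
  ring

lemma cf_ct [NeZero d] (κ t : ℝ≥0) (θ : Fin d → ℝ) :
    cf (ctLaw d κ t) θ = cexp ((κ * t : ℝ≥0) * (cf (stepLaw d) θ - 1)) := by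
  have hint : Integrable (ex θ) (ctLaw d κ t) := integrable_ex θ
  unfold cf
  unfold ctLaw at hint ⊢
  rw [integral_sum_measure hint]
  simp only [integral_smul_measure]
  have h1 : ∀ n, ∫ x, ex θ x ∂srwLaw d n = cf (stepLaw d) θ ^ n := fun n => cf_srw n θ
  simp only [h1, poissonMeasure_singleton]
  rw [← poisson_series]
  refine tsum_congr fun n => ?_
  rw [ENNReal.toReal_ofReal (by positivity)]
  rfl

/-! marks -/

/-- uniform law on `(0,1]` -/
noncomputable def unif : Measure ℝ := (volume : Measure ℝ).restrict (Set.Ioc 0 1)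

instance : IsProbabilityMeasure unif := by
  constructor
  simp [unif]

/-- law of one marked point -/
noncomputable def mk (d : ℕ) : Measure (ℝ × (Fin d → ℤ)) := unif.prod (stepLaw d)

instance [NeZero d] : IsProbabilityMeasure (mk d) := by unfold mk; infer_instance

/-- one block: number of points and their marks -/
noncomputable def blkLaw (d : ℕ) [NeZero d] (κ : ℝ≥0) : Measure (ℕ × (ℕ → ℝ × (Fin d → ℤ))) :=
  (poissonMeasure κ).prod (Measure.infinitePi fun _ : ℕ => mk d)

instance [NeZero d] (κ : ℝ≥0) : IsProbabilityMeasure (blkLaw d κ) := by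
  unfold blkLaw; infer_instance

/-- all blocks -/
noncomputable def omLaw (d : ℕ) [NeZero d] (κ : ℝ≥0) :
    Measure (ℕ → ℕ × (ℕ → ℝ × (Fin d → ℤ))) := Measure.infinitePi fun _ : ℕ => blkLaw d κ

instance [NeZero d] (κ : ℝ≥0) : IsProbabilityMeasure (omLaw d κ) := by
  unfold omLaw; infer_instance

lemma integral_prod_range {A : Type*} [MeasurableSpace A] {μ : Measure A} [IsProbabilityMeasure μ]
    (n : ℕ) (f : ℕ → A → ℂ) (hf : ∀ k, Measurable (f k)) :
    ∫ ω, ∏ k ∈ Finset.range n, f k (ω k) ∂(Measure.infinitePi fun _ : ℕ => μ) =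
      ∏ k ∈ Finset.range n, ∫ a, f k a ∂μ := by
  have h1 : iIndepFun (fun (i : ℕ) (ω : ℕ → A) => ω i) (Measure.infinitePi fun _ : ℕ => μ) :=
    iIndepFun_infinitePi (X := fun _ a => a) fun _ => measurable_id
  have h2 : iIndepFun (fun (i : Fin n) (ω : ℕ → A) => ω (i : ℕ)) (Measure.infinitePi fun _ : ℕ => μ) :=
    h1.precomp Fin.val_injective
  have h3 := iIndepFun.integral_fun_prod_comp (𝕜 := ℂ) (ι := Fin n)
    (X := fun (i : Fin n) (ω : ℕ → A) => ω (i : ℕ)) (f := fun (i : Fin n) => f (i : ℕ)) h2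
    (fun i => (measurable_pi_apply (i : ℕ)).aemeasurable)
    (fun i => (hf i).aestronglyMeasurable)
  have h4 : ∀ ω : ℕ → A, ∏ k ∈ Finset.range n, f k (ω k) = ∏ i : Fin n, f (i : ℕ) (ω (i : ℕ)) :=
    fun ω => Finset.prod_range fun k => f k (ω k)
  simp only [h4]
  rw [h3, Finset.prod_range]
  refine Finset.prod_congr rfl fun i _ => ?_
  have h5 := measurePreserving_eval_infinitePi (fun _ : ℕ => μ) (i : ℕ)
  rw [← h5.map_eq, integral_map (measurable_pi_apply (i : ℕ)).aemeasurable]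
  rw [h5.map_eq]
  exact (hf i).aestronglyMeasurable

lemma measurable_prodRange {A : Type*} [MeasurableSpace A] {h : A → ℂ} (hm : Measurable h) :
    Measurable fun b : ℕ × (ℕ → A) => ∏ i ∈ Finset.range b.1, h (b.2 i) := by
  refine measurable_from_prod_countable_right fun c => ?_
  have h1 : Measurable fun y : ℕ → A => ∏ i ∈ Finset.range c, h (y i) :=
    Finset.measurable_fun_prod _ fun i _ => hm.comp (measurable_pi_apply i)
  exact h1

/-- characteristic functional of one block -/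
lemma blk_integral [NeZero d] (κ : ℝ≥0) (h : ℝ × (Fin d → ℤ) → ℂ) (hm : Measurable h)
    (hb : ∀ p, ‖h p‖ ≤ 1) :
    ∫ b, ∏ i ∈ Finset.range b.1, h (b.2 i) ∂blkLaw d κ = cexp (κ * (∫ p, h p ∂mk d - 1)) := by
  unfold blkLaw
  rw [integral_prod]
  · simp only
    have h1 : ∀ c : ℕ, ∫ m, ∏ i ∈ Finset.range c, h (m i) ∂(Measure.infinitePi fun _ : ℕ => mk d) =
        (∫ p, h p ∂mk d) ^ c := by
      intro c
      rw [integral_prod_range c (fun _ => h) fun _ => hm]
      simp
    simp only [h1]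
    rw [integral_poissonMeasure]
    exact poisson_series κ _
  · refine Integrable.of_bound (measurable_prodRange hm).aestronglyMeasurable 1 (ae_of_all _ fun b => ?_)
    rw [norm_prod]
    exact Finset.prod_le_one (fun _ _ => norm_nonneg _) fun i _ => hb _

end Pool.Agent.Helper83.MobileTraps.Exist
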