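import Pool.Agent.Helper83.MobileTraps.Exist1

open MeasureTheory ProbabilityTheory Filter Complex
open scoped ENNReal NNReal Topology

namespace Pool.Agent.Helper83.MobileTraps.Exist

open Pool.Agent.Helper83.MobileTraps

variable {d : ℕ}

/-- embedding into Euclidean space -/
noncomputable def emb (x : Fin d → ℤ) : EuclideanSpace ℝ (Fin d) := WithLp.toLp 2 fun j => (x j : ℝ)

/-- left inverse -/
noncomputable def flo (v : EuclideanSpace ℝ (Fin d)) : Fin d → ℤ := fun j => ⌊v j⌋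

lemma flo_emb (x : Fin d → ℤ) : flo (emb x) = x := by
  funext j
  simp [flo, emb]

lemma measurable_emb : Measurable (emb (d := d)) := Measurable.of_discrete

lemma measurable_flo : Measurable (flo (d := d)) := by
  refine measurable_pi_lambda _ fun j => ?_
  have h1 : Measurable fun v : EuclideanSpace ℝ (Fin d) => v j := by fun_prop
  exact Int.measurable_floor.comp h1

lemma inner_emb (x : Fin d → ℤ) (v : EuclideanSpace ℝ (Fin d)) :
    inner ℝ (emb x) v = ∑ j, (x j : ℝ) * v j := by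
  rw [PiLp.inner_apply]
  refine Finset.sum_congr rfl fun j _ => ?_
  simp [emb, mul_comm]

lemma charFun_emb (μ : Measure (Fin d → ℤ)) (v : EuclideanSpace ℝ (Fin d)) :
    charFun (μ.map emb) v = cf μ (fun j => v j) := by
  rw [charFun_apply, integral_map measurable_emb.aemeasurable (by fun_prop)]
  unfold cf ex
  simp only [inner_emb]

lemma charFun_emb' {Ω : Type*} [MeasurableSpace Ω] (P : Measure Ω) {f : Ω → Fin d → ℤ}
    (hf : Measurable f) (v : EuclideanSpace ℝ (Fin d)) :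
    charFun (P.map fun ω => emb (f ω)) v = ∫ ω, ex (fun j => v j) (f ω) ∂P := by
  have h : (P.map fun ω => emb (f ω)) = (P.map f).map emb := by
    rw [Measure.map_map measurable_emb hf]; rfl
  rw [h, charFun_emb]
  unfold cf
  rw [integral_map hf.aemeasurable (measurable_ex _).aestronglyMeasurable]

lemma eq_of_cf {μ ν : Measure (Fin d → ℤ)} [IsProbabilityMeasure μ] [IsProbabilityMeasure ν]
    (h : ∀ θ, cf μ θ = cf ν θ) : μ = ν := by
  have h1 : μ.map emb = ν.map emb := by
    have := Measure.isProbabilityMeasure_map (μ := μ) (measurable_emb (d := d)).aemeasurable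
    have := Measure.isProbabilityMeasure_map (μ := ν) (measurable_emb (d := d)).aemeasurable
    refine Measure.ext_of_charFun ?_
    funext v
    rw [charFun_emb, charFun_emb, h]
  have h2 : ∀ μ : Measure (Fin d → ℤ), (μ.map emb).map flo = μ := by
    intro μ
    rw [Measure.map_map measurable_flo measurable_emb]
    have : flo ∘ emb = (id : (Fin d → ℤ) → _) := funext flo_emb
    rw [this, Measure.map_id]
  rw [← h2 μ, h1, h2]

lemma iIndepFun_of_ex {Ω : Type*} [MeasurableSpace Ω] {P : Measure Ω} [IsProbabilityMeasure P]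
    {n : ℕ} {f : Fin n → Ω → Fin d → ℤ} (hf : ∀ i, Measurable (f i))
    (h : ∀ θ : Fin n → Fin d → ℝ, ∫ ω, ∏ i, ex (θ i) (f i ω) ∂P = ∏ i, ∫ ω, ex (θ i) (f i ω) ∂P) :
    iIndepFun f P := by
  have h1 : iIndepFun (fun i ω => emb (f i ω)) P := by
    have hae : ∀ i, AEMeasurable (fun ω => emb (f i ω)) P := fun i =>
      (measurable_emb.comp (hf i)).aemeasurable
    rw [iIndepFun_iff_charFun_pi hae]
    intro v
    have hm : Measurable fun ω => WithLp.toLp 2 fun i => emb (f i ω) := by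
      have h2 : Measurable fun ω => fun i => emb (f i ω) :=
        measurable_pi_lambda _ fun i => measurable_emb.comp (hf i)
      exact (WithLp.measurable_toLp 2 _).comp h2
    rw [charFun_apply, integral_map hm.aemeasurable (by fun_prop)]
    have h3 : ∀ ω, cexp ((inner ℝ (WithLp.toLp 2 fun i => emb (f i ω)) v : ℝ) * I) =
        ∏ i, ex (fun j => v i j) (f i ω) := by
      intro ω
      rw [PiLp.inner_apply]
      unfold ex
      rw [← Complex.exp_sum, ← Finset.sum_mul, ← ofReal_sum]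
      congr 3
      refine Finset.sum_congr rfl fun i _ => ?_
      exact inner_emb _ _
    simp only [h3]
    rw [h]
    refine Finset.prod_congr rfl fun i _ => ?_
    rw [charFun_emb' P (hf i)]
  have h2 := h1.comp (fun _ => flo) fun _ => measurable_flo
  have h3 : (fun i => flo ∘ (fun ω => emb (f i ω))) = f := by
    funext i ω
    exact flo_emb _
  rw [h3] at h2
  exact h2

/-! the walk -/

/-- clamp -/
noncomputable def cl (x : ℝ) : ℝ := if 0 < x ∧ x ≤ 1 then x else 1

lemma cl_pos (x : ℝ) : 0 < cl x := by unfold cl; split_ifs with h; exacts [h.1, one_pos]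

lemma cl_le (x : ℝ) : cl x ≤ 1 := by unfold cl; split_ifs with h; exacts [h.2, le_rfl]

lemma measurable_cl : Measurable cl := by
  unfold cl
  refine Measurable.ite ?_ measurable_id measurable_const
  exact measurableSet_Ioc

/-- contribution of block `k` at time `t` -/
noncomputable def Fk (k : ℕ) (t : ℝ≥0) (b : ℕ × (ℕ → ℝ × (Fin d → ℤ))) : Fin d → ℤ :=
  ∑ i ∈ Finset.range b.1, if (k : ℝ) + cl (b.2 i).1 ≤ t then (b.2 i).2 else 0

/-- the walk -/
noncomputable def walk (t : ℝ≥0) (ω : ℕ → ℕ × (ℕ → ℝ × (Fin d → ℤ))) : Fin d → ℤ :=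
  ∑ k ∈ Finset.range ⌈t⌉₊, Fk k t (ω k)

lemma Fk_zero {k : ℕ} {t : ℝ≥0} (h : t ≤ k) (b : ℕ × (ℕ → ℝ × (Fin d → ℤ))) : Fk k t b = 0 := by
  unfold Fk
  refine Finset.sum_eq_zero fun i _ => ?_
  rw [if_neg]
  have h1 : (t : ℝ) ≤ k := by exact_mod_cast h
  have := cl_pos (b.2 i).1
  linarith

lemma walk_eq {n : ℕ} {t : ℝ≥0} (h : t ≤ n) (ω : ℕ → ℕ × (ℕ → ℝ × (Fin d → ℤ))) :
    walk t ω = ∑ k ∈ Finset.range n, Fk k t (ω k) := by
  unfold walk
  have h1 : ⌈t⌉₊ ≤ n := Nat.ceil_le.2 h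
  rw [← Finset.sum_range_add_sum_Ico _ h1]
  rw [Finset.sum_eq_zero (s := Finset.Ico ⌈t⌉₊ n), add_zero]
  intro k hk
  rw [Finset.mem_Ico] at hk
  exact Fk_zero (Nat.ceil_le.1 hk.1) _

lemma measurable_Fk (k : ℕ) (t : ℝ≥0) : Measurable (Fk (d := d) k t) := by
  unfold Fk
  refine measurable_from_prod_countable_right fun c => ?_
  have h1 : Measurable fun m : ℕ → ℝ × (Fin d → ℤ) =>
      ∑ i ∈ Finset.range c, if (k : ℝ) + cl (m i).1 ≤ t then (m i).2 else 0 := by
    refine Finset.measurable_fun_sum _ fun i _ => ?_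
    have h2 : Measurable fun m : ℕ → ℝ × (Fin d → ℤ) => (m i).1 :=
      measurable_fst.comp (measurable_pi_apply i)
    have h3 : Measurable fun m : ℕ → ℝ × (Fin d → ℤ) => (m i).2 :=
      measurable_snd.comp (measurable_pi_apply i)
    have h4 : Measurable fun m : ℕ → ℝ × (Fin d → ℤ) => cl (m i).1 := measurable_cl.comp h2
    refine Measurable.ite (measurableSet_le (h4.const_add _) measurable_const) h3 measurable_const
  exact h1

lemma measurable_walk (t : ℝ≥0) : Measurable (walk (d := d) t) := by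
  unfold walk
  exact Finset.measurable_fun_sum _ fun k _ => (measurable_Fk k t).comp (measurable_pi_apply k)

lemma walk_zero (ω : ℕ → ℕ × (ℕ → ℝ × (Fin d → ℤ))) : walk 0 ω = 0 := by
  unfold walk; simp

lemma walk_rc (ω : ℕ → ℕ × (ℕ → ℝ × (Fin d → ℤ))) (t : ℝ≥0) :
    ∀ᶠ s in 𝓝[>] t, walk s ω = walk t ω := by
  obtain ⟨n, hn⟩ := exists_nat_gt t
  have h0 : ∀ᶠ s in 𝓝 t, s ≤ (n : ℝ≥0) := Iic_mem_nhds hn
  have h1 : ∀ᶠ s in 𝓝[>] t, s ≤ (n : ℝ≥0) := h0.filter_mono nhdsWithin_le_nhds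
  have h2 : ∀ k ∈ Finset.range n, ∀ᶠ s in 𝓝[>] t, Fk k s (ω k) = Fk k t (ω k) := by
    intro k _
    have h3 : ∀ i ∈ Finset.range (ω k).1, ∀ᶠ s in 𝓝[>] t,
        ((k : ℝ) + cl ((ω k).2 i).1 ≤ (s : ℝ≥0) ↔ (k : ℝ) + cl ((ω k).2 i).1 ≤ t) := by
      intro i _
      by_cases h : (k : ℝ) + cl ((ω k).2 i).1 ≤ t
      · filter_upwards [self_mem_nhdsWithin] with s hs
        have hs' : (t : ℝ) < s := by exact_mod_cast hs
        exact ⟨fun _ => h, fun _ => by linarith⟩
      · have h4 : ∀ᶠ s : ℝ≥0 in 𝓝[>] t, (s : ℝ) < (k : ℝ) + cl ((ω k).2 i).1 :=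
          ((NNReal.continuous_coe.tendsto t).eventually_lt_const (not_le.1 h)).filter_mono
            nhdsWithin_le_nhds
        filter_upwards [h4] with s hs
        exact ⟨fun h5 => absurd hs (not_lt.2 h5), fun h5 => absurd h5 h⟩
    have h5 := (Filter.eventually_all_finset _).2 h3
    filter_upwards [h5] with s hs
    unfold Fk
    refine Finset.sum_congr rfl fun i hi => ?_
    simp only [hs i hi]
  have h6 := (Filter.eventually_all_finset _).2 h2
  filter_upwards [h1, h6] with s hs1 hs2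
  rw [walk_eq hs1, walk_eq hn.le]
  exact Finset.sum_congr rfl hs2

lemma walk_ll (ω : ℕ → ℕ × (ℕ → ℝ × (Fin d → ℤ))) (t : ℝ≥0) :
    ∃ v, ∀ᶠ s in 𝓝[<] t, walk s ω = v := by
  obtain ⟨n, hn⟩ := exists_nat_gt t
  refine ⟨∑ k ∈ Finset.range n, ∑ i ∈ Finset.range (ω k).1,
    if (k : ℝ) + cl ((ω k).2 i).1 < t then ((ω k).2 i).2 else 0, ?_⟩
  have h2 : ∀ k ∈ Finset.range n, ∀ᶠ s in 𝓝[<] t, Fk k s (ω k) =
      ∑ i ∈ Finset.range (ω k).1, if (k : ℝ) + cl ((ω k).2 i).1 < t then ((ω k).2 i).2 else 0 := by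
    intro k _
    have h3 : ∀ i ∈ Finset.range (ω k).1, ∀ᶠ s in 𝓝[<] t,
        ((k : ℝ) + cl ((ω k).2 i).1 ≤ (s : ℝ≥0) ↔ (k : ℝ) + cl ((ω k).2 i).1 < t) := by
      intro i _
      by_cases h : (k : ℝ) + cl ((ω k).2 i).1 < t
      · have h4 : ∀ᶠ s : ℝ≥0 in 𝓝[<] t, (k : ℝ) + cl ((ω k).2 i).1 < (s : ℝ) :=
          ((NNReal.continuous_coe.tendsto t).eventually_const_lt h).filter_mono
            nhdsWithin_le_nhds
        filter_upwards [h4] with s hs
        exact ⟨fun _ => h, fun _ => hs.le⟩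
      · filter_upwards [self_mem_nhdsWithin] with s hs
        have hs' : (s : ℝ) < t := by exact_mod_cast hs
        exact ⟨fun h5 => absurd (lt_of_le_of_lt h5 hs') h, fun h5 => absurd h5 h⟩
    have h5 := (Filter.eventually_all_finset _).2 h3
    filter_upwards [h5] with s hs
    unfold Fk
    refine Finset.sum_congr rfl fun i hi => ?_
    simp only [hs i hi]
  have h6 := (Filter.eventually_all_finset _).2 h2
  filter_upwards [self_mem_nhdsWithin, h6] with s hs1 hs2
  have hs3 : s ≤ n := (le_of_lt hs1).trans hn.le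
  rw [walk_eq hs3]
  exact Finset.sum_congr rfl hs2

end Pool.Agent.Helper83.MobileTraps.Exist
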