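import Pool.Agent.Helper83.MobileTraps.Exist2

open MeasureTheory ProbabilityTheory Filter Complex
open scoped ENNReal NNReal Topology

namespace Pool.Agent.Helper83.MobileTraps.Exist

open Pool.Agent.Helper83.MobileTraps

variable {d : ℕ}

lemma walk_sub {n : ℕ} {s t : ℝ≥0} (hst : s ≤ t) (ht : t ≤ n)
    (ω : ℕ → ℕ × (ℕ → ℝ × (Fin d → ℤ))) :
    walk t ω - walk s ω = ∑ k ∈ Finset.range n, ∑ i ∈ Finset.range (ω k).1,
      if (s : ℝ) < (k : ℝ) + cl ((ω k).2 i).1 ∧ (k : ℝ) + cl ((ω k).2 i).1 ≤ t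
        then ((ω k).2 i).2 else 0 := by
  rw [walk_eq ht, walk_eq (hst.trans ht), ← Finset.sum_sub_distrib]
  refine Finset.sum_congr rfl fun k _ => ?_
  unfold Fk
  rw [← Finset.sum_sub_distrib]
  refine Finset.sum_congr rfl fun i _ => ?_
  have hst' : (s : ℝ) ≤ t := by exact_mod_cast hst
  by_cases h1 : (k : ℝ) + cl ((ω k).2 i).1 ≤ t
  · by_cases h2 : (k : ℝ) + cl ((ω k).2 i).1 ≤ s
    · rw [if_pos h1, if_pos h2, if_neg (fun h => absurd h2 (not_le.2 h.1)), sub_self]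
    · rw [if_pos h1, if_neg h2, if_pos ⟨not_le.1 h2, h1⟩, sub_zero]
  · rw [if_neg h1, if_neg (fun h => h1 (h.trans hst')), if_neg (fun h => h1 h.2), sub_zero]

/-- the mark functional of a family of intervals and frequencies -/
noncomputable def hk {m : ℕ} (k : ℕ) (a b : Fin m → ℝ≥0) (θ : Fin m → Fin d → ℝ)
    (p : ℝ × (Fin d → ℤ)) : ℂ :=
  ∏ j, ex (θ j) (if (a j : ℝ) < (k : ℝ) + cl p.1 ∧ (k : ℝ) + cl p.1 ≤ b j then p.2 else 0)

lemma norm_hk {m : ℕ} (k : ℕ) (a b : Fin m → ℝ≥0) (θ : Fin m → Fin d → ℝ)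
    (p : ℝ × (Fin d → ℤ)) : ‖hk k a b θ p‖ ≤ 1 := by
  unfold hk
  rw [norm_prod]
  exact Finset.prod_le_one (fun _ _ => norm_nonneg _) fun i _ => (norm_ex _ _).le

lemma measurable_act (k : ℕ) (a b : ℝ≥0) :
    MeasurableSet {u : ℝ | (a : ℝ) < (k : ℝ) + cl u ∧ (k : ℝ) + cl u ≤ b} :=
  (measurableSet_lt measurable_const (measurable_cl.const_add _)).inter
    (measurableSet_le (measurable_cl.const_add _) measurable_const)

lemma measurable_hk {m : ℕ} (k : ℕ) (a b : Fin m → ℝ≥0) (θ : Fin m → Fin d → ℝ) :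
    Measurable (hk k a b θ) := by
  unfold hk
  refine Finset.measurable_fun_prod _ fun j _ => ?_
  refine (measurable_ex _).comp (Measurable.ite ?_ measurable_snd measurable_const)
  exact (measurable_act k (a j) (b j)).preimage measurable_fst

lemma prod_increments {m n : ℕ} {a b : Fin m → ℝ≥0} (hab : ∀ j, a j ≤ b j) (hb : ∀ j, b j ≤ n)
    (θ : Fin m → Fin d → ℝ) (ω : ℕ → ℕ × (ℕ → ℝ × (Fin d → ℤ))) :
    ∏ j, ex (θ j) (walk (b j) ω - walk (a j) ω) =
      ∏ k ∈ Finset.range n, ∏ i ∈ Finset.range (ω k).1, hk k a b θ ((ω k).2 i) := by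
  have h1 : ∀ j, ex (θ j) (walk (b j) ω - walk (a j) ω) =
      ∏ k ∈ Finset.range n, ∏ i ∈ Finset.range (ω k).1, ex (θ j)
        (if (a j : ℝ) < (k : ℝ) + cl ((ω k).2 i).1 ∧ (k : ℝ) + cl ((ω k).2 i).1 ≤ b j
          then ((ω k).2 i).2 else 0) := by
    intro j
    rw [walk_sub (hab j) (hb j), ex_sum]
    exact Finset.prod_congr rfl fun k _ => ex_sum _ _ _
  simp only [h1]
  rw [Finset.prod_comm]
  refine Finset.prod_congr rfl fun k _ => ?_
  rw [Finset.prod_comm]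
  rfl

/-- characteristic functional of the increments -/
lemma integral_increments [NeZero d] (κ : ℝ≥0) {m n : ℕ} {a b : Fin m → ℝ≥0}
    (hab : ∀ j, a j ≤ b j) (hb : ∀ j, b j ≤ n) (θ : Fin m → Fin d → ℝ) :
    ∫ ω, ∏ j, ex (θ j) (walk (b j) ω - walk (a j) ω) ∂omLaw d κ =
      ∏ k ∈ Finset.range n, cexp (κ * (∫ p, hk k a b θ p ∂mk d - 1)) := by
  have h1 : ∀ ω : ℕ → ℕ × (ℕ → ℝ × (Fin d → ℤ)),
      ∏ j, ex (θ j) (walk (b j) ω - walk (a j) ω) =
      ∏ k ∈ Finset.range n, (fun (k : ℕ) (bl : ℕ × (ℕ → ℝ × (Fin d → ℤ))) =>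
        ∏ i ∈ Finset.range bl.1, hk k a b θ (bl.2 i)) k (ω k) := fun ω =>
    prod_increments hab hb θ ω
  rw [integral_congr_ae (ae_of_all _ h1)]
  have h2 := integral_prod_range (μ := blkLaw d κ) n
    (fun (k : ℕ) (bl : ℕ × (ℕ → ℝ × (Fin d → ℤ))) =>
      ∏ i ∈ Finset.range bl.1, hk k a b θ (bl.2 i))
    (fun k => measurable_prodRange (measurable_hk k a b θ))
  refine h2.trans ?_
  exact Finset.prod_congr rfl fun k _ => blk_integral κ _ (measurable_hk k a b θ) (norm_hk k a b θ)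

/-! integral of the mark functional -/

/-- length of the part of `(0,1]` that is active -/
noncomputable def actLen (k : ℕ) (a b : ℝ≥0) : ℝ :=
  unif.real {u : ℝ | (a : ℝ) < (k : ℝ) + cl u ∧ (k : ℝ) + cl u ≤ b}

/-- truncation to `[0,1]` -/
noncomputable def tr (x : ℝ) : ℝ := max 0 (min 1 x)

lemma actLen_eq (k : ℕ) {a b : ℝ≥0} (hab : a ≤ b) :
    actLen k a b = tr (b - k) - tr (a - k) := by
  unfold actLen unif
  rw [measureReal_restrict_apply (measurable_act k a b)]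
  have hab' : (a : ℝ) ≤ b := by exact_mod_cast hab
  have h1 : {u : ℝ | (a : ℝ) < (k : ℝ) + cl u ∧ (k : ℝ) + cl u ≤ b} ∩ Set.Ioc 0 1 =
      Set.Ioc (max 0 ((a : ℝ) - k)) (min 1 ((b : ℝ) - k)) := by
    ext u
    simp only [Set.mem_inter_iff, Set.mem_ofPred_eq, Set.mem_Ioc, max_lt_iff, le_min_iff]
    constructor
    · rintro ⟨⟨h1, h2⟩, h3, h4⟩
      unfold cl at h1 h2
      rw [if_pos ⟨h3, h4⟩] at h1 h2
      exact ⟨⟨h3, by linarith⟩, h4, by linarith⟩
    · rintro ⟨⟨h1, h2⟩, h3, h4⟩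
      unfold cl
      rw [if_pos ⟨h1, h3⟩]
      exact ⟨⟨by linarith, by linarith⟩, h1, h3⟩
  rw [h1, Real.volume_real_Ioc]
  unfold tr
  simp only [max_def, min_def]
  split_ifs <;> linarith

lemma sum_tr (n : ℕ) {b : ℝ} (hb : 0 ≤ b) : ∑ k ∈ Finset.range n, tr (b - k) = min b n := by
  induction n with
  | zero => simp [hb]
  | succ n ih =>
    rw [Finset.sum_range_succ, ih]
    unfold tr
    push_cast
    rcases le_total b n with h | h
    · rw [min_eq_left h, min_eq_left (by linarith : b ≤ n + 1),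
        min_eq_right (by linarith : b - n ≤ 1), max_eq_left (by linarith)]
      ring
    · rw [min_eq_right h]
      rcases le_total b (n + 1) with h2 | h2
      · rw [min_eq_left h2, min_eq_right (by linarith : b - n ≤ 1), max_eq_right (by linarith)]
        ring
      · rw [min_eq_right h2, min_eq_left (by linarith : (1 : ℝ) ≤ b - n),
          max_eq_right (by norm_num)]

lemma sum_actLen (n : ℕ) {a b : ℝ≥0} (hab : a ≤ b) (hb : b ≤ n) :
    ∑ k ∈ Finset.range n, actLen k a b = b - a := by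
  simp only [actLen_eq _ hab]
  rw [Finset.sum_sub_distrib, sum_tr n (NNReal.coe_nonneg b), sum_tr n (NNReal.coe_nonneg a)]
  have h1 : (b : ℝ) ≤ n := by exact_mod_cast hb
  have h2 : (a : ℝ) ≤ n := by exact_mod_cast hab.trans hb
  rw [min_eq_left h1, min_eq_left h2]

/-- for disjoint intervals the mark functional is a sum -/
lemma hk_eq {m : ℕ} (k : ℕ) {a b : Fin m → ℝ≥0} (hdis : ∀ i j, i ≠ j → ∀ x : ℝ,
      ¬ (((a i : ℝ) < x ∧ x ≤ b i) ∧ ((a j : ℝ) < x ∧ x ≤ b j))) (θ : Fin m → Fin d → ℝ)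
    (p : ℝ × (Fin d → ℤ)) :
    hk k a b θ p = 1 + ∑ j, ({u : ℝ | (a j : ℝ) < (k : ℝ) + cl u ∧ (k : ℝ) + cl u ≤ b j}).indicator
      (fun _ => (1 : ℂ)) p.1 * (ex (θ j) p.2 - 1) := by
  unfold hk
  by_cases hex : ∃ j, (a j : ℝ) < (k : ℝ) + cl p.1 ∧ (k : ℝ) + cl p.1 ≤ b j
  · obtain ⟨j, hj⟩ := hex
    have hne : ∀ i, i ≠ j → ¬ ((a i : ℝ) < (k : ℝ) + cl p.1 ∧ (k : ℝ) + cl p.1 ≤ b i) :=
      fun i hij h => hdis i j hij _ ⟨h, hj⟩
    rw [Finset.prod_eq_single j, Finset.sum_eq_single j, if_pos hj,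
      Set.indicator_of_mem (by exact hj)]
    · ring
    · intro i _ hij
      rw [Set.indicator_of_notMem (by exact hne i hij), zero_mul]
    · simp
    · intro i _ hij
      rw [if_neg (hne i hij), ex_zero]
    · simp
  · push Not at hex
    have hne : ∀ i, ¬ ((a i : ℝ) < (k : ℝ) + cl p.1 ∧ (k : ℝ) + cl p.1 ≤ b i) :=
      fun i h => absurd h.2 (not_le.2 (hex i h.1))
    rw [Finset.prod_eq_one, Finset.sum_eq_zero, add_zero]
    · intro i _
      rw [Set.indicator_of_notMem (by exact hne i), zero_mul]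
    · intro i _
      rw [if_neg (hne i), ex_zero]

lemma integral_hk [NeZero d] {m : ℕ} (k : ℕ) {a b : Fin m → ℝ≥0} (hdis : ∀ i j, i ≠ j → ∀ x : ℝ,
      ¬ (((a i : ℝ) < x ∧ x ≤ b i) ∧ ((a j : ℝ) < x ∧ x ≤ b j))) (θ : Fin m → Fin d → ℝ) :
    ∫ p, hk k a b θ p ∂mk d - 1 = ∑ j, (actLen k (a j) (b j) : ℂ) * (cf (stepLaw d) (θ j) - 1) := by
  simp only [hk_eq k hdis θ]
  have hA : ∀ j, MeasurableSet {u : ℝ | (a j : ℝ) < (k : ℝ) + cl u ∧ (k : ℝ) + cl u ≤ b j} :=
    fun j => measurable_act k (a j) (b j)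
  have hi1 : ∀ j, Integrable (({u : ℝ | (a j : ℝ) < (k : ℝ) + cl u ∧ (k : ℝ) + cl u ≤ b j}).indicator
      (fun _ => (1 : ℂ))) unif := fun j => (integrable_const _).indicator (hA j)
  have hi2 : ∀ j, Integrable (fun x => ex (θ j) x - 1) (stepLaw d) := fun j =>
    (integrable_ex (θ j)).sub (integrable_const _)
  have hi : ∀ j ∈ (Finset.univ : Finset (Fin m)), Integrable (fun p : ℝ × (Fin d → ℤ) =>
      ({u : ℝ | (a j : ℝ) < (k : ℝ) + cl u ∧ (k : ℝ) + cl u ≤ b j}).indicator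
      (fun _ => (1 : ℂ)) p.1 * (ex (θ j) p.2 - 1)) (mk d) := fun j _ => (hi1 j).mul_prod (hi2 j)
  rw [integral_add (integrable_const _) (integrable_finsetSum _ hi), integral_finsetSum _ hi]
  have h1 : ∀ j, ∫ p : ℝ × (Fin d → ℤ), ({u : ℝ | (a j : ℝ) < (k : ℝ) + cl u ∧ (k : ℝ) + cl u ≤
      b j}).indicator (fun _ => (1 : ℂ)) p.1 * (ex (θ j) p.2 - 1) ∂mk d =
      (actLen k (a j) (b j) : ℂ) * (cf (stepLaw d) (θ j) - 1) := by
    intro j
    unfold mk
    rw [integral_prod_mul (f := ({u : ℝ | (a j : ℝ) < (k : ℝ) + cl u ∧ (k : ℝ) + cl u ≤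
      b j}).indicator (fun _ => (1 : ℂ))) (g := fun x => ex (θ j) x - 1)]
    congr 1
    · rw [integral_indicator (hA j)]
      unfold actLen
      simp
    · rw [integral_sub (integrable_ex _) (integrable_const _)]
      simp [cf]
  simp only [h1]
  simp

/-- the formula for disjoint intervals -/
lemma integral_increments_eq [NeZero d] (κ : ℝ≥0) {m : ℕ} {a b : Fin m → ℝ≥0}
    (hab : ∀ j, a j ≤ b j) (hdis : ∀ i j, i ≠ j → ∀ x : ℝ,
      ¬ (((a i : ℝ) < x ∧ x ≤ b i) ∧ ((a j : ℝ) < x ∧ x ≤ b j))) (θ : Fin m → Fin d → ℝ) :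
    ∫ ω, ∏ j, ex (θ j) (walk (b j) ω - walk (a j) ω) ∂omLaw d κ =
      ∏ j, cexp ((κ * (b j - a j) : ℝ) * (cf (stepLaw d) (θ j) - 1)) := by
  obtain ⟨n, hn⟩ : ∃ n : ℕ, ∀ j, b j ≤ n := by
    obtain ⟨n, hn⟩ := exists_nat_ge (∑ j, b j)
    exact ⟨n, fun j => (Finset.single_le_sum (f := b) (fun _ _ => zero_le) (Finset.mem_univ j)).trans hn⟩
  rw [integral_increments κ hab hn θ]
  simp only [integral_hk _ hdis θ]
  rw [← Complex.exp_sum, ← Complex.exp_sum]
  congr 1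
  simp only [Finset.mul_sum]
  rw [Finset.sum_comm]
  refine Finset.sum_congr rfl fun j _ => ?_
  have h1 := sum_actLen n (hab j) (hn j)
  have h2 : ∑ k ∈ Finset.range n, (actLen k (a j) (b j) : ℂ) = ((b j - a j : ℝ) : ℂ) := by
    rw [← ofReal_sum, h1]
  calc ∑ k ∈ Finset.range n, (κ : ℂ) * ((actLen k (a j) (b j) : ℂ) * (cf (stepLaw d) (θ j) - 1))
      = (κ : ℂ) * (∑ k ∈ Finset.range n, (actLen k (a j) (b j) : ℂ)) *
        (cf (stepLaw d) (θ j) - 1) := by
        rw [Finset.mul_sum, Finset.sum_mul]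
        exact Finset.sum_congr rfl fun k _ => by ring
    _ = _ := by rw [h2]; push_cast; rfl

lemma integral_one_increment [NeZero d] (κ : ℝ≥0) {s t : ℝ≥0} (hst : s ≤ t) (θ : Fin d → ℝ) :
    ∫ ω, ex θ (walk t ω - walk s ω) ∂omLaw d κ =
      cexp ((κ * (t - s) : ℝ) * (cf (stepLaw d) θ - 1)) := by
  have h := integral_increments_eq κ (m := 1) (a := fun _ => s) (b := fun _ => t) (fun _ => hst)
    (fun i j hij => absurd (Subsingleton.elim i j) hij) (fun _ => θ)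
  simpa using h

theorem isCTSRW_walk [NeZero d] (κ : ℝ≥0) (x₀ : Fin d → ℤ) :
    IsCTSRW (omLaw d κ) d κ x₀ fun t ω => x₀ + walk t ω where
  measurable t := (measurable_walk t).const_add _
  start ω := by rw [walk_zero, add_zero]
  rightCont ω t := (walk_rc ω t).mono fun s hs => by rw [hs]
  leftLim ω t := by
    obtain ⟨v, hv⟩ := walk_ll ω t
    exact ⟨x₀ + v, hv.mono fun s hs => by rw [hs]⟩
  indep := by
    intro n t ht
    have hm : ∀ i : Fin n, Measurable fun ω : ℕ → ℕ × (ℕ → ℝ × (Fin d → ℤ)) =>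
        (x₀ + walk (t i.succ) ω) - (x₀ + walk (t i.castSucc) ω) := fun i =>
      ((measurable_walk _).const_add _).sub ((measurable_walk _).const_add _)
    refine iIndepFun_of_ex hm fun θ => ?_
    simp only [add_sub_add_left_eq_sub]
    rw [integral_increments_eq κ (a := fun i : Fin n => t i.castSucc) (b := fun i => t i.succ)
      (fun j => ht (Fin.castSucc_lt_succ).le) ?_ θ]
    · exact Finset.prod_congr rfl fun j _ =>
        (integral_one_increment κ (ht (Fin.castSucc_lt_succ).le) (θ j)).symm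
    · have key : ∀ i j : Fin n, i < j → ∀ x : ℝ, ¬ (((t i.castSucc : ℝ) < x ∧ x ≤ t i.succ) ∧
          ((t j.castSucc : ℝ) < x ∧ x ≤ t j.succ)) := by
        rintro i j hij x ⟨⟨_, h1⟩, h2, _⟩
        have h3 : t i.succ ≤ t j.castSucc := ht (Fin.succ_le_castSucc_iff.2 hij)
        have h4 : (t i.succ : ℝ) ≤ t j.castSucc := by exact_mod_cast h3
        linarith
      intro i j hij x hx
      rcases lt_or_gt_of_ne hij with h | h
      · exact key i j h x hx
      · exact key j i h x ⟨hx.2, hx.1⟩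
  law s t := by
    have hm : Measurable fun ω : ℕ → ℕ × (ℕ → ℝ × (Fin d → ℤ)) =>
        (x₀ + walk (s + t) ω) - (x₀ + walk s ω) :=
      ((measurable_walk _).const_add _).sub ((measurable_walk _).const_add _)
    have := Measure.isProbabilityMeasure_map (μ := omLaw d κ) hm.aemeasurable
    refine eq_of_cf fun θ => ?_
    rw [cf_ct]
    unfold cf
    rw [integral_map hm.aemeasurable (measurable_ex _).aestronglyMeasurable]
    simp only [add_sub_add_left_eq_sub]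
    rw [integral_one_increment κ (le_self_add)]
    unfold cf
    push_cast
    ring_nf

end Pool.Agent.Helper83.MobileTraps.Exist
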