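import Pool.Agent.Helper83.MobileTraps.Exist3

open MeasureTheory ProbabilityTheory Filter
open scoped ENNReal NNReal Topology

namespace Pool.Agent.Helper83.MobileTraps.Exist

open Pool.Agent.Helper83.MobileTraps

variable {d : ℕ}

/-- independence is transported by measure preserving maps -/
lemma iIndepFun_comp_mp {Ω Ω' ι : Type*} [MeasurableSpace Ω] [MeasurableSpace Ω']
    {P : Measure Ω} {P' : Measure Ω'} {E : ι → Type*} [∀ i, MeasurableSpace (E i)]
    {f : ∀ i, Ω' → E i} (hf : ∀ i, Measurable (f i)) (h : iIndepFun f P') {g : Ω → Ω'}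
    (hg : MeasurePreserving g P P') : iIndepFun (fun i ω => f i (g ω)) P := by
  rw [iIndepFun_iff_measure_inter_preimage_eq_mul] at h ⊢
  intro S sets hs
  have h1 := h S hs
  have h2 : ∀ i, MeasurableSet (sets i) → P ((fun ω => f i (g ω)) ⁻¹' sets i) = P' (f i ⁻¹' sets i) := by
    intro i hi
    have : (fun ω => f i (g ω)) ⁻¹' sets i = g ⁻¹' (f i ⁻¹' sets i) := rfl
    rw [this, hg.measure_preimage ((hf i) hi).nullMeasurableSet]
  have h3 : (⋂ i ∈ S, (fun ω => f i (g ω)) ⁻¹' sets i) = g ⁻¹' (⋂ i ∈ S, f i ⁻¹' sets i) := by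
    simp only [Set.preimage_iInter]; rfl
  rw [h3, hg.measure_preimage]
  · rw [h1]
    exact Finset.prod_congr rfl fun i hi => (h2 i (hs i hi)).symm
  · exact (Finset.measurableSet_biInter S fun i hi => (hf i) (hs i hi)).nullMeasurableSet

lemma isCTSRW_comp_mp {Ω Ω' : Type*} [MeasurableSpace Ω] [MeasurableSpace Ω']
    {P : Measure Ω} {P' : Measure Ω'} {κ : ℝ≥0} {x₀ : Fin d → ℤ} {X : ℝ≥0 → Ω' → (Fin d → ℤ)}
    (hX : IsCTSRW P' d κ x₀ X) {g : Ω → Ω'} (hg : MeasurePreserving g P P') :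
    IsCTSRW P d κ x₀ fun t ω => X t (g ω) where
  measurable t := (hX.measurable t).comp hg.measurable
  start ω := hX.start _
  rightCont ω t := hX.rightCont _ t
  leftLim ω t := hX.leftLim _ t
  indep n t ht := iIndepFun_comp_mp
    (f := fun (i : Fin n) ω => X (t i.succ) ω - X (t i.castSucc) ω)
    (fun i => (hX.measurable _).sub (hX.measurable _)) (hX.indep n t ht) hg
  law s t := by
    have h1 := hX.law s t
    have hm : Measurable fun ω => X (s + t) ω - X s ω := (hX.measurable _).sub (hX.measurable _)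
    rw [← h1, ← hg.map_eq, Measure.map_map hm hg.measurable]
    rfl

/-- sample space of the traps -/
noncomputable def trapLaw (d : ℕ) [NeZero d] (ρ ν : ℝ≥0) :
    Measure (((Fin d → ℤ) → ℕ) × ((Fin d → ℤ) × ℕ → ℕ → ℕ × (ℕ → ℝ × (Fin d → ℤ)))) :=
  (Measure.infinitePi fun _ : Fin d → ℤ => poissonMeasure ν).prod
    (Measure.infinitePi fun _ : (Fin d → ℤ) × ℕ => omLaw d ρ)

instance [NeZero d] (ρ ν : ℝ≥0) : IsProbabilityMeasure (trapLaw d ρ ν) := by
  unfold trapLaw; infer_instance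

lemma mp_N [NeZero d] (ρ ν : ℝ≥0) (y : Fin d → ℤ) :
    MeasurePreserving (fun ω : ((Fin d → ℤ) → ℕ) × ((Fin d → ℤ) × ℕ → ℕ → ℕ × (ℕ → ℝ × (Fin d → ℤ)))
      => ω.1 y) (trapLaw d ρ ν) (poissonMeasure ν) := by
  have h1 := measurePreserving_eval_infinitePi (fun _ : Fin d → ℤ => poissonMeasure ν) y
  have h2 : MeasurePreserving Prod.fst (trapLaw d ρ ν)
    (Measure.infinitePi fun _ : Fin d → ℤ => poissonMeasure ν) := measurePreserving_fst
  exact h1.comp h2

lemma mp_Y [NeZero d] (ρ ν : ℝ≥0) (p : (Fin d → ℤ) × ℕ) :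
    MeasurePreserving (fun ω : ((Fin d → ℤ) → ℕ) × ((Fin d → ℤ) × ℕ → ℕ → ℕ × (ℕ → ℝ × (Fin d → ℤ)))
      => ω.2 p) (trapLaw d ρ ν) (omLaw d ρ) := by
  have h1 := measurePreserving_eval_infinitePi (fun _ : (Fin d → ℤ) × ℕ => omLaw d ρ) p
  have h2 : MeasurePreserving Prod.snd (trapLaw d ρ ν)
    (Measure.infinitePi fun _ : (Fin d → ℤ) × ℕ => omLaw d ρ) := measurePreserving_snd
  exact h1.comp h2

theorem isTrapSystem [NeZero d] (ρ ν : ℝ≥0) :
    IsTrapSystem (trapLaw d ρ ν) d ρ ν (fun y ω => ω.1 y)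
      (fun y j t ω => y + walk t (ω.2 (y, j))) where
  measN y := (mp_N ρ ν y).measurable
  lawN y := (mp_N ρ ν y).map_eq
  walk y j := isCTSRW_comp_mp (isCTSRW_walk ρ y) (mp_Y ρ ν (y, j))
  indepN := by
    have h1 : iIndepFun (fun (y : Fin d → ℤ) (ω : (Fin d → ℤ) → ℕ) => ω y)
        (Measure.infinitePi fun _ : Fin d → ℤ => poissonMeasure ν) :=
      iIndepFun_infinitePi (X := fun _ a => a) fun _ => measurable_id
    have h2 : MeasurePreserving Prod.fst (trapLaw d ρ ν)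
      (Measure.infinitePi fun _ : Fin d → ℤ => poissonMeasure ν) := measurePreserving_fst
    exact iIndepFun_comp_mp (fun y => measurable_pi_apply y) h1 h2
  indepY := by
    have hm : ∀ p : (Fin d → ℤ) × ℕ, Measurable
        fun (ω : ℕ → ℕ × (ℕ → ℝ × (Fin d → ℤ))) (t : ℝ≥0) => p.1 + walk t ω := fun p =>
      measurable_pi_lambda _ fun t => (measurable_walk t).const_add _
    have h1 : iIndepFun (fun (p : (Fin d → ℤ) × ℕ)
        (ω : (Fin d → ℤ) × ℕ → ℕ → ℕ × (ℕ → ℝ × (Fin d → ℤ))) (t : ℝ≥0) => p.1 + walk t (ω p))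
        (Measure.infinitePi fun _ : (Fin d → ℤ) × ℕ => omLaw d ρ) :=
      iIndepFun_infinitePi (X := fun (p : (Fin d → ℤ) × ℕ)
        (ω : ℕ → ℕ × (ℕ → ℝ × (Fin d → ℤ))) (t : ℝ≥0) => p.1 + walk t ω) hm
    have h2 : MeasurePreserving Prod.snd (trapLaw d ρ ν)
      (Measure.infinitePi fun _ : (Fin d → ℤ) × ℕ => omLaw d ρ) := measurePreserving_snd
    exact iIndepFun_comp_mp (fun p => (hm p).comp (measurable_pi_apply p)) h1 h2
  indepNY := by
    have h1 : Measurable fun (ω : (Fin d → ℤ) → ℕ) => ω := measurable_id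
    have h2 : Measurable fun (ω : (Fin d → ℤ) × ℕ → ℕ → ℕ × (ℕ → ℝ × (Fin d → ℤ)))
        (p : (Fin d → ℤ) × ℕ) (t : ℝ≥0) => p.1 + walk t (ω p) :=
      measurable_pi_lambda _ fun p => measurable_pi_lambda _ fun t =>
        ((measurable_walk t).comp (measurable_pi_apply p)).const_add _
    exact indepFun_prod h1 h2

/-- realisations of the model exist -/
theorem exists_realisation (hd : 1 ≤ d) (κ ρ ν : ℝ≥0) :
    ∃ (Ω Ω' : Type) (_ : MeasurableSpace Ω) (_ : MeasurableSpace Ω') (P : Measure Ω)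
      (P' : Measure Ω') (N : (Fin d → ℤ) → Ω → ℕ)
      (Y : (Fin d → ℤ) → ℕ → ℝ≥0 → Ω → (Fin d → ℤ)) (X : ℝ≥0 → Ω' → (Fin d → ℤ)),
      IsProbabilityMeasure P ∧ IsProbabilityMeasure P' ∧
      IsTrapSystem P d ρ ν N Y ∧ IsCTSRW P' d κ 0 X := by
  have : NeZero d := ⟨by omega⟩
  exact ⟨_, _, _, _, trapLaw d ρ ν, omLaw d κ, _, _, _, inferInstance, inferInstance,
    isTrapSystem ρ ν, isCTSRW_walk κ 0⟩

end Pool.Agent.Helper83.MobileTraps.Exist
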