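import Pool.Agent.Helper83.MobileTraps.HK3
import Pool.Agent.Helper83.Traps.Disc7

open MeasureTheory ProbabilityTheory Filter
open scoped ENNReal NNReal Topology Real

namespace Pool.Agent.Helper83.MobileTraps

open Pool.Agent.Helper83.Traps

variable {d : ℕ}

/-- grid times -/
noncomputable def gt (m k : ℕ) : ℝ≥0 := (k : ℝ≥0) / m

lemma gt_mono (m : ℕ) : Monotone (gt m) := fun a b h => by
  unfold gt
  gcongr

/-- blocks of fine increments of a path -/
noncomputable def blk (m : ℕ) (x : ℝ≥0 → Fin d → ℤ) (i : ℕ) (l : Fin m) : Fin d → ℤ :=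
  x (gt m (i * m + l + 1)) - x (gt m (i * m + l))

/-- the fine time `(i, l)` -/
noncomputable def tm (m : ℕ) (i : ℕ) (l : Fin m) : ℝ≥0 := gt m (i * m + l + 1)

lemma sum_Iic_fin {A : Type*} [AddCommMonoid A] {m : ℕ} (f : ℕ → A) (l : Fin m) :
    ∑ k ∈ Finset.Iic l, f k = ∑ k ∈ Finset.range (l + 1), f k := by
  have h : (Finset.Iic l).map Fin.valEmbedding = Finset.Iic (l : ℕ) := Fin.map_valEmbedding_Iic l
  have h2 : Finset.Iic (l : ℕ) = Finset.range (l + 1) := by
    ext x; simp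
  rw [← h2, ← h, Finset.sum_map]
  rfl

lemma ipos_blk (m : ℕ) (x : ℝ≥0 → Fin d → ℤ) (i : ℕ) (l : Fin m) :
    ipos (blk m x i) l = x (tm m i l) - x (gt m (i * m)) := by
  unfold ipos tm
  have h := sum_Iic_fin (fun k : ℕ => x (gt m (i * m + k + 1)) - x (gt m (i * m + k))) l
  have h2 : ∑ k ∈ Finset.Iic l, blk m x i k =
      ∑ k ∈ Finset.Iic l, (fun k : ℕ => x (gt m (i * m + k + 1)) - x (gt m (i * m + k))) k := rfl
  rw [h2, h]
  have h3 := Finset.sum_range_sub (fun k : ℕ => x (gt m (i * m + k))) ((l : ℕ) + 1)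
  simp only [add_zero, ← add_assoc] at h3
  exact h3

lemma del_blk (m : ℕ) (x : ℝ≥0 → Fin d → ℤ) (i : ℕ) :
    del (blk m x i) = x (gt m ((i + 1) * m)) - x (gt m (i * m)) := by
  unfold del
  have h2 : ∑ l : Fin m, blk m x i l =
      ∑ k ∈ Finset.range m, (x (gt m (i * m + k + 1)) - x (gt m (i * m + k))) :=
    (Finset.sum_range (fun k : ℕ => x (gt m (i * m + k + 1)) - x (gt m (i * m + k)))).symm
  rw [h2]
  have h3 := Finset.sum_range_sub (fun k : ℕ => x (gt m (i * m + k))) m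
  simp only [add_zero, ← add_assoc] at h3
  rw [h3]
  congr 3
  ring

lemma gt_mul {m : ℕ} (hm : 1 ≤ m) (i : ℕ) : gt m (i * m) = i := by
  unfold gt
  have : (m : ℝ≥0) ≠ 0 := by positivity
  push_cast
  field_simp

lemma gt_zero (m : ℕ) : gt m 0 = 0 := by simp [gt]

lemma sum_del_blk (m : ℕ) (x : ℝ≥0 → Fin d → ℤ) (i : ℕ) :
    ∑ k ∈ Finset.range i, del (blk m x k) = x (gt m (i * m)) - x 0 := by
  simp only [del_blk]
  rw [Finset.sum_range_sub (fun k : ℕ => x (gt m (k * m)))]
  simp [gt_zero]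

lemma pos_blk (m : ℕ) (x : ℝ≥0 → Fin d → ℤ) (i : ℕ) (l : Fin m) :
    pos (blk m x) i l = x (tm m i l) - x 0 := by
  unfold pos
  rw [sum_del_blk, ipos_blk]
  abel

lemma measurable_blk (m : ℕ) : Measurable fun x : ℝ≥0 → Fin d → ℤ => blk m x := by
  refine measurable_pi_lambda _ fun i => measurable_pi_lambda _ fun l => ?_
  exact (measurable_pi_apply _).sub (measurable_pi_apply _)

/-- regrouping a sequence in blocks -/
def grp (m : ℕ) (f : ℕ → Fin d → ℤ) (i : ℕ) (l : Fin m) : Fin d → ℤ := f (i * m + l)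

lemma map_grp {m : ℕ} (hm : 1 ≤ m) (lam : Measure (Fin d → ℤ)) [IsProbabilityMeasure lam] :
    (Measure.infinitePi fun _ : ℕ => lam).map (grp m) =
      Measure.infinitePi fun _ : ℕ => Measure.infinitePi fun _ : Fin m => lam := by
  have : NeZero m := ⟨by omega⟩
  have h1 := Measure.infinitePi_map_curry (fun (_ : ℕ) (_ : Fin m) => lam)
  have h2 := Measure.infinitePi_map_piCongrLeft (μ := fun _ : ℕ × Fin m => lam)
    (Nat.divModEquiv m)
  rw [← h1, ← h2, Measure.map_map (by fun_prop) (by fun_prop)]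
  congr 1
  funext f i l
  unfold grp
  simp only [Function.comp_apply]
  have h3 : (MeasurableEquiv.curry ℕ (Fin m) (Fin d → ℤ))
      ((MeasurableEquiv.piCongrLeft (fun _ => Fin d → ℤ) (Nat.divModEquiv m)) f) i l =
      (MeasurableEquiv.piCongrLeft (fun _ => Fin d → ℤ) (Nat.divModEquiv m)) f (i, l) := rfl
  rw [h3]
  have h4 := Equiv.piCongrLeft_apply_apply (fun _ : ℕ × Fin m => Fin d → ℤ) (Nat.divModEquiv m) f
    (i * m + l)
  have h5 : (Nat.divModEquiv m) (i * m + l) = (i, l) := by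
    rw [← Equiv.eq_symm_apply]; rfl
  rw [h5] at h4
  exact h4.symm

variable {Ω : Type*} [MeasurableSpace Ω] {P : Measure Ω} [IsProbabilityMeasure P]
  {κ : ℝ≥0} {x₀ : Fin d → ℤ} {X : ℝ≥0 → Ω → (Fin d → ℤ)}

/-- law of one block -/
noncomputable def muB (d : ℕ) [NeZero d] (m : ℕ) (κ : ℝ≥0) : Measure (Fin m → Fin d → ℤ) :=
  Measure.infinitePi fun _ : Fin m => ctLaw d κ (gt m 1)

instance [NeZero d] (m : ℕ) (κ : ℝ≥0) : IsProbabilityMeasure (muB d m κ) := by
  unfold muB; infer_instance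

omit [IsProbabilityMeasure P] in
lemma IsCTSRW.map_fine (hX : IsCTSRW P d κ x₀ X) (m : ℕ) :
    P.map (fun ω (k : ℕ) => X (gt m (k + 1)) ω - X (gt m k) ω) =
      Measure.infinitePi fun _ : ℕ => ctLaw d κ (gt m 1) := by
  have h1 := hX.indep.nat (gt_mono m)
  have hm : ∀ k : ℕ, Measurable fun ω => X (gt m (k + 1)) ω - X (gt m k) ω := fun k =>
    (hX.measurable _).sub (hX.measurable _)
  have h2 := h1.map_fun_eq_infinitePi_map hm
  rw [h2]
  congr 1
  funext k
  have h3 := hX.law_sub (gt_mono m (Nat.le_succ k))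
  have h4 : gt m (k + 1) - gt m k = gt m 1 := by
    unfold gt
    push_cast
    rw [← NNReal.sub_div]
    congr 1
    rw [add_tsub_cancel_left]
  rw [← h4]
  exact h3

omit [IsProbabilityMeasure P] in
/-- **the blocks of the walk are independent and identically distributed** -/
lemma IsCTSRW.map_blk [NeZero d] (hX : IsCTSRW P d κ x₀ X) {m : ℕ} (hm : 1 ≤ m) :
    P.map (fun ω => blk m (fun t => X t ω)) = PP (muB d m κ) := by
  have h1 := hX.map_fine m
  have h2 : (fun ω => blk m (fun t => X t ω)) =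
      grp m ∘ (fun ω (k : ℕ) => X (gt m (k + 1)) ω - X (gt m k) ω) := by
    funext ω i l
    rfl
  have hmg : Measurable (grp m : (ℕ → Fin d → ℤ) → ℕ → Fin m → Fin d → ℤ) := by
    refine measurable_pi_lambda _ fun i => measurable_pi_lambda _ fun l => ?_
    exact measurable_pi_apply _
  have hmf : Measurable (fun ω (k : ℕ) => X (gt m (k + 1)) ω - X (gt m k) ω) :=
    measurable_pi_lambda _ fun k => (hX.measurable _).sub (hX.measurable _)
  rw [h2, ← Measure.map_map hmg hmf, h1]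
  have : IsProbabilityMeasure (ctLaw d κ (gt m 1)) := inferInstance
  rw [map_grp hm]
  rfl

lemma measurable_blkX (hX : ∀ t, Measurable (X t)) (m : ℕ) :
    Measurable fun ω => blk m (fun t => X t ω) := by
  refine measurable_pi_lambda _ fun i => measurable_pi_lambda _ fun l => ?_
  exact (hX _).sub (hX _)

end Pool.Agent.Helper83.MobileTraps
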