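import Pool.Agent.Helper83.MobileTraps.Grid1

open MeasureTheory ProbabilityTheory Filter
open scoped ENNReal NNReal Topology Real

namespace Pool.Agent.Helper83.MobileTraps

open Pool.Agent.Helper83.Traps

set_option linter.unusedSectionVars false

variable {d : ℕ} {Ω : Type*} [MeasurableSpace Ω] {P : Measure Ω} [IsProbabilityMeasure P]
  {κ : ℝ≥0} {x₀ : Fin d → ℤ} {X : ℝ≥0 → Ω → (Fin d → ℤ)}

lemma neg_muB [NeZero d] (m : ℕ) : (muB d m κ).map (fun e => -e) = muB d m κ := by
  unfold muB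
  have h := Measure.infinitePi_map_pi (μ := fun _ : Fin m => ctLaw d κ (gt m 1))
    (f := fun _ x => -x) (fun _ => measurable_neg)
  have e : (fun e : Fin m → Fin d → ℤ => -e) = fun x i => -(x i) := rfl
  rw [e, h]
  congr 1
  funext i
  exact map_neg_ctLaw κ _

lemma neg_PPmuB [NeZero d] (m : ℕ) : (PP (muB d m κ)).map (fun b => -b) = PP (muB d m κ) := by
  have h := Measure.infinitePi_map_pi (μ := fun _ : ℕ => muB d m κ)
    (f := fun _ x => -x) (fun _ => measurable_neg)
  have e : (fun b : ℕ → Fin m → Fin d → ℤ => -b) = fun x i => -(x i) := rfl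
  unfold PP
  rw [e, h]
  congr 1
  funext i
  exact neg_muB m

lemma IsCTSRW.lintegral_nsq_sub [NeZero d] (hX : IsCTSRW P d κ x₀ X) {s t : ℝ≥0} (h : s ≤ t) :
    ∫⁻ ω, (nsq (X t ω - X s ω) : ℝ≥0∞) ∂P = (κ * (t - s) : ℝ≥0) := by
  rw [← lintegral_nsq_ctLaw (d := d), ← hX.law_sub h]
  have hm : Measurable fun ω => X t ω - X s ω := (hX.measurable t).sub (hX.measurable s)
  rw [lintegral_map Measurable.of_discrete hm]

/-- transfer of a one-block integral to the process -/
lemma IsCTSRW.lintegral_block [NeZero d] (hX : IsCTSRW P d κ x₀ X) {m : ℕ} (hm : 1 ≤ m)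
    {f : (Fin m → Fin d → ℤ) → ℝ≥0∞} (hf : Measurable f) :
    ∫⁻ e, f e ∂muB d m κ = ∫⁻ ω, f (blk m (fun t => X t ω) 0) ∂P := by
  have h1 := measurePreserving_eval_infinitePi (fun _ : ℕ => muB d m κ) 0
  have h2 := h1.lintegral_comp hf
  rw [← h2]
  have h3 : (fun b : ℕ → Fin m → Fin d → ℤ => f (b 0)) = fun b => f (Function.eval 0 b) := rfl
  have hmf : Measurable fun b : ℕ → Fin m → Fin d → ℤ => f (b 0) := hf.comp (measurable_pi_apply 0)
  have h4 : ∫⁻ b, f (b 0) ∂(P.map (fun ω => blk m (fun t => X t ω))) =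
      ∫⁻ ω, f (blk m (fun t => X t ω) 0) ∂P :=
    lintegral_map hmf (measurable_blkX hX.measurable m)
  rw [hX.map_blk hm] at h4
  exact h4

lemma gt_le_one {m : ℕ} (hm : 1 ≤ m) (l : Fin m) : gt m (l + 1) ≤ 1 := by
  unfold gt
  rw [div_le_one (by positivity)]
  exact_mod_cast l.2

/-- law of the sum of block displacements -/
lemma IsCTSRW.map_sum_del [NeZero d] (hX : IsCTSRW P d κ x₀ X) {m : ℕ} (hm : 1 ≤ m)
    (A : Finset ℕ) :
    (PP (muB d m κ)).map (fun b => ∑ k ∈ A, del (b k)) = ctLaw d κ A.card := by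
  classical
  have hind : iIndepFun (fun (i : ℕ) (b : ℕ → Fin m → Fin d → ℤ) => del (b i)) (PP (muB d m κ)) :=
    (iIndepFun_infinitePi (P := fun _ : ℕ => muB d m κ) (X := fun _ b => del b)
      (fun _ => measurable_del))
  have hmeas : ∀ i : ℕ, Measurable fun b : ℕ → Fin m → Fin d → ℤ => del (b i) := fun i =>
    measurable_del.comp (measurable_pi_apply i)
  have hdel : ∀ i : ℕ, (PP (muB d m κ)).map (fun b => del (b i)) = ctLaw d κ 1 := by
    intro i
    have h1 := (measurePreserving_eval_infinitePi (fun _ : ℕ => muB d m κ) i).map_eq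
    have h2 : (fun b : ℕ → Fin m → Fin d → ℤ => del (b i)) = del ∘ (Function.eval i) := rfl
    rw [h2, ← Measure.map_map measurable_del (measurable_pi_apply i)]
    unfold PP at *
    rw [h1]
    have h3 := hX.map_blk hm
    have h4 : muB d m κ = (PP (muB d m κ)).map (Function.eval 0) :=
      ((measurePreserving_eval_infinitePi (fun _ : ℕ => muB d m κ) 0).map_eq).symm
    rw [h4, ← h3, Measure.map_map (measurable_pi_apply 0) (measurable_blkX hX.measurable m),
      Measure.map_map measurable_del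
        ((measurable_pi_apply 0).comp (measurable_blkX hX.measurable m))]
    have h5 : (del ∘ (Function.eval 0 ∘ fun ω => blk m (fun t => X t ω))) =
        fun ω => X 1 ω - X 0 ω := by
      funext ω
      simp only [Function.comp_apply, Function.eval, del_blk]
      rw [gt_mul hm, gt_mul hm]
      simp
    rw [h5]
    have h6 := hX.law_sub (zero_le (a := (1 : ℝ≥0)))
    rw [tsub_zero] at h6
    exact h6
  induction A using Finset.induction_on with
  | empty =>
    simp only [Finset.sum_empty, Finset.card_empty, Nat.cast_zero]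
    rw [hX.ctLaw_zero, Measure.map_const]
    simp
  | insert a A ha ih =>
    have h1 := hind.indepFun_finsetSum_of_notMem hmeas ha
    have hms : Measurable (∑ j ∈ A, fun b : ℕ → Fin m → Fin d → ℤ => del (b j)) := by
      have e : (∑ j ∈ A, fun b : ℕ → Fin m → Fin d → ℤ => del (b j)) =
        fun b : ℕ → Fin m → Fin d → ℤ => ∑ k ∈ A, del (b k) := by
        funext b; rw [Finset.sum_apply]
      rw [e]
      exact Finset.measurable_fun_sum _ fun j _ => hmeas j
    have h2 := h1.map_add_eq_map_conv_map hms (hmeas a)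
    have h3 : (fun b : ℕ → Fin m → Fin d → ℤ => ∑ k ∈ insert a A, del (b k)) =
        (∑ j ∈ A, fun b : ℕ → Fin m → Fin d → ℤ => del (b j)) +
          fun b : ℕ → Fin m → Fin d → ℤ => del (b a) := by
      funext b
      rw [Finset.sum_insert ha, Pi.add_apply, Finset.sum_apply, add_comm]
    have h4 : (∑ j ∈ A, fun b : ℕ → Fin m → Fin d → ℤ => del (b j)) =
        fun b : ℕ → Fin m → Fin d → ℤ => ∑ k ∈ A, del (b k) := by
      funext b; rw [Finset.sum_apply]
    rw [h3, h2, hdel a, h4, ih, hX.ctLaw_add, Finset.card_insert_of_notMem ha]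
    push_cast
    rfl

/-- the walk satisfies the hypotheses of the discretised model -/
lemma IsCTSRW.walkLaw [NeZero d] (hX : IsCTSRW P d κ x₀ X) {C : ℝ} (hC : 1 ≤ C)
    (h : ∀ (t : ℝ≥0) (z : Fin d → ℤ),
      ctLaw d κ t {z} ≤ ENNReal.ofReal (C * (1 + (t : ℝ)) ^ (-(5 / 2) : ℝ)))
    {m : ℕ} (hm : 1 ≤ m) : WalkLaw (muB d m κ) (κ : ℝ≥0∞) C where
  symm := neg_muB m
  mom1 l := by
    rw [hX.lintegral_block hm (meas_nsq' (measurable_ipos l))]
    have h0 : gt m (0 * m) = 0 := by simp [gt_zero]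
    simp only [ipos_blk, h0]
    have h1 := hX.lintegral_nsq_sub (zero_le (a := tm m 0 l))
    rw [h1, tsub_zero]
    have h2 : tm m 0 l ≤ 1 := by
      have := gt_le_one hm l
      unfold tm
      simpa using this
    have h3 : κ * tm m 0 l ≤ κ := mul_le_of_le_one_right (zero_le) h2
    exact_mod_cast h3
  mom2 l := by
    have hmd : Measurable fun e : Fin m → Fin d → ℤ => del e - ipos e l :=
      measurable_del.sub (measurable_ipos l)
    rw [hX.lintegral_block hm (meas_nsq' hmd)]
    have h0 : gt m (0 * m) = 0 := by simp [gt_zero]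
    have h1' : gt m ((0 + 1) * m) = 1 := by
      have := gt_mul hm 1
      simpa using this
    have h2 : tm m 0 l ≤ 1 := by
      have := gt_le_one hm l
      unfold tm
      simpa using this
    have e : ∀ ω, del (blk m (fun t => X t ω) 0) - ipos (blk m (fun t => X t ω) 0) l =
        X 1 ω - X (tm m 0 l) ω := by
      intro ω
      rw [ipos_blk, del_blk, h0, h1']
      abel
    simp only [e]
    rw [hX.lintegral_nsq_sub h2]
    have h3 : κ * (1 - tm m 0 l) ≤ κ := mul_le_of_le_one_right (zero_le) tsub_le_self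
    exact_mod_cast h3
  mom3 := by
    rw [hX.lintegral_block hm (meas_nsq' measurable_del)]
    have h0 : gt m (0 * m) = 0 := by simp [gt_zero]
    have h1' : gt m ((0 + 1) * m) = 1 := by
      have := gt_mul hm 1
      simpa using this
    simp only [del_blk, h0, h1']
    rw [hX.lintegral_nsq_sub (zero_le (a := (1 : ℝ≥0))), tsub_zero, mul_one]
  nonneg := by linarith
  loc A z := by
    have h1 := hX.map_sum_del hm A
    have hm1 : Measurable fun b : ℕ → Fin m → Fin d → ℤ => ∑ k ∈ A, del (b k) :=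
      Finset.measurable_fun_sum _ fun k _ => measurable_del.comp (measurable_pi_apply k)
    have h2 : (PP (muB d m κ)) {b | ∑ k ∈ A, del (b k) = z} = ctLaw d κ A.card {z} := by
      rw [← h1, Measure.map_apply hm1 (measurableSet_singleton z)]
      rfl
    rw [h2]
    refine (h _ z).trans (le_of_eq ?_)
    congr 2
    push_cast
    rw [add_comm]

/-- displacement of the trap between two fine times -/
lemma IsCTSRW.pr_eq [NeZero d] (hX : IsCTSRW P d κ x₀ X) {m : ℕ} (hm : 1 ≤ m) (a c : ℕ)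
    (l l' : Fin m) (z : Fin d → ℤ) :
    (PP (muB d m κ)) {b | pos b c l' - pos b a l = z} =
      P {ω | X (tm m c l') ω - X (tm m a l) ω = z} := by
  rw [← hX.map_blk hm, Measure.map_apply (measurable_blkX hX.measurable m)
    (measurableSet_pos c a l' l z)]
  congr 1
  ext ω
  simp only [Set.mem_preimage]
  show pos (blk m fun t => X t ω) c l' - pos (blk m fun t => X t ω) a l = z ↔
    X (tm m c l') ω - X (tm m a l) ω = z
  rw [pos_blk, pos_blk]
  have : X (tm m c l') ω - X 0 ω - (X (tm m a l) ω - X 0 ω) = X (tm m c l') ω - X (tm m a l) ω := by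
    abel
  rw [this]

lemma IsCTSRW.prob_sub (hX : IsCTSRW P d κ x₀ X) {s t : ℝ≥0} (h : s ≤ t) (z : Fin d → ℤ) :
    P {ω | X t ω - X s ω = z} = ctLaw d κ (t - s) {z} := by
  have hm : Measurable fun ω => X t ω - X s ω := (hX.measurable t).sub (hX.measurable s)
  rw [← hX.law_sub h, Measure.map_apply hm (measurableSet_singleton z)]
  rfl

lemma tm_sub_ge {m : ℕ} (hm : 1 ≤ m) {a c : ℕ} (hac : a < c) (l l' : Fin m) :
    tm m a l ≤ tm m c l' ∧ ((c - a : ℕ) : ℝ) ≤ 1 + ((tm m c l' - tm m a l : ℝ≥0) : ℝ) := by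
  have hl := l.2
  have hle : a * m + l + 1 ≤ c * m + l' + 1 := by
    have : (a + 1) * m ≤ c * m := Nat.mul_le_mul_right m hac
    nlinarith
  have h1 : tm m a l ≤ tm m c l' := gt_mono m hle
  refine ⟨h1, ?_⟩
  rw [NNReal.coe_sub h1]
  unfold tm gt
  have hm0 : (0 : ℝ) < m := by exact_mod_cast hm
  rw [Nat.cast_sub hac.le]
  push_cast
  rw [div_sub_div_same, ← sub_le_iff_le_add', le_div_iff₀ hm0]
  have h2 : (l : ℝ) ≤ m := by exact_mod_cast hl.le
  have h3 : (0 : ℝ) ≤ (l' : ℕ) := Nat.cast_nonneg _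
  nlinarith

lemma rpow_shift {s : ℕ} (hs : 1 ≤ s) {u : ℝ} (hu : (s : ℝ) ≤ 1 + u) {p q : ℝ} (hp : 0 ≤ p)
    (hq : (2 : ℝ) ^ p ≤ q) : (1 + u) ^ (-p) ≤ q * ((s : ℝ) + 1) ^ (-p) := by
  have hs1 : (1 : ℝ) ≤ s := by exact_mod_cast hs
  have h1 : ((s : ℝ) + 1) / 2 ≤ 1 + u := by linarith
  calc (1 + u) ^ (-p) ≤ (((s : ℝ) + 1) / 2) ^ (-p) :=
        Real.rpow_le_rpow_of_nonpos (by positivity) h1 (by linarith)
    _ = (2 : ℝ) ^ p * ((s : ℝ) + 1) ^ (-p) := by
        rw [Real.div_rpow (by positivity) (by norm_num), div_eq_mul_inv,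
            ← Real.rpow_neg (by norm_num) (-p), neg_neg, mul_comm]
    _ ≤ _ := mul_le_mul_of_nonneg_right hq (by positivity)

/-- a trap satisfies the hypotheses of the discretised model -/
lemma IsCTSRW.trapLaw [NeZero d] (hX : IsCTSRW P d κ x₀ X) {C : ℝ} (hC : 1 ≤ C)
    (h : ∀ (t : ℝ≥0) (z : Fin d → ℤ),
      ctLaw d κ t {z} ≤ ENNReal.ofReal (C * (1 + (t : ℝ)) ^ (-(5 / 2) : ℝ)))
    {m : ℕ} (hm : 1 ≤ m) : TrapLaw (PP (muB d m κ)) (6 * C) (36 * C * κ) where
  symm := neg_PPmuB m
  one_le := by linarith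
  nonneg2 := by positivity
  hk a c l l' z hac := by
    rcases eq_or_lt_of_le hac with he | hlt
    · subst he
      refine (prob_le_one (μ := PP (muB d m κ))).trans ?_
      rw [Nat.sub_self, Nat.cast_zero, zero_add, Real.one_rpow, mul_one, ← ENNReal.ofReal_one]
      exact ENNReal.ofReal_le_ofReal (by linarith)
    · obtain ⟨h1, h2⟩ := tm_sub_ge hm hlt l l'
      rw [hX.pr_eq hm, hX.prob_sub h1]
      refine (h _ z).trans (ENNReal.ofReal_le_ofReal ?_)
      have h3 := rpow_shift (s := c - a) (by omega) h2 (p := 5 / 2) (q := 6) (by norm_num) (by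
        rw [show (5 / 2 : ℝ) = (5 : ℕ) * (1 / 2 : ℝ) by norm_num, Real.rpow_mul (by norm_num),
          Real.rpow_natCast, ← Real.sqrt_eq_rpow, Real.sqrt_le_left (by norm_num)]
        norm_num)
      calc _ ≤ C * (6 * (((c - a : ℕ) : ℝ) + 1) ^ (-(5 / 2) : ℝ)) :=
            mul_le_mul_of_nonneg_left h3 (by linarith)
        _ = _ := by ring
  hk2 a c l l' z hac := by
    have h0 := fun t z => hX.nsq_ctLaw_le hC h t z
    have hbase : ∀ {s t : ℝ≥0}, s ≤ t → ∀ z, (nsq z : ℝ≥0∞) * P {ω | X t ω - X s ω = z} ≤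
        ENNReal.ofReal (36 * C * κ) := by
      intro s t hst z
      rw [hX.prob_sub hst]
      refine (h0 _ z).trans (ENNReal.ofReal_le_ofReal ?_)
      have : (1 + ((t - s : ℝ≥0) : ℝ)) ^ (-(3 / 2) : ℝ) ≤ 1 :=
        Real.rpow_le_one_of_one_le_of_nonpos (by
          have := (t - s).2
          simp only [NNReal.val_eq_coe] at this
          linarith) (by norm_num)
      have h4 : 0 ≤ (1 + ((t - s : ℝ≥0) : ℝ)) ^ (-(3 / 2) : ℝ) := by positivity
      have h5 : 0 ≤ C * κ := by positivity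
      nlinarith
    rcases eq_or_lt_of_le hac with he | hlt
    · subst he
      rw [hX.pr_eq hm, Nat.sub_self, Nat.cast_zero, zero_add, Real.one_rpow, mul_one]
      rcases le_total (tm m a l) (tm m a l') with hle | hle
      · exact hbase hle z
      · have h5 := hbase hle (-z)
        rw [nsq_neg] at h5
        refine le_trans (le_of_eq ?_) h5
        congr 2
        ext ω
        show X (tm m a l') ω - X (tm m a l) ω = z ↔ X (tm m a l) ω - X (tm m a l') ω = -z
        rw [← neg_inj, neg_sub]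
    · obtain ⟨h1, h2⟩ := tm_sub_ge hm hlt l l'
      rw [hX.pr_eq hm, hX.prob_sub h1]
      refine (h0 _ z).trans (ENNReal.ofReal_le_ofReal ?_)
      have h3 := rpow_shift (s := c - a) (by omega) h2 (p := 3 / 2) (q := 3) (by norm_num) (by
        rw [show (3 / 2 : ℝ) = (3 : ℕ) * (1 / 2 : ℝ) by norm_num, Real.rpow_mul (by norm_num),
          Real.rpow_natCast, ← Real.sqrt_eq_rpow, Real.sqrt_le_left (by norm_num)]
        norm_num)
      calc _ ≤ 12 * C * κ * (3 * (((c - a : ℕ) : ℝ) + 1) ^ (-(3 / 2) : ℝ)) :=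
            mul_le_mul_of_nonneg_left h3 (by positivity)
        _ = _ := by ring

end Pool.Agent.Helper83.MobileTraps
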