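import Pool.Agent.Helper83.MobileTraps.Defs
import Pool.Agent.Helper83.Traps.Core4

open MeasureTheory ProbabilityTheory Filter
open scoped ENNReal NNReal Topology

namespace Pool.Agent.Helper83.MobileTraps

open Pool.Agent.Helper83.Traps

variable {d : ℕ}

lemma lintegral_stepLaw (f : (Fin d → ℤ) → ℝ≥0∞) :
    ∫⁻ x, f x ∂stepLaw d = (2 * (d : ℝ≥0∞))⁻¹ *
      ∑ i : Fin d, (f (Pi.single i 1) + f (Pi.single i (-1))) := by
  unfold stepLaw
  rw [lintegral_smul_measure, lintegral_finsetSum_measure, smul_eq_mul]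
  congr 1
  refine Finset.sum_congr rfl fun i _ => ?_
  rw [lintegral_add_measure, lintegral_dirac, lintegral_dirac]

instance [NeZero d] : IsProbabilityMeasure (stepLaw d) := by
  constructor
  have h := lintegral_stepLaw (d := d) (fun _ => 1)
  rw [lintegral_one] at h
  rw [h]
  simp only [Finset.sum_const, Finset.card_univ, Fintype.card_fin, nsmul_eq_mul]
  have hd : (d : ℝ≥0∞) ≠ 0 := by simp [NeZero.ne d]
  rw [show (d : ℝ≥0∞) * (1 + 1) = 2 * d by ring]
  exact ENNReal.inv_mul_cancel (by simp [NeZero.ne d]) (ENNReal.mul_ne_top (by simp) (by simp))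

instance [NeZero d] (n : ℕ) : IsProbabilityMeasure (srwLaw d n) := by
  induction n with
  | zero => unfold srwLaw; infer_instance
  | succ n ih => unfold srwLaw; infer_instance

lemma lintegral_ctLaw (κ t : ℝ≥0) (f : (Fin d → ℤ) → ℝ≥0∞) :
    ∫⁻ x, f x ∂ctLaw d κ t = ∑' n, poissonMeasure (κ * t) {n} * ∫⁻ x, f x ∂srwLaw d n := by
  unfold ctLaw
  rw [lintegral_sum_measure]
  refine tsum_congr fun n => ?_
  rw [lintegral_smul_measure, smul_eq_mul]

instance [NeZero d] (κ t : ℝ≥0) : IsProbabilityMeasure (ctLaw d κ t) := by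
  constructor
  have h := lintegral_ctLaw (d := d) κ t (fun _ => 1)
  rw [lintegral_one] at h
  rw [h]
  simp only [lintegral_one, measure_univ, mul_one]
  have h1 := (measure_univ (μ := poissonMeasure (κ * t)))
  rw [← h1]
  have h2 := lintegral_countable' (μ := poissonMeasure (κ * t)) (fun _ => 1)
  rw [lintegral_one] at h2
  rw [h2]
  simp

lemma map_neg_stepLaw : (stepLaw d).map (fun x => -x) = stepLaw d := by
  have h : ∀ s : Set (Fin d → ℤ), (stepLaw d).map (fun x => -x) s = stepLaw d s := by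
    intro s
    have hs : MeasurableSet s := MeasurableSet.of_discrete
    rw [Measure.map_apply measurable_neg hs, ← lintegral_indicator_one hs,
      ← lintegral_indicator_one (measurable_neg hs), lintegral_stepLaw, lintegral_stepLaw]
    congr 1
    refine Finset.sum_congr rfl fun i _ => ?_
    have key : ∀ x : Fin d → ℤ, ((fun x => -x) ⁻¹' s).indicator (1 : (Fin d → ℤ) → ℝ≥0∞) x =
        s.indicator 1 (-x) := fun x => rfl
    have e1 : -(Pi.single i (-1) : Fin d → ℤ) = Pi.single i 1 := by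
      rw [← Pi.single_neg]; simp
    have e2 : -(Pi.single i 1 : Fin d → ℤ) = Pi.single i (-1) := by
      rw [← Pi.single_neg]
    rw [key, key, e1, e2, add_comm]
  exact Measure.ext fun s _ => h s

lemma map_neg_conv {μ ν : Measure (Fin d → ℤ)} [SFinite μ] [SFinite ν] :
    (Measure.conv μ ν).map (fun x => -x) = Measure.conv (μ.map fun x => -x) (ν.map fun x => -x) := by
  unfold Measure.conv
  rw [Measure.map_prod_map _ _ measurable_neg measurable_neg, Measure.map_map measurable_neg
    measurable_add, Measure.map_map measurable_add (measurable_neg.prodMap measurable_neg)]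
  congr 1
  funext p
  simp only [Function.comp_apply, Prod.map]
  abel

lemma map_neg_srwLaw [NeZero d] (n : ℕ) : (srwLaw d n).map (fun x => -x) = srwLaw d n := by
  induction n with
  | zero =>
    unfold srwLaw
    rw [Measure.map_dirac' measurable_neg]; simp
  | succ n ih =>
    unfold srwLaw
    rw [map_neg_conv, ih, map_neg_stepLaw]

lemma map_neg_ctLaw [NeZero d] (κ t : ℝ≥0) : (ctLaw d κ t).map (fun x => -x) = ctLaw d κ t := by
  refine Measure.ext fun s hs => ?_
  rw [Measure.map_apply measurable_neg hs, ← lintegral_indicator_one hs,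
      ← lintegral_indicator_one (measurable_neg hs), lintegral_ctLaw, lintegral_ctLaw]
  refine tsum_congr fun n => ?_
  congr 1
  nth_rewrite 2 [← map_neg_srwLaw n]
  rw [lintegral_map (measurable_one.indicator hs) measurable_neg]
  rfl

lemma ctLaw_neg_singleton [NeZero d] (κ t : ℝ≥0) (z : Fin d → ℤ) :
    ctLaw d κ t {-z} = ctLaw d κ t {z} := by
  nth_rewrite 2 [← map_neg_ctLaw κ t]
  rw [Measure.map_apply measurable_neg MeasurableSet.of_discrete]
  congr 1
  ext x
  simp only [Set.mem_singleton_iff, Set.mem_preimage]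
  exact ⟨fun h => by rw [h, neg_neg], fun h => by rw [← h, neg_neg]⟩

/-! second moments -/

lemma nsq_single (i : Fin d) (a : ℤ) : nsq (Pi.single i a : Fin d → ℤ) = a.natAbs ^ 2 := by
  unfold nsq
  rw [Finset.sum_eq_single i]
  · simp
  · intro j _ hj
    rw [Pi.single_eq_of_ne hj]; simp
  · simp

lemma lintegral_conv_eq {μ ν : Measure (Fin d → ℤ)} [SFinite μ] [SFinite ν]
    (f : (Fin d → ℤ) → ℝ≥0∞) :
    ∫⁻ x, f x ∂Measure.conv μ ν = ∫⁻ x, ∫⁻ y, f (x + y) ∂ν ∂μ :=
  Measure.lintegral_conv (Measurable.of_discrete)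

lemma lintegral_nsq_srwLaw [NeZero d] (n : ℕ) : ∫⁻ x, (nsq x : ℝ≥0∞) ∂srwLaw d n = n := by
  induction n with
  | zero => unfold srwLaw; rw [lintegral_dirac]; simp
  | succ n ih =>
    unfold srwLaw
    rw [lintegral_conv_eq]
    have h1 : ∀ x : Fin d → ℤ, ∫⁻ y, (nsq (x + y) : ℝ≥0∞) ∂stepLaw d = nsq x + 1 := by
      intro x
      rw [lintegral_stepLaw]
      have h2 : ∀ i : Fin d, (nsq (x + Pi.single i 1) : ℝ≥0∞) + (nsq (x + Pi.single i (-1)) : ℝ≥0∞)
          = 2 * (nsq x + 1) := by
        intro i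
        have h3 : (Pi.single i (-1) : Fin d → ℤ) = -Pi.single i 1 := by rw [← Pi.single_neg]
        have h4 := nsq_parallelogram x (Pi.single i 1)
        rw [nsq_single] at h4
        rw [h3, ← sub_eq_add_neg]
        have h5 : nsq (x + Pi.single i 1) + nsq (x - Pi.single i 1) = 2 * (nsq x + 1) := by
          rw [h4]; simp; ring
        exact_mod_cast h5
      simp only [h2, Finset.sum_const, Finset.card_univ, Fintype.card_fin, nsmul_eq_mul]
      rw [← mul_assoc (d : ℝ≥0∞) 2, mul_comm (d : ℝ≥0∞) 2, ← mul_assoc,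
        ENNReal.inv_mul_cancel (by simp [NeZero.ne d]) (ENNReal.mul_ne_top (by simp) (by simp)),
        one_mul]
    simp only [h1]
    rw [lintegral_add_left Measurable.of_discrete, ih]
    simp

lemma lintegral_nsq_ctLaw [NeZero d] (κ t : ℝ≥0) :
    ∫⁻ x, (nsq x : ℝ≥0∞) ∂ctLaw d κ t = (κ * t : ℝ≥0) := by
  rw [lintegral_ctLaw]
  simp only [lintegral_nsq_srwLaw, poissonMeasure_singleton]
  set r : ℝ≥0 := κ * t with hr
  rw [tsum_eq_zero_add' ENNReal.summable]
  have h1 : ∀ n : ℕ, ENNReal.ofReal (Real.exp (-r) * r ^ (n + 1) / (n + 1).factorial) *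
      ((n + 1 : ℕ) : ℝ≥0∞) = (r : ℝ≥0∞) * ENNReal.ofReal (Real.exp (-r) * r ^ n / n.factorial) := by
    intro n
    rw [← ENNReal.ofReal_natCast, ← ENNReal.ofReal_mul (by positivity), ← ENNReal.ofReal_coe_nnreal,
      ← ENNReal.ofReal_mul (by positivity)]
    congr 1
    rw [Nat.factorial_succ]
    push_cast
    field_simp
    ring
  simp only [h1, ENNReal.tsum_mul_left]
  have h2 : ∑' n : ℕ, ENNReal.ofReal (Real.exp (-r) * r ^ n / n.factorial) = 1 := by
    rw [← ENNReal.ofReal_tsum_of_nonneg (fun n => by positivity)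
      (hasSum_one_poissonMeasure r).summable, (hasSum_one_poissonMeasure r).tsum_eq]
    simp
  rw [h2]; simp

end Pool.Agent.Helper83.MobileTraps
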