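import Pool.Agent.Helper83.MobileTraps.HK1

open MeasureTheory ProbabilityTheory Filter
open scoped ENNReal NNReal Topology Real

namespace Pool.Agent.Helper83.MobileTraps

open Pool.Agent.Helper83.Traps

variable {d : ℕ}

/-- phase -/
noncomputable def ph (z : Fin d → ℤ) (θ : Fin d → ℝ) : ℝ := ∑ j, 2 * π * (z j) * θ j

lemma ph_add (x y : Fin d → ℤ) (θ : Fin d → ℝ) : ph (x + y) θ = ph x θ + ph y θ := by
  unfold ph
  rw [← Finset.sum_add_distrib]
  refine Finset.sum_congr rfl fun j _ => ?_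
  rw [Pi.add_apply]; push_cast; ring

lemma ph_neg (x : Fin d → ℤ) (θ : Fin d → ℝ) : ph (-x) θ = -ph x θ := by
  unfold ph
  rw [← Finset.sum_neg_distrib]
  refine Finset.sum_congr rfl fun j _ => ?_
  rw [Pi.neg_apply]; push_cast; ring

lemma ph_zero (θ : Fin d → ℝ) : ph (0 : Fin d → ℤ) θ = 0 := by simp [ph]

lemma ph_single (i : Fin d) (a : ℤ) (θ : Fin d → ℝ) : ph (Pi.single i a) θ = 2 * π * a * θ i := by
  unfold ph
  rw [Finset.sum_eq_single i]
  · simp
  · intro j _ hj; rw [Pi.single_eq_of_ne hj]; simp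
  · simp

lemma measurable_ph : Measurable fun p : (Fin d → ℤ) × (Fin d → ℝ) => ph p.1 p.2 := by
  unfold ph
  refine Finset.measurable_fun_sum _ fun j _ => ?_
  have h1 : Measurable fun p : (Fin d → ℤ) × (Fin d → ℝ) => ((p.1 j : ℤ) : ℝ) :=
    (Measurable.of_discrete (f := fun a : ℤ => (a : ℝ))).comp
      ((measurable_pi_apply j).comp measurable_fst)
  have h2 : Measurable fun p : (Fin d → ℤ) × (Fin d → ℝ) => p.2 j :=
    (measurable_pi_apply j).comp measurable_snd
  exact (h1.const_mul _).mul h2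

/-- real characteristic function -/
noncomputable def ch (μ : Measure (Fin d → ℤ)) (θ : Fin d → ℝ) : ℝ := ∫ x, Real.cos (ph x θ) ∂μ

lemma integrable_bdd {μ : Measure (Fin d → ℤ)} [IsFiniteMeasure μ] {f : (Fin d → ℤ) → ℝ} {C : ℝ}
    (h : ∀ x, |f x| ≤ C) : Integrable f μ :=
  Integrable.of_bound (Measurable.of_discrete).aestronglyMeasurable C (ae_of_all _ h)

lemma integral_conv_bdd {μ ν : Measure (Fin d → ℤ)} [IsFiniteMeasure μ] [IsFiniteMeasure ν]
    {f : (Fin d → ℤ) → ℝ} {C : ℝ} (h : ∀ x, |f x| ≤ C) :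
    ∫ x, f x ∂Measure.conv μ ν = ∫ x, ∫ y, f (x + y) ∂ν ∂μ := by
  unfold Measure.conv
  rw [integral_map measurable_add.aemeasurable (Measurable.of_discrete).aestronglyMeasurable]
  rw [integral_prod]
  exact Integrable.of_bound (Measurable.of_discrete).aestronglyMeasurable C
    (ae_of_all _ fun p => h _)

lemma integral_stepLaw [NeZero d] (f : (Fin d → ℤ) → ℝ) :
    ∫ x, f x ∂stepLaw d = (2 * (d : ℝ))⁻¹ *
      ∑ i : Fin d, (f (Pi.single i 1) + f (Pi.single i (-1))) := by
  unfold stepLaw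
  have hint : ∀ (μ : Measure (Fin d → ℤ)) (x : Fin d → ℤ), Integrable f (Measure.dirac x) :=
    fun _ x => integrable_dirac (by simp)
  rw [integral_smul_measure, integral_finsetSum_measure, smul_eq_mul, ENNReal.toReal_inv,
    ENNReal.toReal_mul]
  · congr 1
    refine Finset.sum_congr rfl fun i _ => ?_
    rw [integral_add_measure (hint 0 _) (hint 0 _), integral_dirac, integral_dirac]
  · intro i _
    exact (hint 0 _).add_measure (hint 0 _)

/-- characteristic function of one step -/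
noncomputable def phi (θ : Fin d → ℝ) : ℝ := (d : ℝ)⁻¹ * ∑ i : Fin d, Real.cos (2 * π * θ i)

lemma ch_srwLaw [NeZero d] (n : ℕ) (θ : Fin d → ℝ) : ch (srwLaw d n) θ = phi θ ^ n := by
  induction n with
  | zero =>
    unfold ch srwLaw
    rw [integral_dirac, ph_zero]; simp
  | succ n ih =>
    have h1 : ∀ x : Fin d → ℤ, ∫ y, Real.cos (ph (x + y) θ) ∂stepLaw d =
        Real.cos (ph x θ) * phi θ := by
      intro x
      rw [integral_stepLaw]
      have h2 : ∀ i : Fin d, Real.cos (ph (x + Pi.single i 1) θ) +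
          Real.cos (ph (x + Pi.single i (-1)) θ) = 2 * (Real.cos (ph x θ) * Real.cos (2 * π * θ i)) := by
        intro i
        rw [ph_add, ph_add, ph_single, ph_single]
        push_cast
        rw [show 2 * π * (-1) * θ i = -(2 * π * 1 * θ i) by ring, ← sub_eq_add_neg,
          Real.cos_add, Real.cos_sub, mul_one]
        ring
      simp only [h2]
      rw [← Finset.mul_sum, ← Finset.mul_sum]
      unfold phi
      have hd : (d : ℝ) ≠ 0 := by simp [NeZero.ne d]
      field_simp
    unfold ch srwLaw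
    rw [integral_conv_bdd (C := 1) (fun x => Real.abs_cos_le_one _)]
    simp only [h1]
    rw [integral_mul_const]
    unfold ch at ih
    rw [ih, pow_succ]

lemma ch_ctLaw [NeZero d] (κ t : ℝ≥0) (θ : Fin d → ℝ) :
    ch (ctLaw d κ t) θ = Real.exp (-((κ * t : ℝ≥0) * (1 - phi θ))) := by
  have hint : Integrable (fun x => Real.cos (ph x θ)) (ctLaw d κ t) :=
    integrable_bdd (C := 1) fun x => Real.abs_cos_le_one _
  unfold ch
  unfold ctLaw at hint ⊢
  rw [integral_sum_measure hint]
  simp only [integral_smul_measure]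
  have h1 : ∀ n, ∫ x, Real.cos (ph x θ) ∂srwLaw d n = phi θ ^ n := fun n => ch_srwLaw n θ
  simp only [h1, poissonMeasure_singleton]
  set r : ℝ≥0 := κ * t with hr
  have h2 : ∀ n : ℕ, (ENNReal.ofReal (Real.exp (-r) * r ^ n / n.factorial)).toReal • phi θ ^ n =
      Real.exp (-r) * ((r * phi θ) ^ n / n.factorial) := by
    intro n
    rw [ENNReal.toReal_ofReal (by positivity), smul_eq_mul, mul_pow]
    ring
  simp only [h2]
  rw [tsum_mul_left, (NormedSpace.expSeries_div_hasSum_exp ((r : ℝ) * phi θ)).tsum_eq,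
    ← Real.exp_eq_exp_ℝ, ← Real.exp_add]
  congr 1
  ring

/-! inversion -/

/-- the unit box -/
noncomputable def box (d : ℕ) : Measure (Fin d → ℝ) :=
  Measure.pi fun _ : Fin d => (volume : Measure ℝ).restrict (Set.Ioc (-(1 / 2)) (1 / 2))

instance : IsProbabilityMeasure ((volume : Measure ℝ).restrict (Set.Ioc (-(1 / 2)) (1 / 2))) := by
  constructor
  rw [Measure.restrict_apply MeasurableSet.univ, Set.univ_inter, Real.volume_Ioc]
  norm_num

instance : IsProbabilityMeasure (box d) := by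
  unfold box; infer_instance

lemma integral_1d (k : ℤ) :
    ∫ x in Set.Ioc (-(1 / 2) : ℝ) (1 / 2), Complex.exp (2 * π * Complex.I * k * x) =
      if k = 0 then 1 else 0 := by
  rw [← intervalIntegral.integral_of_le (by norm_num)]
  split_ifs with h
  · subst h; simp; norm_num
  · have hc : (2 * π * Complex.I * k : ℂ) ≠ 0 := by
      simp [Real.pi_ne_zero, h]
    rw [integral_exp_mul_complex hc]
    have h1 : Complex.exp (2 * π * Complex.I * k * ((1 / 2 : ℝ) : ℂ)) =
        Complex.exp (2 * π * Complex.I * k * ((-(1 / 2) : ℝ) : ℂ)) := by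
      rw [Complex.exp_eq_exp_iff_exists_int]
      refine ⟨k, ?_⟩
      push_cast
      ring
    rw [h1, sub_self, zero_div]

lemma integral_exp_box (z : Fin d → ℤ) :
    ∫ θ, Complex.exp (Complex.I * ph z θ) ∂box d = if z = 0 then 1 else 0 := by
  have h1 : ∀ θ : Fin d → ℝ, Complex.exp (Complex.I * ph z θ) =
      ∏ j, Complex.exp (2 * π * Complex.I * (z j) * (θ j)) := by
    intro θ
    rw [← Complex.exp_sum]
    congr 1
    unfold ph
    push_cast
    rw [Finset.mul_sum]
    refine Finset.sum_congr rfl fun j _ => ?_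
    ring
  simp only [h1]
  unfold box
  rw [integral_fintype_prod_eq_prod (𝕜 := ℂ)
    (f := fun (j : Fin d) (x : ℝ) => Complex.exp (2 * π * Complex.I * (z j) * x))]
  simp only [integral_1d]
  split_ifs with h
  · subst h; simp
  · obtain ⟨j, hj⟩ := Function.ne_iff.1 h
    have hj' : z j ≠ 0 := hj
    apply Finset.prod_eq_zero (Finset.mem_univ j)
    rw [if_neg hj']

lemma continuous_ph (z : Fin d → ℤ) : Continuous fun θ : Fin d → ℝ => ph z θ := by
  unfold ph; fun_prop

lemma integral_cos_box (z : Fin d → ℤ) :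
    ∫ θ, Real.cos (ph z θ) ∂box d = if z = 0 then 1 else 0 := by
  have hint : Integrable (fun θ => Complex.exp (Complex.I * ph z θ)) (box d) := by
    refine Integrable.of_bound (C := 1) ?_ (ae_of_all _ fun θ => ?_)
    · have : Continuous fun θ : Fin d → ℝ => Complex.exp (Complex.I * ph z θ) := by
        have := continuous_ph z
        fun_prop
      exact this.aestronglyMeasurable
    · rw [mul_comm, Complex.norm_exp_ofReal_mul_I]
  have h1 : ∀ θ : Fin d → ℝ, Real.cos (ph z θ) = (Complex.exp (Complex.I * ph z θ)).re := by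
    intro θ
    rw [mul_comm, Complex.exp_ofReal_mul_I_re]
  simp only [h1]
  have h2 := integral_re hint
  simp only [RCLike.re_eq_complex_re] at h2
  rw [h2, integral_exp_box]
  split_ifs <;> simp

/-- Fourier inversion for a symmetric law -/
lemma inversion {μ : Measure (Fin d → ℤ)} [IsProbabilityMeasure μ] (hμ : ∀ z, μ {-z} = μ {z})
    (z : Fin d → ℤ) : (μ {z}).toReal = ∫ θ, Real.cos (ph z θ) * ch μ θ ∂box d := by
  have h1 : ∫ θ, Real.cos (ph z θ) * ch μ θ ∂box d =
      ∫ θ, ∫ w, Real.cos (ph z θ) * Real.cos (ph w θ) ∂μ ∂box d := by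
    refine integral_congr_ae (ae_of_all _ fun θ => ?_)
    simp only
    rw [integral_const_mul]; rfl
  have hc : ∀ w : Fin d → ℤ, Measurable fun θ : Fin d → ℝ => Real.cos (ph z θ) * Real.cos (ph w θ) :=
    fun w => ((Real.continuous_cos.comp (continuous_ph z)).mul
      (Real.continuous_cos.comp (continuous_ph w))).measurable
  have hm : Measurable fun p : (Fin d → ℝ) × (Fin d → ℤ) =>
      Real.cos (ph z p.1) * Real.cos (ph p.2 p.1) := measurable_from_prod_countable_left hc
  have hint : Integrable (fun p : (Fin d → ℝ) × (Fin d → ℤ) =>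
      Real.cos (ph z p.1) * Real.cos (ph p.2 p.1)) ((box d).prod μ) := by
    refine Integrable.of_bound hm.aestronglyMeasurable 1 (ae_of_all _ fun p => ?_)
    rw [norm_mul]
    have e1 := Real.abs_cos_le_one (ph z p.1)
    have e2 := Real.abs_cos_le_one (ph p.2 p.1)
    have e3 := abs_nonneg (Real.cos (ph z p.1))
    rw [Real.norm_eq_abs, Real.norm_eq_abs]
    nlinarith [abs_nonneg (Real.cos (ph p.2 p.1))]
  rw [h1, integral_integral_swap hint]
  have h2 : ∀ w : Fin d → ℤ, ∫ θ, Real.cos (ph z θ) * Real.cos (ph w θ) ∂box d =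
      (1 / 2) * ((if w = z then 1 else 0) + if w = -z then 1 else 0) := by
    intro w
    have e1 : ∀ θ : Fin d → ℝ, Real.cos (ph z θ) * Real.cos (ph w θ) =
        (1 / 2) * (Real.cos (ph (w - z) θ) + Real.cos (ph (w + z) θ)) := by
      intro θ
      rw [sub_eq_add_neg, ph_add, ph_add, ph_neg, Real.cos_add, Real.cos_add, Real.cos_neg,
        Real.sin_neg]
      ring
    have hi : ∀ v : Fin d → ℤ, Integrable (fun θ => Real.cos (ph v θ)) (box d) := fun v =>
      Integrable.of_bound (Real.continuous_cos.comp (continuous_ph v)).aestronglyMeasurable 1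
        (ae_of_all _ fun θ => by rw [Real.norm_eq_abs]; exact Real.abs_cos_le_one _)
    simp only [e1]
    rw [integral_const_mul, integral_add (hi _) (hi _), integral_cos_box, integral_cos_box]
    simp only [sub_eq_zero, add_eq_zero_iff_eq_neg]
  simp only [h2]
  have h3 : ∀ v : Fin d → ℤ, ∫ w, (if w = v then (1 : ℝ) else 0) ∂μ = (μ {v}).toReal := by
    intro v
    have : (fun w => if w = v then (1 : ℝ) else 0) = Set.indicator {v} 1 := by
      funext w
      rw [Set.indicator_apply]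
      simp
    rw [this, integral_indicator_one (measurableSet_singleton v)]
    rfl
  have hi2 : ∀ v : Fin d → ℤ, Integrable (fun w => if w = v then (1 : ℝ) else 0) μ := fun v =>
    integrable_bdd (C := 1) fun w => by split_ifs <;> simp
  rw [integral_const_mul, integral_add (hi2 _) (hi2 _), h3, h3, hμ]
  ring

lemma measurable_phi : Measurable (phi : (Fin d → ℝ) → ℝ) := by
  unfold phi; fun_prop

lemma phi_le_one [NeZero d] (θ : Fin d → ℝ) : phi θ ≤ 1 := by
  unfold phi
  have hd : (0 : ℝ) < d := Nat.cast_pos.2 (Nat.pos_of_ne_zero (NeZero.ne d))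
  have h : ∑ i : Fin d, Real.cos (2 * π * θ i) ≤ ∑ _i : Fin d, (1 : ℝ) :=
    Finset.sum_le_sum fun i _ => Real.cos_le_one _
  rw [Finset.sum_const, Finset.card_univ, Fintype.card_fin, nsmul_eq_mul, mul_one] at h
  rw [inv_mul_le_iff₀ hd, mul_one]
  exact h

/-- the one-dimensional integral -/
noncomputable def I1 (s : ℝ) : ℝ :=
  ∫ x in Set.Ioc (-(1 / 2) : ℝ) (1 / 2), Real.exp (-(s * (1 - Real.cos (2 * π * x))))

lemma ctLaw_le_I1 [NeZero d] (κ t : ℝ≥0) (z : Fin d → ℤ) :
    (ctLaw d κ t {z}).toReal ≤ I1 ((κ * t : ℝ≥0) / d) ^ d := by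
  rw [inversion (fun z => ctLaw_neg_singleton κ t z)]
  set r : ℝ≥0 := κ * t with hr
  have hd : (d : ℝ) ≠ 0 := by simp [NeZero.ne d]
  have h1 : ∫ θ, Real.cos (ph z θ) * ch (ctLaw d κ t) θ ∂box d ≤
      ∫ θ, Real.exp (-(r * (1 - phi θ))) ∂box d := by
    have hm1 : Measurable fun θ : Fin d → ℝ => Real.exp (-((r : ℝ) * (1 - phi θ))) := by
      have := measurable_phi (d := d)
      fun_prop
    have hbd : ∀ θ : Fin d → ℝ, Real.exp (-((r : ℝ) * (1 - phi θ))) ≤ 1 := by
      intro θ
      apply Real.exp_le_one_iff.2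
      have := phi_le_one θ
      have hr0 : (0 : ℝ) ≤ r := r.2
      nlinarith
    have hi : Integrable (fun θ => Real.exp (-((r : ℝ) * (1 - phi θ)))) (box d) :=
      Integrable.of_bound hm1.aestronglyMeasurable 1 (ae_of_all _ fun θ => by
        rw [Real.norm_eq_abs, abs_of_pos (Real.exp_pos _)]; exact hbd θ)
    have hi2 : Integrable (fun θ => Real.cos (ph z θ) * ch (ctLaw d κ t) θ) (box d) := by
      simp only [ch_ctLaw]
      refine Integrable.of_bound (C := 1) ?_ (ae_of_all _ fun θ => ?_)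
      · exact (((Real.continuous_cos.comp (continuous_ph z)).measurable).mul
          hm1).aestronglyMeasurable
      · rw [norm_mul, Real.norm_eq_abs, Real.norm_eq_abs, abs_of_pos (Real.exp_pos _)]
        have e1 := Real.abs_cos_le_one (ph z θ)
        have e2 := hbd θ
        have e3 := Real.exp_pos (-((r : ℝ) * (1 - phi θ)))
        nlinarith [abs_nonneg (Real.cos (ph z θ))]
    refine integral_mono hi2 hi fun θ => ?_
    simp only
    rw [ch_ctLaw]
    have e1 := Real.cos_le_one (ph z θ)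
    have e3 := Real.exp_pos (-((r : ℝ) * (1 - phi θ)))
    nlinarith
  refine h1.trans (le_of_eq ?_)
  have h2 : ∀ θ : Fin d → ℝ, Real.exp (-(r * (1 - phi θ))) =
      ∏ j, Real.exp (-((r / d) * (1 - Real.cos (2 * π * θ j)))) := by
    intro θ
    rw [← Real.exp_sum]
    congr 1
    rw [Finset.sum_neg_distrib, ← Finset.mul_sum, Finset.sum_sub_distrib, Finset.sum_const,
      Finset.card_univ, Fintype.card_fin, nsmul_eq_mul, mul_one]
    unfold phi
    field_simp
  simp only [h2]
  unfold box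
  rw [integral_fintype_prod_eq_prod (𝕜 := ℝ)
    (f := fun (_ : Fin d) (x : ℝ) => Real.exp (-((r / d) * (1 - Real.cos (2 * π * x)))))]
  rw [Finset.prod_const, Finset.card_univ, Fintype.card_fin]
  rfl

lemma I1_le_one {s : ℝ} (hs : 0 ≤ s) : I1 s ≤ 1 := by
  unfold I1
  calc ∫ x in Set.Ioc (-(1 / 2) : ℝ) (1 / 2), Real.exp (-(s * (1 - Real.cos (2 * π * x))))
      ≤ ∫ _x in Set.Ioc (-(1 / 2) : ℝ) (1 / 2), (1 : ℝ) := by
        refine integral_mono_of_nonneg (ae_of_all _ fun x => (Real.exp_pos _).le)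
          (integrable_const _) (ae_of_all _ fun x => ?_)
        apply Real.exp_le_one_iff.2
        have := Real.cos_le_one (2 * π * x)
        nlinarith
    _ = 1 := by
        rw [setIntegral_const]
        simp [Real.volume_Ioc, Measure.real]
        norm_num

lemma I1_le_sqrt {s : ℝ} (hs : 0 < s) : I1 s ≤ Real.sqrt (π / (8 * s)) := by
  unfold I1
  have hint : Integrable (fun x : ℝ => Real.exp (-(8 * s) * x ^ 2)) :=
    integrable_exp_neg_mul_sq (by positivity)
  calc ∫ x in Set.Ioc (-(1 / 2) : ℝ) (1 / 2), Real.exp (-(s * (1 - Real.cos (2 * π * x))))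
      ≤ ∫ x in Set.Ioc (-(1 / 2) : ℝ) (1 / 2), Real.exp (-(8 * s) * x ^ 2) := by
        refine integral_mono_of_nonneg (ae_of_all _ fun x => (Real.exp_pos _).le)
          hint.integrableOn ?_
        rw [Filter.EventuallyLE, ae_restrict_iff' measurableSet_Ioc]
        refine ae_of_all _ fun x hx => ?_
        apply Real.exp_le_exp.2
        have h1 : |2 * π * x| ≤ π := by
          rw [abs_le]
          have := Real.pi_pos
          constructor <;> nlinarith [hx.1, hx.2]
        have h2 := Real.cos_le_one_sub_mul_cos_sq h1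
        have h3 : 2 / π ^ 2 * (2 * π * x) ^ 2 = 8 * x ^ 2 := by
          field_simp
          ring
        rw [h3] at h2
        nlinarith
    _ ≤ ∫ x : ℝ, Real.exp (-(8 * s) * x ^ 2) :=
        setIntegral_le_integral hint (ae_of_all _ fun x => (Real.exp_pos _).le)
    _ = _ := integral_gaussian (8 * s)

lemma I1_le {s : ℝ} (hs : 0 ≤ s) : I1 s ≤ 2 * (1 + s) ^ (-(1 / 2) : ℝ) := by
  have h1s : 0 < 1 + s := by linarith
  rw [Real.rpow_neg h1s.le, ← Real.sqrt_eq_rpow]
  have hsq : 0 < Real.sqrt (1 + s) := Real.sqrt_pos.2 h1s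
  rcases le_or_gt s 1 with h | h
  · refine (I1_le_one hs).trans ?_
    rw [← div_eq_mul_inv, le_div_iff₀ hsq, one_mul, Real.sqrt_le_left (by norm_num)]
    linarith
  · refine (I1_le_sqrt (by linarith)).trans ?_
    rw [← div_eq_mul_inv, le_div_iff₀ hsq, ← Real.sqrt_mul' _ h1s.le,
      Real.sqrt_le_left (by norm_num)]
    rw [div_mul_eq_mul_div, div_le_iff₀ (by linarith)]
    have := Real.pi_le_four
    nlinarith

/-- **uniform heat kernel bound** -/
lemma ctLaw_le [NeZero d] (hd : 5 ≤ d) {κ : ℝ≥0} (hκ : 0 < κ) :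
    ∃ C : ℝ, 1 ≤ C ∧ ∀ (t : ℝ≥0) (z : Fin d → ℤ),
      ctLaw d κ t {z} ≤ ENNReal.ofReal (C * (1 + (t : ℝ)) ^ (-(5 / 2) : ℝ)) := by
  have hd0 : (0 : ℝ) < d := by
    have : (5 : ℝ) ≤ d := by exact_mod_cast hd
    linarith
  set c : ℝ := min 1 ((κ : ℝ) / d) with hc
  have hκ0 : (0 : ℝ) < κ := hκ
  have hc0 : 0 < c := lt_min one_pos (by positivity)
  have hc1 : c ≤ 1 := min_le_left _ _
  refine ⟨2 ^ d * c ^ (-(5 / 2) : ℝ), ?_, fun t z => ?_⟩
  · have h1 : (1 : ℝ) ≤ 2 ^ d := one_le_pow₀ (by norm_num)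
    have h2 : (1 : ℝ) ≤ c ^ (-(5 / 2) : ℝ) := Real.one_le_rpow_of_pos_of_le_one_of_nonpos hc0 hc1
      (by norm_num)
    nlinarith
  · rw [← ENNReal.ofReal_toReal (measure_ne_top (ctLaw d κ t) {z})]
    apply ENNReal.ofReal_le_ofReal
    refine (ctLaw_le_I1 κ t z).trans ?_
    have ht0 : (0 : ℝ) ≤ t := t.2
    set s : ℝ := ((κ * t : ℝ≥0) : ℝ) / d with hs
    have hs0 : 0 ≤ s := by positivity
    have hI0 : 0 ≤ I1 s := integral_nonneg fun x => (Real.exp_pos _).le
    have h1 : I1 s ^ d ≤ (2 * (1 + s) ^ (-(1 / 2) : ℝ)) ^ d := pow_le_pow_left₀ hI0 (I1_le hs0) d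
    refine h1.trans ?_
    rw [mul_pow, mul_assoc]
    refine mul_le_mul_of_nonneg_left ?_ (by positivity)
    have h2 : ((1 + s) ^ (-(1 / 2) : ℝ)) ^ d ≤ ((1 + s) ^ (-(1 / 2) : ℝ)) ^ 5 := by
      refine pow_le_pow_of_le_one (by positivity) ?_ hd
      exact Real.rpow_le_one_of_one_le_of_nonpos (by linarith) (by norm_num)
    have h3 : ((1 + s) ^ (-(1 / 2) : ℝ)) ^ 5 = (1 + s) ^ (-(5 / 2) : ℝ) := by
      rw [← Real.rpow_natCast, ← Real.rpow_mul (by linarith)]
      norm_num
    have h4 : c * (1 + t) ≤ 1 + s := by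
      have e1 : c * t ≤ s := by
        calc c * t ≤ ((κ : ℝ) / d) * t := by
              gcongr; exact min_le_right _ _
          _ = s := by rw [hs]; push_cast; ring
      nlinarith
    calc _ ≤ (1 + s) ^ (-(5 / 2) : ℝ) := h2.trans h3.le
      _ ≤ (c * (1 + t)) ^ (-(5 / 2) : ℝ) :=
          Real.rpow_le_rpow_of_nonpos (by positivity) h4 (by norm_num)
      _ = _ := Real.mul_rpow hc0.le (by positivity)

end Pool.Agent.Helper83.MobileTraps
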