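import Pool.Agent.Helper83.MobileTraps.HK2

open MeasureTheory ProbabilityTheory Filter
open scoped ENNReal NNReal Topology Real

namespace Pool.Agent.Helper83.MobileTraps

open Pool.Agent.Helper83.Traps

variable {d : ℕ} {Ω : Type*} [MeasurableSpace Ω] {P : Measure Ω} [IsProbabilityMeasure P]
  {κ : ℝ≥0} {x₀ : Fin d → ℤ} {X : ℝ≥0 → Ω → (Fin d → ℤ)}

omit [IsProbabilityMeasure P] in
lemma IsCTSRW.law_sub (hX : IsCTSRW P d κ x₀ X) {s t : ℝ≥0} (h : s ≤ t) :
    P.map (fun ω => X t ω - X s ω) = ctLaw d κ (t - s) := by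
  have := hX.law s (t - s)
  rwa [add_tsub_cancel_of_le h] at this

lemma IsCTSRW.ctLaw_add (hX : IsCTSRW P d κ x₀ X) (s t : ℝ≥0) :
    Measure.conv (ctLaw d κ s) (ctLaw d κ t) = ctLaw d κ (s + t) := by
  have h1 := hX.indep.indepFun_sub_sub (zero_le (a := s)) (le_add_right (le_refl s) : s ≤ s + t)
  have hm1 : Measurable (X s - X 0) := (hX.measurable s).sub (hX.measurable 0)
  have hm2 : Measurable (X (s + t) - X s) := (hX.measurable (s + t)).sub (hX.measurable s)
  have h2 := h1.map_add_eq_map_conv_map hm1 hm2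
  have e1 : P.map (X s - X 0) = ctLaw d κ s := by
    have := hX.law_sub (zero_le (a := s))
    rw [tsub_zero] at this
    exact this
  have e2 : P.map (X (s + t) - X s) = ctLaw d κ t := hX.law s t
  have e3 : P.map (X s - X 0 + (X (s + t) - X s)) = ctLaw d κ (s + t) := by
    have : X s - X 0 + (X (s + t) - X s) = X (s + t) - X 0 := by
      funext ω
      simp only [Pi.add_apply, Pi.sub_apply]
      abel
    rw [this]
    have := hX.law_sub (zero_le (a := s + t))
    rw [tsub_zero] at this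
    exact this
  rw [← e3, h2, e1, e2]

lemma IsCTSRW.ctLaw_zero (hX : IsCTSRW P d κ x₀ X) : ctLaw d κ 0 = Measure.dirac 0 := by
  rw [← hX.law 0 0]
  simp

lemma conv_singleton {μ ν : Measure (Fin d → ℤ)} [SFinite μ] [SFinite ν] (z : Fin d → ℤ) :
    Measure.conv μ ν {z} = ∫⁻ x, ∫⁻ y, (if x + y = z then 1 else 0) ∂ν ∂μ := by
  rw [← lintegral_indicator_one (measurableSet_singleton z), lintegral_conv_eq]
  refine lintegral_congr fun x => lintegral_congr fun y => ?_
  rw [Set.indicator_apply]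
  simp only [Set.mem_singleton_iff, Pi.one_apply]

lemma lintegral_ite_eq {μ : Measure (Fin d → ℤ)} (x z : Fin d → ℤ) :
    ∫⁻ y, (if x + y = z then 1 else 0) ∂μ = μ {z - x} := by
  rw [← lintegral_indicator_one (measurableSet_singleton _)]
  refine lintegral_congr fun y => ?_
  rw [Set.indicator_apply]
  have : x + y = z ↔ y ∈ ({z - x} : Set (Fin d → ℤ)) := by
    rw [Set.mem_singleton_iff]
    constructor
    · rintro rfl; abel
    · rintro rfl; abel
  simp only [this, Pi.one_apply]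

/-- **weighted heat kernel bound** -/
lemma IsCTSRW.nsq_ctLaw_le [NeZero d] (hX : IsCTSRW P d κ x₀ X) {C : ℝ} (hC : 1 ≤ C)
    (h : ∀ (t : ℝ≥0) (z : Fin d → ℤ),
      ctLaw d κ t {z} ≤ ENNReal.ofReal (C * (1 + (t : ℝ)) ^ (-(5 / 2) : ℝ)))
    (t : ℝ≥0) (z : Fin d → ℤ) :
    (nsq z : ℝ≥0∞) * ctLaw d κ t {z} ≤
      ENNReal.ofReal (12 * C * κ * (1 + (t : ℝ)) ^ (-(3 / 2) : ℝ)) := by
  have ht : t = t / 2 + t / 2 := by rw [add_halves]
  set u : ℝ≥0 := t / 2 with hu
  set μ := ctLaw d κ u with hμ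
  set B := ENNReal.ofReal (C * (1 + (u : ℝ)) ^ (-(5 / 2) : ℝ)) with hB
  have hconv : ctLaw d κ t = Measure.conv μ μ := by
    rw [hμ, hX.ctLaw_add, ← ht]
  have hmom : ∫⁻ x, (nsq x : ℝ≥0∞) ∂μ = (κ * u : ℝ≥0) := lintegral_nsq_ctLaw κ u
  have hmain : (nsq z : ℝ≥0∞) * ctLaw d κ t {z} ≤ 4 * (B * (κ * u : ℝ≥0)) := by
    rw [hconv, conv_singleton]
    have hmd : Measurable fun p : (Fin d → ℤ) × (Fin d → ℤ) =>
        (nsq p.2 : ℝ≥0∞) * (if p.1 + p.2 = z then 1 else 0) := Measurable.of_discrete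
    calc (nsq z : ℝ≥0∞) * ∫⁻ x, ∫⁻ y, (if x + y = z then 1 else 0) ∂μ ∂μ
        = ∫⁻ x, ∫⁻ y, (nsq z : ℝ≥0∞) * (if x + y = z then 1 else 0) ∂μ ∂μ := by
          rw [← lintegral_const_mul _ Measurable.of_discrete]
          refine lintegral_congr fun x => ?_
          rw [lintegral_const_mul _ Measurable.of_discrete]
      _ ≤ ∫⁻ x, ∫⁻ y, (2 * ((nsq x : ℝ≥0∞) * (if x + y = z then 1 else 0)) +
            2 * ((nsq y : ℝ≥0∞) * (if x + y = z then 1 else 0))) ∂μ ∂μ := by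
          refine lintegral_mono fun x => lintegral_mono fun y => ?_
          by_cases h : x + y = z
          · simp only [h, if_true, mul_one]
            rw [← h]
            exact_mod_cast nsq_add_le x y
          · simp [h]
      _ = 2 * ∫⁻ x, (nsq x : ℝ≥0∞) * μ {z - x} ∂μ +
            2 * ∫⁻ x, ∫⁻ y, (nsq y : ℝ≥0∞) * (if x + y = z then 1 else 0) ∂μ ∂μ := by
          have e1 : ∀ x, ∫⁻ y, (2 * ((nsq x : ℝ≥0∞) * (if x + y = z then 1 else 0)) +
              2 * ((nsq y : ℝ≥0∞) * (if x + y = z then 1 else 0))) ∂μ =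
              2 * ((nsq x : ℝ≥0∞) * μ {z - x}) +
              2 * ∫⁻ y, (nsq y : ℝ≥0∞) * (if x + y = z then 1 else 0) ∂μ := by
            intro x
            rw [lintegral_add_left Measurable.of_discrete,
              lintegral_const_mul _ Measurable.of_discrete,
              lintegral_const_mul _ Measurable.of_discrete,
              lintegral_const_mul _ Measurable.of_discrete, lintegral_ite_eq]
          simp only [e1]
          rw [lintegral_add_left Measurable.of_discrete,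
            lintegral_const_mul _ Measurable.of_discrete,
            lintegral_const_mul _ Measurable.of_discrete]
      _ = 2 * ∫⁻ x, (nsq x : ℝ≥0∞) * μ {z - x} ∂μ +
            2 * ∫⁻ y, (nsq y : ℝ≥0∞) * μ {z - y} ∂μ := by
          congr 2
          rw [lintegral_lintegral_swap hmd.aemeasurable]
          refine lintegral_congr fun y => ?_
          rw [lintegral_const_mul _ Measurable.of_discrete]
          congr 1
          have : ∀ x : Fin d → ℤ, (if x + y = z then (1 : ℝ≥0∞) else 0) =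
              if y + x = z then 1 else 0 := fun x => by rw [add_comm]
          simp only [this]
          exact lintegral_ite_eq y z
      _ = 4 * ∫⁻ x, (nsq x : ℝ≥0∞) * μ {z - x} ∂μ := by ring
      _ ≤ 4 * ∫⁻ x, (nsq x : ℝ≥0∞) * B ∂μ := by
          refine mul_le_mul' le_rfl (lintegral_mono fun x => mul_le_mul' le_rfl (h u _))
      _ = 4 * (B * (κ * u : ℝ≥0)) := by
          rw [lintegral_mul_const _ Measurable.of_discrete, hmom, mul_comm B]
  refine hmain.trans ?_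
  have hu0 : (0 : ℝ) ≤ u := u.2
  have hκ0 : (0 : ℝ) ≤ κ := κ.2
  rw [hB, ← ENNReal.ofReal_coe_nnreal, ← ENNReal.ofReal_mul (by positivity),
    show (4 : ℝ≥0∞) = ENNReal.ofReal 4 by norm_num, ← ENNReal.ofReal_mul (by norm_num)]
  apply ENNReal.ofReal_le_ofReal
  have htu : (t : ℝ) = 2 * u := by rw [hu]; push_cast; ring
  have h1 : (1 + (u : ℝ)) ^ (-(3 / 2) : ℝ) = (1 + u) * (1 + (u : ℝ)) ^ (-(5 / 2) : ℝ) := by
    nth_rewrite 2 [← Real.rpow_one (1 + (u : ℝ))]
    rw [← Real.rpow_add (by positivity)]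
    norm_num
  have h2 : (1 + (u : ℝ)) ^ (-(3 / 2) : ℝ) ≤ 3 * (1 + (t : ℝ)) ^ (-(3 / 2) : ℝ) := by
    have e1 : (1 + (t : ℝ)) / 2 ≤ 1 + u := by rw [htu]; linarith
    calc (1 + (u : ℝ)) ^ (-(3 / 2) : ℝ) ≤ ((1 + (t : ℝ)) / 2) ^ (-(3 / 2) : ℝ) :=
          Real.rpow_le_rpow_of_nonpos (by positivity) e1 (by norm_num)
      _ = (1 + (t : ℝ)) ^ (-(3 / 2) : ℝ) * (2 : ℝ) ^ (3 / 2 : ℝ) := by
          rw [Real.div_rpow (by positivity) (by norm_num), div_eq_mul_inv,
            ← Real.rpow_neg (by norm_num), neg_neg]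
      _ ≤ (1 + (t : ℝ)) ^ (-(3 / 2) : ℝ) * 3 := by
          gcongr
          rw [show (3 / 2 : ℝ) = (3 : ℕ) * (1 / 2 : ℝ) by norm_num, Real.rpow_mul (by norm_num),
            Real.rpow_natCast, ← Real.sqrt_eq_rpow, Real.sqrt_le_left (by norm_num)]
          norm_num
      _ = _ := by ring
  have h3 : u * (1 + (u : ℝ)) ^ (-(5 / 2) : ℝ) ≤ (1 + (u : ℝ)) ^ (-(3 / 2) : ℝ) := by
    rw [h1]
    have : 0 ≤ (1 + (u : ℝ)) ^ (-(5 / 2) : ℝ) := by positivity
    nlinarith
  calc 4 * (C * (1 + (u : ℝ)) ^ (-(5 / 2) : ℝ) * ((κ * u : ℝ≥0) : ℝ))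
      = 4 * C * κ * (u * (1 + (u : ℝ)) ^ (-(5 / 2) : ℝ)) := by push_cast; ring
    _ ≤ 4 * C * κ * (3 * (1 + (t : ℝ)) ^ (-(3 / 2) : ℝ)) := by
        exact mul_le_mul_of_nonneg_left (h3.trans h2) (by positivity)
    _ = _ := by ring

end Pool.Agent.Helper83.MobileTraps
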