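import Pool.Agent.Helper83.MobileTraps.Riem

open MeasureTheory ProbabilityTheory Filter
open scoped ENNReal NNReal Topology

set_option linter.unusedSectionVars false

namespace Pool.Agent.Helper83.MobileTraps

open Pool.Agent.Helper83.Traps

variable {d : ℕ}

/-- right-continuous path -/
def RC (x : ℝ≥0 → Fin d → ℤ) : Prop := ∀ t, ∀ᶠ s in 𝓝[>] t, x s = x t

/-- coincidence of two paths -/
noncomputable def coin (x y : ℝ≥0 → Fin d → ℤ) (s : ℝ≥0) : ℝ≥0∞ := if x s = y s then 1 else 0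

lemma coin_le_one (x y : ℝ≥0 → Fin d → ℤ) (s : ℝ≥0) : coin x y s ≤ 1 := by
  unfold coin; split_ifs <;> simp

lemma coin_rc {x y : ℝ≥0 → Fin d → ℤ} (hx : RC x) (hy : RC y) (t : ℝ≥0) :
    ∀ᶠ s in 𝓝[>] t, coin x y s = coin x y t := by
  filter_upwards [hx t, hy t] with s h1 h2
  unfold coin
  rw [h1, h2]

/-- Riemann sum of the coincidence time -/
noncomputable def rsum (m T : ℕ) (x y : ℝ≥0 → Fin d → ℤ) : ℝ≥0∞ :=
  (m : ℝ≥0∞)⁻¹ * ∑ i ∈ Finset.range T, ∑ l : Fin m, coin x y (tm m i l)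

/-- coincidence time up to time `T` -/
noncomputable def Lint (T : ℕ) (x y : ℝ≥0 → Fin d → ℤ) : ℝ≥0∞ :=
  ∫⁻ s in Set.Icc (0 : ℝ) T, coin x y s.toNNReal

lemma sum_grid {A : Type*} [AddCommMonoid A] (m T : ℕ) (g : ℕ → A) :
    ∑ i ∈ Finset.range T, ∑ l : Fin m, g (i * m + l) = ∑ k ∈ Finset.range (T * m), g k := by
  induction T with
  | zero => simp
  | succ T ih =>
    rw [Finset.sum_range_succ, ih, Nat.succ_mul, Finset.sum_range_add]
    congr 1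
    exact (Finset.sum_range (fun k => g (T * m + k))).symm

lemma rsum_eq (m T : ℕ) (x y : ℝ≥0 → Fin d → ℤ) :
    rsum m T x y = (m : ℝ≥0∞)⁻¹ * ∑ k ∈ Finset.range (T * m), coin x y (gt m (k + 1)) := by
  unfold rsum
  rw [← sum_grid m T (fun k => coin x y (gt m (k + 1)))]
  rfl

lemma tendsto_rsum {x y : ℝ≥0 → Fin d → ℤ} (hx : RC x) (hy : RC y) (T : ℕ) :
    Tendsto (fun m => rsum m T x y) atTop (𝓝 (Lint T x y)) := by
  simp only [rsum_eq]
  exact tendsto_riemann (coin_le_one x y) (coin_rc hx hy) T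

lemma Lint_le (T : ℕ) (x y : ℝ≥0 → Fin d → ℤ) : Lint T x y ≤ T := by
  unfold Lint
  calc ∫⁻ s in Set.Icc (0 : ℝ) T, coin x y s.toNNReal ≤ ∫⁻ _s in Set.Icc (0 : ℝ) T, 1 :=
        lintegral_mono fun s => coin_le_one x y _
    _ = T := by simp

lemma rsum_le {m : ℕ} (hm : 1 ≤ m) (T : ℕ) (x y : ℝ≥0 → Fin d → ℤ) : rsum m T x y ≤ T := by
  rw [rsum_eq]
  calc (m : ℝ≥0∞)⁻¹ * ∑ k ∈ Finset.range (T * m), coin x y (gt m (k + 1))
      ≤ (m : ℝ≥0∞)⁻¹ * ∑ _k ∈ Finset.range (T * m), 1 :=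
        mul_le_mul' le_rfl (Finset.sum_le_sum fun k _ => coin_le_one x y _)
    _ = T := by
        rw [Finset.sum_const, Finset.card_range, nsmul_eq_mul, mul_one]
        push_cast
        rw [mul_comm (T : ℝ≥0∞), ← mul_assoc, ENNReal.inv_mul_cancel (by
          simp only [ne_eq, Nat.cast_eq_zero]; omega) (by simp), one_mul]

lemma rsum_zero (T : ℕ) (x y : ℝ≥0 → Fin d → ℤ) : rsum 0 T x y = 0 := by
  unfold rsum; simp

lemma rsum_ne_top (m T : ℕ) (x y : ℝ≥0 → Fin d → ℤ) : rsum m T x y ≠ ⊤ := by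
  rcases Nat.eq_zero_or_pos m with rfl | hm
  · rw [rsum_zero]; simp
  · exact ne_top_of_le_ne_top (by simp) (rsum_le hm T x y)

lemma Lint_ne_top (T : ℕ) (x y : ℝ≥0 → Fin d → ℤ) : Lint T x y ≠ ⊤ :=
  ne_top_of_le_ne_top (by simp) (Lint_le T x y)

/-- `1 - exp (-F)` -/
noncomputable def e1 (F : ℝ≥0∞) : ℝ≥0∞ := ENNReal.ofReal (1 - Real.exp (-F.toReal))

/-- `F - (1 - exp (-F))` -/
noncomputable def e2 (F : ℝ≥0∞) : ℝ≥0∞ := ENNReal.ofReal (F.toReal - (1 - Real.exp (-F.toReal)))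

lemma e1_add_e2 {F : ℝ≥0∞} (hF : F ≠ ⊤) : e1 F + e2 F = F := by
  unfold e1 e2
  rw [← ENNReal.ofReal_add (one_sub_exp_nonneg ENNReal.toReal_nonneg) (by
    have := one_sub_exp_le F.toReal; linarith)]
  rw [add_sub_cancel, ENNReal.ofReal_toReal hF]

lemma measurable_e1 : Measurable e1 :=
  (measurable_const.sub (Real.measurable_exp.comp
    (ENNReal.measurable_toReal).neg)).ennreal_ofReal

lemma measurable_e2 : Measurable e2 :=
  (ENNReal.measurable_toReal.sub (measurable_const.sub (Real.measurable_exp.comp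
    (ENNReal.measurable_toReal).neg))).ennreal_ofReal

lemma tendsto_e1 {F : ℕ → ℝ≥0∞} {G : ℝ≥0∞} (hG : G ≠ ⊤)
    (h : Tendsto F atTop (𝓝 G)) : Tendsto (fun m => e1 (F m)) atTop (𝓝 (e1 G)) := by
  have h1 := (ENNReal.tendsto_toReal hG).comp h
  unfold e1
  apply ENNReal.tendsto_ofReal
  exact (tendsto_const_nhds).sub ((Real.continuous_exp.tendsto _).comp h1.neg)

lemma tendsto_e2 {F : ℕ → ℝ≥0∞} {G : ℝ≥0∞} (hG : G ≠ ⊤)
    (h : Tendsto F atTop (𝓝 G)) : Tendsto (fun m => e2 (F m)) atTop (𝓝 (e2 G)) := by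
  have h1 := (ENNReal.tendsto_toReal hG).comp h
  unfold e2
  apply ENNReal.tendsto_ofReal
  exact h1.sub ((tendsto_const_nhds).sub ((Real.continuous_exp.tendsto _).comp h1.neg))

/-- exchange of limit and integral from conservation of mass -/
lemma tendsto_lintegral_e1 {A : Type*} [MeasurableSpace A] (μ : Measure A) {F : ℕ → A → ℝ≥0∞}
    {G : A → ℝ≥0∞} (hF : ∀ m, Measurable (F m)) (hG : Measurable G)
    (hFfin : ∀ m a, F m a ≠ ⊤) (hGfin : ∀ a, G a ≠ ⊤)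
    (hlim : ∀ a, Tendsto (fun m => F m a) atTop (𝓝 (G a))) {C : ℝ≥0∞} (hC : C ≠ ⊤)
    (hFC : ∀ᶠ m in atTop, ∫⁻ a, F m a ∂μ = C) (hGC : ∫⁻ a, G a ∂μ = C) :
    Tendsto (fun m => ∫⁻ a, e1 (F m a) ∂μ) atTop (𝓝 (∫⁻ a, e1 (G a) ∂μ)) := by
  have hmF : ∀ m, Measurable fun a => e1 (F m a) := fun m => measurable_e1.comp (hF m)
  have hmF2 : ∀ m, Measurable fun a => e2 (F m a) := fun m => measurable_e2.comp (hF m)
  have hmG : Measurable fun a => e1 (G a) := measurable_e1.comp hG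
  have hsplitF : ∀ m, ∫⁻ a, e1 (F m a) ∂μ + ∫⁻ a, e2 (F m a) ∂μ = ∫⁻ a, F m a ∂μ := by
    intro m
    rw [← lintegral_add_left (hmF m)]
    exact lintegral_congr fun a => e1_add_e2 (hFfin m a)
  have hsplitG : ∫⁻ a, e1 (G a) ∂μ + ∫⁻ a, e2 (G a) ∂μ = C := by
    rw [← hGC, ← lintegral_add_left hmG]
    exact lintegral_congr fun a => e1_add_e2 (hGfin a)
  have hl1 : ∫⁻ a, e1 (G a) ∂μ ≤ liminf (fun m => ∫⁻ a, e1 (F m a) ∂μ) atTop := by
    refine le_trans (le_of_eq ?_) (lintegral_liminf_le hmF)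
    refine lintegral_congr fun a => ?_
    exact (tendsto_e1 (hGfin a) (hlim a)).liminf_eq.symm
  have hl2 : ∫⁻ a, e2 (G a) ∂μ ≤ liminf (fun m => ∫⁻ a, e2 (F m a) ∂μ) atTop := by
    refine le_trans (le_of_eq ?_) (lintegral_liminf_le hmF2)
    refine lintegral_congr fun a => ?_
    exact (tendsto_e2 (hGfin a) (hlim a)).liminf_eq.symm
  have h2fin : ∫⁻ a, e2 (G a) ∂μ ≠ ⊤ := by
    refine ne_top_of_le_ne_top hC ?_
    rw [← hsplitG]; exact le_add_self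
  have hup : limsup (fun m => ∫⁻ a, e1 (F m a) ∂μ) atTop ≤ ∫⁻ a, e1 (G a) ∂μ := by
    have h3 : (fun m => ∫⁻ a, e1 (F m a) ∂μ) =ᶠ[atTop] fun m => C - ∫⁻ a, e2 (F m a) ∂μ := by
      filter_upwards [hFC] with m hm
      have h4 := hsplitF m
      rw [hm] at h4
      have h5 : ∫⁻ a, e2 (F m a) ∂μ ≠ ⊤ := by
        refine ne_top_of_le_ne_top hC ?_
        rw [← h4]; exact le_add_self
      rw [← h4, ENNReal.add_sub_cancel_right h5]
    rw [limsup_congr h3, ENNReal.limsup_const_sub _ _ hC]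
    calc C - liminf (fun m => ∫⁻ a, e2 (F m a) ∂μ) atTop ≤ C - ∫⁻ a, e2 (G a) ∂μ :=
          tsub_le_tsub_left hl2 C
      _ = _ := by
          rw [← hsplitG, ENNReal.add_sub_cancel_right h2fin]
  exact tendsto_of_le_liminf_of_limsup_le hl1 hup

end Pool.Agent.Helper83.MobileTraps
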