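import Pool.Agent.Helper83.MobileTraps.Lim1

open MeasureTheory ProbabilityTheory Filter
open scoped ENNReal NNReal Topology

set_option linter.unusedSectionVars false

namespace Pool.Agent.Helper83.MobileTraps

open Pool.Agent.Helper83.Traps

variable {d : ℕ} [NeZero d] {Ω : Type*} [MeasurableSpace Ω] {P : Measure Ω}
  [IsProbabilityMeasure P] {ρ : ℝ≥0} {Z : (Fin d → ℤ) → ℝ≥0 → Ω → (Fin d → ℤ)}

/-- the trajectory as a function of time -/
def pth (Z : ℝ≥0 → Ω → (Fin d → ℤ)) (ω : Ω) : ℝ≥0 → Fin d → ℤ := fun t => Z t ω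

lemma measurable_coin {Z : ℝ≥0 → Ω → (Fin d → ℤ)} (hZ : ∀ t, Measurable (Z t))
    (x : ℝ≥0 → Fin d → ℤ) (s : ℝ≥0) : Measurable fun ω => coin x (pth Z ω) s := by
  unfold coin pth
  exact (Measurable.of_discrete (f := fun v : Fin d → ℤ => if x s = v then (1 : ℝ≥0∞) else 0)).comp
    (hZ s)

lemma measurable_rsum {Z : ℝ≥0 → Ω → (Fin d → ℤ)} (hZ : ∀ t, Measurable (Z t)) (m T : ℕ)
    (x : ℝ≥0 → Fin d → ℤ) : Measurable fun ω => rsum m T x (pth Z ω) := by
  unfold rsum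
  exact (Finset.measurable_fun_sum _ fun i _ => Finset.measurable_fun_sum _ fun l _ =>
    measurable_coin hZ x _).const_mul _

omit [NeZero d] in
lemma rc_pth {κ : ℝ≥0} {x₀ : Fin d → ℤ} {X : ℝ≥0 → Ω → (Fin d → ℤ)} (hX : IsCTSRW P d κ x₀ X)
    (ω : Ω) : RC (pth X ω) := fun t => hX.rightCont ω t

/-- joint measurability of the coincidence indicator -/
lemma measurable_coin_joint {Z : ℝ≥0 → Ω → (Fin d → ℤ)} (hZ : ∀ t, Measurable (Z t))
    (hrc : ∀ ω, RC (pth Z ω)) {x : ℝ≥0 → Fin d → ℤ} (hx : RC x) :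
    Measurable fun p : Ω × ℝ => coin x (pth Z p.1) p.2.toNNReal := by
  have h1 : ∀ m : ℕ, Measurable fun p : Ω × ℝ => coin x (pth Z p.1) (cm m p.2) := by
    intro m
    have e1 : Measurable fun q : Ω × ℕ => coin x (pth Z q.1) (gt m q.2) :=
      measurable_from_prod_countable_left fun k => measurable_coin hZ x (gt m k)
    have e2 : Measurable fun p : Ω × ℝ => (p.1, ⌈(m : ℝ) * p.2⌉₊) := by
      have e3 : Measurable fun p : Ω × ℝ => ⌈(m : ℝ) * p.2⌉₊ :=
        (measurable_ceilmul m).comp measurable_snd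
      exact measurable_fst.prodMk e3
    have e4 := e1.comp e2
    exact e4
  refine measurable_of_tendsto_metrizable h1 ?_
  rw [tendsto_pi_nhds]
  rintro ⟨ω, s⟩
  rcases le_or_gt 0 s with hs | hs
  · exact tendsto_cm (f := fun t => coin x (pth Z ω) t) (coin_rc hx (hrc ω)) hs
  · have e : ∀ m : ℕ, cm m s = s.toNNReal := by
      intro m
      unfold cm
      have : ⌈(m : ℝ) * s⌉₊ = 0 := by
        rw [Nat.ceil_eq_zero]
        have : (0 : ℝ) ≤ m := Nat.cast_nonneg m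
        nlinarith
      rw [this, gt_zero, Real.toNNReal_of_nonpos hs.le]
    simp only [e]
    exact tendsto_const_nhds

lemma measurable_Lint {Z : ℝ≥0 → Ω → (Fin d → ℤ)} (hZ : ∀ t, Measurable (Z t))
    (hrc : ∀ ω, RC (pth Z ω)) {x : ℝ≥0 → Fin d → ℤ} (hx : RC x) (T : ℕ) :
    Measurable fun ω => Lint T x (pth Z ω) :=
  (measurable_coin_joint hZ hrc hx).lintegral_prod_right'

lemma lintegral_coin (hZ : ∀ y, IsCTSRW P d ρ y (Z y)) (x : ℝ≥0 → Fin d → ℤ) (s : ℝ≥0)
    (y : Fin d → ℤ) : ∫⁻ ω, coin x (pth (Z y) ω) s ∂P = ctLaw d ρ s {x s - y} := by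
  have h1 : P {ω | Z y s ω - Z y 0 ω = x s - y} = ctLaw d ρ s {x s - y} := by
    have := (hZ y).prob_sub (zero_le (a := s)) (x s - y)
    rwa [tsub_zero] at this
  rw [← h1]
  have hm : Measurable fun ω => Z y s ω - Z y 0 ω :=
    ((hZ y).measurable s).sub ((hZ y).measurable 0)
  have hset : MeasurableSet {ω | Z y s ω - Z y 0 ω = x s - y} :=
    hm (measurableSet_singleton _)
  rw [← lintegral_indicator_one hset]
  refine lintegral_congr fun ω => ?_
  unfold coin pth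
  rw [Set.indicator_apply]
  have : x s = Z y s ω ↔ ω ∈ {ω | Z y s ω - Z y 0 ω = x s - y} := by
    show _ ↔ Z y s ω - Z y 0 ω = x s - y
    rw [(hZ y).start ω, sub_left_inj]
    exact eq_comm
  simp only [this, Pi.one_apply]

lemma tsum_lintegral_coin (hZ : ∀ y, IsCTSRW P d ρ y (Z y)) (x : ℝ≥0 → Fin d → ℤ) (s : ℝ≥0) :
    ∑' y, ∫⁻ ω, coin x (pth (Z y) ω) s ∂P = 1 := by
  simp only [lintegral_coin hZ]
  have h1 : ∑' z : Fin d → ℤ, ctLaw d ρ s {z} = 1 := by
    rw [← measure_univ (μ := ctLaw d ρ s)]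
    have h2 := lintegral_countable' (μ := ctLaw d ρ s) (fun _ => 1)
    rw [lintegral_one] at h2
    rw [h2]; simp
  rw [← h1, ← (Equiv.subLeft (x s)).tsum_eq (fun z => ctLaw d ρ s {z})]
  rfl

/-- conservation of mass for the Riemann sums -/
lemma mass_rsum (hZ : ∀ y, IsCTSRW P d ρ y (Z y)) {m : ℕ} (hm : 1 ≤ m) (T : ℕ)
    (x : ℝ≥0 → Fin d → ℤ) : ∑' y, ∫⁻ ω, rsum m T x (pth (Z y) ω) ∂P = T := by
  have hc : ∀ y s, Measurable fun ω => coin x (pth (Z y) ω) s := fun y s =>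
    measurable_coin (hZ y).measurable x s
  have h1 : ∀ y, ∫⁻ ω, rsum m T x (pth (Z y) ω) ∂P = (m : ℝ≥0∞)⁻¹ *
      ∑ k ∈ Finset.range (T * m), ∫⁻ ω, coin x (pth (Z y) ω) (gt m (k + 1)) ∂P := by
    intro y
    simp only [rsum_eq]
    rw [lintegral_const_mul _ (Finset.measurable_fun_sum _ fun k _ => hc y _),
      lintegral_finsetSum _ fun k _ => hc y _]
  simp only [h1]
  rw [ENNReal.tsum_mul_left, Summable.tsum_finsetSum fun _ _ => ENNReal.summable]
  simp only [tsum_lintegral_coin hZ, Finset.sum_const, Finset.card_range, nsmul_eq_mul, mul_one]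
  push_cast
  rw [mul_comm (T : ℝ≥0∞), ← mul_assoc, ENNReal.inv_mul_cancel (by
    simp only [ne_eq, Nat.cast_eq_zero]; omega) (by simp), one_mul]

/-- conservation of mass for the coincidence time -/
lemma mass_Lint (hZ : ∀ y, IsCTSRW P d ρ y (Z y)) (T : ℕ) {x : ℝ≥0 → Fin d → ℤ} (hx : RC x) :
    ∑' y, ∫⁻ ω, Lint T x (pth (Z y) ω) ∂P = T := by
  have hj : ∀ y, Measurable fun p : Ω × ℝ => coin x (pth (Z y) p.1) p.2.toNNReal := fun y =>
    measurable_coin_joint (hZ y).measurable (rc_pth (hZ y)) hx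
  have h1 : ∀ y, ∫⁻ ω, Lint T x (pth (Z y) ω) ∂P =
      ∫⁻ s in Set.Icc (0 : ℝ) T, ∫⁻ ω, coin x (pth (Z y) ω) s.toNNReal ∂P := by
    intro y
    unfold Lint
    exact lintegral_lintegral_swap (hj y).aemeasurable
  have hm2 : ∀ y, Measurable fun s : ℝ => ∫⁻ ω, coin x (pth (Z y) ω) s.toNNReal ∂P := fun y =>
    (hj y).lintegral_prod_left'
  simp only [h1]
  rw [← lintegral_tsum fun y => (hm2 y).aemeasurable]
  simp only [tsum_lintegral_coin hZ]
  simp

/-! identification with the discretised interaction -/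

lemma visR (m : ℕ) (γ : ℝ≥0) (T : ℕ) {x z : ℝ≥0 → Fin d → ℤ} (hx : x 0 = 0)
    {y : Fin d → ℤ} (hz : z 0 = y) :
    ∑ i ∈ Finset.range T, ((γ : ℝ) / m) * (vis (blk m x - blk m z) i y : ℝ) =
      (γ * rsum m T x z).toReal := by
  have h1 : ∀ i, (vis (blk m x - blk m z) i y : ℝ) =
      ∑ l : Fin m, (coin x z (tm m i l)).toReal := by
    intro i
    rw [vis_eq_sum]
    push_cast
    refine Finset.sum_congr rfl fun l _ => ?_
    unfold coin
    have h2 : pos (blk m x - blk m z) i l = y ↔ x (tm m i l) = z (tm m i l) := by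
      rw [pos_sub, pos_blk, pos_blk, hx, hz]
      constructor
      · intro h; linear_combination h
      · intro h; linear_combination h
    simp only [h2]
    split_ifs <;> simp
  simp only [h1]
  unfold rsum
  rw [ENNReal.toReal_mul, ENNReal.toReal_mul, ENNReal.toReal_inv, ENNReal.toReal_natCast,
    ENNReal.toReal_sum (fun i _ => ENNReal.sum_ne_top.2 fun l _ =>
      ne_top_of_le_ne_top ENNReal.one_ne_top (coin_le_one x z _)), ← Finset.mul_sum]
  simp only [ENNReal.coe_toReal]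
  rw [div_eq_mul_inv, mul_assoc]
  congr 2
  refine Finset.sum_congr rfl fun i _ => ?_
  rw [ENNReal.toReal_sum fun l _ =>
      ne_top_of_le_ne_top ENNReal.one_ne_top (coin_le_one x z _)]

lemma Wf_eq (hZ : ∀ y, IsCTSRW P d ρ y (Z y)) {m : ℕ} (hm : 1 ≤ m) (γ : ℝ≥0) (T : ℕ)
    {x : ℝ≥0 → Fin d → ℤ} (hx : x 0 = 0) :
    Wf (PP (muB d m ρ)) (γ / m) T (blk m x) =
      ∑' y, ∫⁻ ω, e1 (γ * rsum m T x (pth (Z y) ω)) ∂P := by
  unfold Wf Phi
  have hmS : ∀ y, Measurable fun b' : ℕ → Fin m → Fin d → ℤ => ENNReal.ofReal (1 -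
      Real.exp (-∑ i ∈ Finset.range T, (γ / m : ℝ) * vis (blk m x - b') i y)) := by
    intro y
    have h1 : Measurable fun b' : ℕ → Fin m → Fin d → ℤ => blk m x - b' :=
      measurable_const.sub measurable_id
    have h2 : Measurable fun b' : ℕ → Fin m → Fin d → ℤ =>
        ∑ i ∈ Finset.range T, (γ / m : ℝ) * (vis (blk m x - b') i y : ℝ) :=
      (measurable_sumvis _ T y).comp h1
    exact (measurable_const.sub (Real.measurable_exp.comp h2.neg)).ennreal_ofReal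
  rw [lintegral_tsum fun y => (hmS y).aemeasurable]
  refine tsum_congr fun y => ?_
  rw [← (hZ y).map_blk hm, lintegral_map (hmS y) (measurable_blkX (hZ y).measurable m)]
  refine lintegral_congr fun ω => ?_
  have h3 := visR m γ T hx (z := pth (Z y) ω) (y := y) ((hZ y).start ω)
  unfold e1
  rw [← h3]
  rfl

lemma Wf2_eq (hZ : ∀ y, IsCTSRW P d ρ y (Z y)) {m : ℕ} (hm : 1 ≤ m) (γ : ℝ≥0) (T : ℕ)
    {x x' : ℝ≥0 → Fin d → ℤ} (hx : x 0 = 0) (hx' : x' 0 = 0) :
    Wf2 (PP (muB d m ρ)) (γ / m) T (blk m x) (blk m x') =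
      ∑' y, ∫⁻ ω, e1 (γ * rsum m T x (pth (Z y) ω) + γ * rsum m T x' (pth (Z y) ω)) ∂P := by
  unfold Wf2 Phi2
  have hmS : ∀ y, Measurable fun b' : ℕ → Fin m → Fin d → ℤ => ENNReal.ofReal (1 -
      Real.exp (-(∑ i ∈ Finset.range T, (γ / m : ℝ) * vis (blk m x - b') i y +
        ∑ i ∈ Finset.range T, (γ / m : ℝ) * vis (blk m x' - b') i y))) := by
    intro y
    have h1 : ∀ x : ℝ≥0 → Fin d → ℤ, Measurable fun b' : ℕ → Fin m → Fin d → ℤ => blk m x - b' :=
      fun x => measurable_const.sub measurable_id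
    have h2 : ∀ x : ℝ≥0 → Fin d → ℤ, Measurable fun b' : ℕ → Fin m → Fin d → ℤ =>
        ∑ i ∈ Finset.range T, (γ / m : ℝ) * (vis (blk m x - b') i y : ℝ) := fun x =>
      (measurable_sumvis _ T y).comp (h1 x)
    exact (measurable_const.sub (Real.measurable_exp.comp
      ((h2 x).add (h2 x')).neg)).ennreal_ofReal
  rw [lintegral_tsum fun y => (hmS y).aemeasurable]
  refine tsum_congr fun y => ?_
  rw [← (hZ y).map_blk hm, lintegral_map (hmS y) (measurable_blkX (hZ y).measurable m)]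
  refine lintegral_congr fun ω => ?_
  have h3 := visR m γ T hx (z := pth (Z y) ω) (y := y) ((hZ y).start ω)
  have h4 := visR m γ T hx' (z := pth (Z y) ω) (y := y) ((hZ y).start ω)
  unfold e1
  rw [ENNReal.toReal_add (ENNReal.mul_ne_top (by simp) (rsum_ne_top _ _ _ _))
    (ENNReal.mul_ne_top (by simp) (rsum_ne_top _ _ _ _)), ← h3, ← h4]
  rfl

end Pool.Agent.Helper83.MobileTraps
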