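import Pool.Agent.Helper83.MobileTraps.Lim2

open MeasureTheory ProbabilityTheory Filter
open scoped ENNReal NNReal Topology

set_option linter.unusedSectionVars false

namespace Pool.Agent.Helper83.MobileTraps

open Pool.Agent.Helper83.Traps

/-! the function `exp (-a)` on `[0,∞]` -/

/-- `exp (-a)` -/
noncomputable def wexp (a : ℝ≥0∞) : ℝ≥0∞ := EReal.exp (-(a : EReal))

lemma continuous_wexp : Continuous wexp :=
  ENNReal.continuous_exp.comp (continuous_neg.comp continuous_coe_ennreal_ereal)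

lemma measurable_wexp : Measurable wexp := continuous_wexp.measurable

lemma wexp_zero : wexp 0 = 1 := by simp [wexp]

lemma wexp_top : wexp ⊤ = 0 := by simp [wexp]

lemma wexp_eq {a : ℝ≥0∞} (ha : a ≠ ⊤) : wexp a = ENNReal.ofReal (Real.exp (-a.toReal)) := by
  unfold wexp
  lift a to ℝ≥0 using ha
  rw [ENNReal.coe_toReal, ← EReal.exp_coe]
  congr 1

lemma wexp_add (a b : ℝ≥0∞) : wexp (a + b) = wexp a * wexp b := by
  by_cases ha : a = ⊤
  · subst ha; simp [wexp_top]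
  by_cases hb : b = ⊤
  · subst hb; simp [wexp_top]
  rw [wexp_eq ha, wexp_eq hb, wexp_eq (ENNReal.add_ne_top.2 ⟨ha, hb⟩), ENNReal.toReal_add ha hb,
    ← ENNReal.ofReal_mul (Real.exp_pos _).le, ← Real.exp_add]
  congr 2; ring

lemma wexp_le_one (a : ℝ≥0∞) : wexp a ≤ 1 := by
  by_cases ha : a = ⊤
  · subst ha; simp [wexp_top]
  rw [wexp_eq ha, ← ENNReal.ofReal_one]
  apply ENNReal.ofReal_le_ofReal
  apply Real.exp_le_one_iff.2
  have : 0 ≤ a.toReal := ENNReal.toReal_nonneg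
  linarith

lemma wexp_sum {ι : Type*} (s : Finset ι) (a : ι → ℝ≥0∞) :
    wexp (∑ i ∈ s, a i) = ∏ i ∈ s, wexp (a i) := by
  classical
  induction s using Finset.induction_on with
  | empty => simp [wexp_zero]
  | insert i s hi ih => rw [Finset.sum_insert hi, Finset.prod_insert hi, wexp_add, ih]

lemma e1_add_wexp {a : ℝ≥0∞} (ha : a ≠ ⊤) : e1 a + wexp a = 1 := by
  unfold e1
  rw [wexp_eq ha, ← ENNReal.ofReal_add (one_sub_exp_nonneg ENNReal.toReal_nonneg)
    (Real.exp_pos _).le]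
  simp

lemma tendsto_wexp {ι : Type*} {l : Filter ι} {F : ι → ℝ≥0∞} {G : ℝ≥0∞} (h : Tendsto F l (𝓝 G)) :
    Tendsto (fun i => wexp (F i)) l (𝓝 (wexp G)) :=
  (continuous_wexp.tendsto G).comp h

variable {d : ℕ} [NeZero d] {Ω : Type*} [MeasurableSpace Ω] {P : Measure Ω}
  [IsProbabilityMeasure P] {ρ : ℝ≥0} {Z : (Fin d → ℤ) → ℝ≥0 → Ω → (Fin d → ℤ)}

lemma lintegral_count_prod {g : (Fin d → ℤ) × Ω → ℝ≥0∞} (hg : Measurable g) :
    ∫⁻ p, g p ∂((Measure.count : Measure (Fin d → ℤ)).prod P) = ∑' y, ∫⁻ ω, g (y, ω) ∂P := by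
  rw [lintegral_prod _ hg.aemeasurable, lintegral_count]

/-- one-path interaction -/
noncomputable def W1 (P : Measure Ω) (Z : (Fin d → ℤ) → ℝ≥0 → Ω → (Fin d → ℤ)) (γ : ℝ≥0) (T : ℕ)
    (x : ℝ≥0 → Fin d → ℤ) : ℝ≥0∞ := ∑' y, ∫⁻ ω, e1 (γ * Lint T x (pth (Z y) ω)) ∂P

/-- two-path interaction -/
noncomputable def W2 (P : Measure Ω) (Z : (Fin d → ℤ) → ℝ≥0 → Ω → (Fin d → ℤ)) (γ : ℝ≥0) (T : ℕ)
    (x x' : ℝ≥0 → Fin d → ℤ) : ℝ≥0∞ :=
  ∑' y, ∫⁻ ω, e1 (γ * Lint T x (pth (Z y) ω) + γ * Lint T x' (pth (Z y) ω)) ∂P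

lemma tendsto_Wf (hZ : ∀ y, IsCTSRW P d ρ y (Z y)) (γ : ℝ≥0) (T : ℕ)
    {x : ℝ≥0 → Fin d → ℤ} (hx : RC x) (hx0 : x 0 = 0) :
    Tendsto (fun m : ℕ => Wf (PP (muB d m ρ)) (γ / m) T (blk m x)) atTop
      (𝓝 (W1 P Z γ T x)) := by
  set F : ℕ → (Fin d → ℤ) × Ω → ℝ≥0∞ := fun m p => γ * rsum m T x (pth (Z p.1) p.2) with hF
  set G : (Fin d → ℤ) × Ω → ℝ≥0∞ := fun p => γ * Lint T x (pth (Z p.1) p.2) with hG
  have hmF : ∀ m, Measurable (F m) := fun m => measurable_from_prod_countable_right fun y =>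
    (measurable_rsum (hZ y).measurable m T x).const_mul _
  have hmG : Measurable G := measurable_from_prod_countable_right fun y =>
    (measurable_Lint (hZ y).measurable (rc_pth (hZ y)) hx T).const_mul _
  have hlim := tendsto_lintegral_e1 ((Measure.count : Measure (Fin d → ℤ)).prod P) hmF hmG
    (fun m p => ENNReal.mul_ne_top (by simp) (rsum_ne_top _ _ _ _))
    (fun p => ENNReal.mul_ne_top (by simp) (Lint_ne_top _ _ _))
    (fun p => ENNReal.Tendsto.const_mul (tendsto_rsum hx (rc_pth (hZ p.1) p.2) T)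
      (Or.inr (by simp)))
    (C := γ * T) (ENNReal.mul_ne_top (by simp) (by simp))
    (by
      filter_upwards [eventually_ge_atTop 1] with m hm
      rw [lintegral_count_prod (hmF m)]
      have : ∀ y, ∫⁻ ω, F m (y, ω) ∂P = γ * ∫⁻ ω, rsum m T x (pth (Z y) ω) ∂P := fun y =>
        lintegral_const_mul _ (measurable_rsum (hZ y).measurable m T x)
      simp only [this]
      rw [ENNReal.tsum_mul_left, mass_rsum hZ hm])
    (by
      rw [lintegral_count_prod hmG]
      have : ∀ y, ∫⁻ ω, G (y, ω) ∂P = γ * ∫⁻ ω, Lint T x (pth (Z y) ω) ∂P := fun y =>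
        lintegral_const_mul _ (measurable_Lint (hZ y).measurable (rc_pth (hZ y)) hx T)
      simp only [this]
      rw [ENNReal.tsum_mul_left, mass_Lint hZ T hx])
  have e2 : ∫⁻ p, e1 (G p) ∂((Measure.count : Measure (Fin d → ℤ)).prod P) = W1 P Z γ T x :=
    lintegral_count_prod (measurable_e1.comp hmG)
  rw [e2] at hlim
  refine hlim.congr' ?_
  filter_upwards [eventually_ge_atTop 1] with m hm
  rw [Wf_eq hZ hm γ T hx0]
  exact lintegral_count_prod (measurable_e1.comp (hmF m))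

lemma tendsto_Wf2 (hZ : ∀ y, IsCTSRW P d ρ y (Z y)) (γ : ℝ≥0) (T : ℕ)
    {x x' : ℝ≥0 → Fin d → ℤ} (hx : RC x) (hx0 : x 0 = 0) (hx' : RC x') (hx0' : x' 0 = 0) :
    Tendsto (fun m : ℕ => Wf2 (PP (muB d m ρ)) (γ / m) T (blk m x) (blk m x')) atTop
      (𝓝 (W2 P Z γ T x x')) := by
  set F : ℕ → (Fin d → ℤ) × Ω → ℝ≥0∞ := fun m p => γ * rsum m T x (pth (Z p.1) p.2) +
    γ * rsum m T x' (pth (Z p.1) p.2) with hF
  set G : (Fin d → ℤ) × Ω → ℝ≥0∞ := fun p => γ * Lint T x (pth (Z p.1) p.2) +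
    γ * Lint T x' (pth (Z p.1) p.2) with hG
  have hm1 : ∀ m x y, Measurable fun ω => (γ : ℝ≥0∞) * rsum m T x (pth (Z y) ω) := fun m x y =>
    (measurable_rsum (hZ y).measurable m T x).const_mul _
  have hm2 : ∀ {x : ℝ≥0 → Fin d → ℤ}, RC x → ∀ y, Measurable fun ω =>
      (γ : ℝ≥0∞) * Lint T x (pth (Z y) ω) := fun hx y =>
    (measurable_Lint (hZ y).measurable (rc_pth (hZ y)) hx T).const_mul _
  have hmF : ∀ m, Measurable (F m) := fun m => measurable_from_prod_countable_right fun y =>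
    (hm1 m x y).add (hm1 m x' y)
  have hmG : Measurable G := measurable_from_prod_countable_right fun y =>
    (hm2 hx y).add (hm2 hx' y)
  have hlim := tendsto_lintegral_e1 ((Measure.count : Measure (Fin d → ℤ)).prod P) hmF hmG
    (fun m p => ENNReal.add_ne_top.2 ⟨ENNReal.mul_ne_top (by simp) (rsum_ne_top _ _ _ _),
      ENNReal.mul_ne_top (by simp) (rsum_ne_top _ _ _ _)⟩)
    (fun p => ENNReal.add_ne_top.2 ⟨ENNReal.mul_ne_top (by simp) (Lint_ne_top _ _ _),
      ENNReal.mul_ne_top (by simp) (Lint_ne_top _ _ _)⟩)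
    (fun p => (ENNReal.Tendsto.const_mul (tendsto_rsum hx (rc_pth (hZ p.1) p.2) T)
      (Or.inr (by simp))).add (ENNReal.Tendsto.const_mul
        (tendsto_rsum hx' (rc_pth (hZ p.1) p.2) T) (Or.inr (by simp))))
    (C := γ * T + γ * T) (by simp [ENNReal.mul_ne_top])
    (by
      filter_upwards [eventually_ge_atTop 1] with m hm
      rw [lintegral_count_prod (hmF m)]
      have : ∀ y, ∫⁻ ω, F m (y, ω) ∂P = γ * ∫⁻ ω, rsum m T x (pth (Z y) ω) ∂P +
          γ * ∫⁻ ω, rsum m T x' (pth (Z y) ω) ∂P := fun y => by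
        simp only [hF]
        rw [lintegral_add_left (hm1 m x y),
          lintegral_const_mul _ (measurable_rsum (hZ y).measurable m T x),
          lintegral_const_mul _ (measurable_rsum (hZ y).measurable m T x')]
      simp only [this]
      rw [ENNReal.tsum_add, ENNReal.tsum_mul_left, ENNReal.tsum_mul_left, mass_rsum hZ hm,
        mass_rsum hZ hm])
    (by
      rw [lintegral_count_prod hmG]
      have : ∀ y, ∫⁻ ω, G (y, ω) ∂P = γ * ∫⁻ ω, Lint T x (pth (Z y) ω) ∂P +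
          γ * ∫⁻ ω, Lint T x' (pth (Z y) ω) ∂P := fun y => by
        simp only [hG]
        rw [lintegral_add_left (hm2 hx y),
          lintegral_const_mul _ (measurable_Lint (hZ y).measurable (rc_pth (hZ y)) hx T),
          lintegral_const_mul _ (measurable_Lint (hZ y).measurable (rc_pth (hZ y)) hx' T)]
      simp only [this]
      rw [ENNReal.tsum_add, ENNReal.tsum_mul_left, ENNReal.tsum_mul_left, mass_Lint hZ T hx,
        mass_Lint hZ T hx'])
  have e2 : ∫⁻ p, e1 (G p) ∂((Measure.count : Measure (Fin d → ℤ)).prod P) = W2 P Z γ T x x' :=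
    lintegral_count_prod (measurable_e1.comp hmG)
  rw [e2] at hlim
  refine hlim.congr' ?_
  filter_upwards [eventually_ge_atTop 1] with m hm
  rw [Wf2_eq hZ hm γ T hx0 hx0']
  exact lintegral_count_prod (measurable_e1.comp (hmF m))

lemma e1_le (F : ℝ≥0∞) : e1 F ≤ F := by
  by_cases hF : F = ⊤
  · subst hF; exact le_top
  · calc e1 F ≤ e1 F + e2 F := le_self_add
      _ = F := e1_add_e2 hF

lemma W1_le (hZ : ∀ y, IsCTSRW P d ρ y (Z y)) (γ : ℝ≥0) (T : ℕ)
    {x : ℝ≥0 → Fin d → ℤ} (hx : RC x) : W1 P Z γ T x ≤ γ * T := by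
  unfold W1
  rw [← mass_Lint hZ T hx, ← ENNReal.tsum_mul_left]
  refine ENNReal.tsum_le_tsum fun y => ?_
  rw [← lintegral_const_mul _ (measurable_Lint (hZ y).measurable (rc_pth (hZ y)) hx T)]
  exact lintegral_mono fun ω => e1_le _

end Pool.Agent.Helper83.MobileTraps
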