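import Pool.Agent.Helper83.MobileTraps.Ann

open MeasureTheory ProbabilityTheory Filter
open scoped ENNReal NNReal Topology

set_option linter.unusedSectionVars false

namespace Pool.Agent.Helper83.MobileTraps

open Pool.Agent.Helper83.Traps

variable {d : ℕ} [NeZero d] {Ω Ω' : Type*} [MeasurableSpace Ω] [MeasurableSpace Ω']
  {P : Measure Ω} {P' : Measure Ω'} [IsProbabilityMeasure P] [IsProbabilityMeasure P']
  {κ ρ ν : ℝ≥0} {N : (Fin d → ℤ) → Ω → ℕ}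
  {Y : (Fin d → ℤ) → ℕ → ℝ≥0 → Ω → (Fin d → ℤ)} {X : ℝ≥0 → Ω' → (Fin d → ℤ)}

/-- survival weight at integer times -/
noncomputable def wt (N : (Fin d → ℤ) → Ω → ℕ) (Y : (Fin d → ℤ) → ℕ → ℝ≥0 → Ω → (Fin d → ℤ))
    (X : ℝ≥0 → Ω' → (Fin d → ℤ)) (γ : ℝ≥0) (T : ℕ) (ω : Ω) (ω' : Ω') : ℝ≥0∞ :=
  weight γ (field N Y ω) T (pth X ω')

lemma measurable_pth {Z : ℝ≥0 → Ω → (Fin d → ℤ)} (hZ : ∀ t, Measurable (Z t)) :
    Measurable (pth Z) := measurable_pi_lambda _ fun t => hZ t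

lemma measurable_wt (hS : IsTrapSystem P d ρ ν N Y) (hX : IsCTSRW P' d κ 0 X) (γ : ℝ≥0) (T : ℕ) :
    Measurable fun p : Ω × Ω' => wt N Y X γ T p.1 p.2 := by
  have h0 : (fun p : Ω × Ω' => wt N Y X γ T p.1 p.2) = fun p : Ω × Ω' =>
      wexp (∑' y, ∑ j ∈ Finset.range (N y p.1),
        γ * Lsup T (pth X p.2) (pth (Y y j) p.1)) := by
    funext p
    unfold wt
    rw [weight_eq hS γ T (rc_pth hX p.2)]
    congr 1
    refine tsum_congr fun y => Finset.sum_congr rfl fun j _ => ?_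
    rw [Lsup_eq (rc_pth hX p.2) (rc_pth (hS.walk y j) p.1)]
  rw [h0]
  refine measurable_wexp.comp (Measurable.tsum fun y => ?_)
  have hj : ∀ j, Measurable fun p : Ω × Ω' => (γ : ℝ≥0∞) *
      Lsup T (pth X p.2) (pth (Y y j) p.1) := by
    intro j
    have e1 : Measurable fun p : Ω × Ω' => (pth X p.2, pth (Y y j) p.1) :=
      ((measurable_pth hX.measurable).comp measurable_snd).prodMk
        ((measurable_pth (hS.walk y j).measurable).comp measurable_fst)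
    exact ((measurable_Lsup' T).comp e1).const_mul _
  have hk : ∀ k : ℕ, Measurable fun p : Ω × Ω' =>
      ∑ j ∈ Finset.range k, (γ : ℝ≥0∞) * Lsup T (pth X p.2) (pth (Y y j) p.1) := fun k =>
    Finset.measurable_fun_sum _ fun j _ => hj j
  have h1 : Measurable fun q : ℕ × (Ω × Ω') => ∑ j ∈ Finset.range q.1,
      (γ : ℝ≥0∞) * Lsup T (pth X q.2.2) (pth (Y y j) q.2.1) :=
    measurable_from_prod_countable_right hk
  have h2 : Measurable fun p : Ω × Ω' => (N y p.1, p) :=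
    ((hS.measN y).comp measurable_fst).prodMk measurable_id
  have h3 := h1.comp h2
  exact h3

lemma wt_le_one (hS : IsTrapSystem P d ρ ν N Y) (hX : IsCTSRW P' d κ 0 X) (γ : ℝ≥0) (T : ℕ)
    (ω : Ω) (ω' : Ω') : wt N Y X γ T ω ω' ≤ 1 := by
  unfold wt
  rw [weight_eq hS γ T (rc_pth hX ω')]
  exact wexp_le_one _

/-- quenched survival probability -/
noncomputable def Zq (P' : Measure Ω') (N : (Fin d → ℤ) → Ω → ℕ)
    (Y : (Fin d → ℤ) → ℕ → ℝ≥0 → Ω → (Fin d → ℤ))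
    (X : ℝ≥0 → Ω' → (Fin d → ℤ)) (γ : ℝ≥0) (T : ℕ) (ω : Ω) : ℝ≥0∞ :=
  ∫⁻ ω', wt N Y X γ T ω ω' ∂P'

lemma measurable_Zq (hS : IsTrapSystem P d ρ ν N Y) (hX : IsCTSRW P' d κ 0 X) (γ : ℝ≥0) (T : ℕ) :
    Measurable (Zq P' N Y X γ T) :=
  (measurable_wt hS hX γ T).lintegral_prod_right'

lemma Zq_le_one (hS : IsTrapSystem P d ρ ν N Y) (hX : IsCTSRW P' d κ 0 X) (γ : ℝ≥0) (T : ℕ)
    (ω : Ω) : Zq P' N Y X γ T ω ≤ 1 := by
  unfold Zq
  calc ∫⁻ ω', wt N Y X γ T ω ω' ∂P' ≤ ∫⁻ _, 1 ∂P' := lintegral_mono fun ω' => wt_le_one hS hX γ T ω ω'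
    _ = 1 := by simp

/-- the sampled one-path weight -/
lemma sv1_eq (m : ℕ) (ν γ : ℝ≥0) (T : ℕ) (b : ℕ → Fin m → Fin d → ℤ) :
    sv1 (PP (muB d m ρ)) ν (γ / m) T b = wexp (ν * Wf (PP (muB d m ρ)) (γ / m) T b) := by
  unfold sv1
  have h : Wf (PP (muB d m ρ)) (γ / m) T b ≠ ⊤ := Wf_ne_top (by positivity) T b
  rw [wexp_eq (ENNReal.mul_ne_top (by simp) h), ENNReal.toReal_mul]
  simp

lemma sv2_eq (m : ℕ) (ν γ : ℝ≥0) (T : ℕ) (b c : ℕ → Fin m → Fin d → ℤ) :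
    sv2 (PP (muB d m ρ)) ν (γ / m) T b c = wexp (ν * Wf2 (PP (muB d m ρ)) (γ / m) T b c) := by
  unfold sv2
  have h : Wf2 (PP (muB d m ρ)) (γ / m) T b c ≠ ⊤ := Wf2_ne_top (by positivity) T b c
  rw [wexp_eq (ENNReal.mul_ne_top (by simp) h), ENNReal.toReal_mul]
  simp

lemma W1_ne_top (hS : IsTrapSystem P d ρ ν N Y) (γ : ℝ≥0) (T : ℕ)
    {x : ℝ≥0 → Fin d → ℤ} (hx : RC x) : W1 P (fun y => Y y 0) γ T x ≠ ⊤ :=
  ne_top_of_le_ne_top (ENNReal.mul_ne_top (by simp) (by simp))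
    (W1_le (fun y => hS.walk y 0) γ T hx)

lemma tendsto_sv1 (hS : IsTrapSystem P d ρ ν N Y) (hX : IsCTSRW P' d κ 0 X) (γ : ℝ≥0) (T : ℕ)
    (ω' : Ω') : Tendsto (fun m : ℕ => sv1 (PP (muB d m ρ)) ν (γ / m) T (blk m (pth X ω'))) atTop
      (𝓝 (wexp (ν * W1 P (fun y => Y y 0) γ T (pth X ω')))) := by
  simp only [sv1_eq]
  refine tendsto_wexp (ENNReal.Tendsto.const_mul ?_ (Or.inr (by simp)))
  exact tendsto_Wf (fun y => hS.walk y 0) γ T (rc_pth hX ω') (hX.start ω')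

lemma tendsto_sv2 (hS : IsTrapSystem P d ρ ν N Y) (hX : IsCTSRW P' d κ 0 X) (γ : ℝ≥0) (T : ℕ)
    (ω' ω'' : Ω') : Tendsto (fun m : ℕ => sv2 (PP (muB d m ρ)) ν (γ / m) T (blk m (pth X ω'))
      (blk m (pth X ω''))) atTop
      (𝓝 (wexp (ν * W2 P (fun y => Y y 0) γ T (pth X ω') (pth X ω'')))) := by
  simp only [sv2_eq]
  refine tendsto_wexp (ENNReal.Tendsto.const_mul ?_ (Or.inr (by simp)))
  exact tendsto_Wf2 (fun y => hS.walk y 0) γ T (rc_pth hX ω') (hX.start ω') (rc_pth hX ω'')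
    (hX.start ω'')

lemma sv1_le_one {m : ℕ} (Q : Measure (ℕ → Fin m → Fin d → ℤ)) (ν β : ℝ) (hν : 0 ≤ ν) (T : ℕ)
    (b : ℕ → Fin m → Fin d → ℤ) : sv1 Q ν β T b ≤ 1 := by
  unfold sv1
  rw [← ENNReal.ofReal_one]
  apply ENNReal.ofReal_le_ofReal
  apply Real.exp_le_one_iff.2
  have : 0 ≤ ν * (Wf Q β T b).toReal := by positivity
  linarith

lemma sv2_le_one {m : ℕ} (Q : Measure (ℕ → Fin m → Fin d → ℤ)) (ν β : ℝ) (hν : 0 ≤ ν) (T : ℕ)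
    (b c : ℕ → Fin m → Fin d → ℤ) : sv2 Q ν β T b c ≤ 1 := by
  unfold sv2
  rw [← ENNReal.ofReal_one]
  apply ENNReal.ofReal_le_ofReal
  apply Real.exp_le_one_iff.2
  have : 0 ≤ ν * (Wf2 Q β T b c).toReal := by positivity
  linarith

lemma measurable_Wf2 {m : ℕ} (Q : Measure (ℕ → Fin m → Fin d → ℤ)) [SFinite Q] (β : ℝ) (T : ℕ) :
    Measurable fun p : (ℕ → Fin m → Fin d → ℤ) × (ℕ → Fin m → Fin d → ℤ) =>
      Wf2 Q β T p.1 p.2 := by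
  have h1 : Measurable fun q : ((ℕ → Fin m → Fin d → ℤ) × (ℕ → Fin m → Fin d → ℤ)) ×
      (ℕ → Fin m → Fin d → ℤ) => (q.1.1 - q.2, q.1.2 - q.2) :=
    ((measurable_fst.comp measurable_fst).sub measurable_snd).prodMk
      ((measurable_snd.comp measurable_fst).sub measurable_snd)
  have h2 := (measurable_Phi2 (d := d) (m := m) β T).comp h1
  exact Measurable.lintegral_prod_right' h2

lemma measurable_sv2 {m : ℕ} (Q : Measure (ℕ → Fin m → Fin d → ℤ)) [SFinite Q] (ν β : ℝ) (T : ℕ) :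
    Measurable fun p : (ℕ → Fin m → Fin d → ℤ) × (ℕ → Fin m → Fin d → ℤ) =>
      sv2 Q ν β T p.1 p.2 :=
  (Real.measurable_exp.comp
    (((measurable_Wf2 Q β T).ennreal_toReal.const_mul ν).neg)).ennreal_ofReal

/-- averaged one-path weight in terms of the walk -/
lemma E1_eq_walk (hX : IsCTSRW P' d κ 0 X) (ν γ : ℝ≥0) (T : ℕ) {m : ℕ} (hm : 1 ≤ m) :
    E1 (PP (muB d m ρ)) (muB d m κ) ν (γ / m) T =
      ∫⁻ ω', sv1 (PP (muB d m ρ)) ν (γ / m) T (blk m (pth X ω')) ∂P' := by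
  unfold E1
  rw [← hX.map_blk hm, lintegral_map (measurable_sv1 _ _ T) (measurable_blkX hX.measurable m)]
  rfl

/-- averaged quenched survival probability -/
noncomputable def EZ (P : Measure Ω) (P' : Measure Ω') (N : (Fin d → ℤ) → Ω → ℕ)
    (Y : (Fin d → ℤ) → ℕ → ℝ≥0 → Ω → (Fin d → ℤ))
    (X : ℝ≥0 → Ω' → (Fin d → ℤ)) (γ : ℝ≥0) (T : ℕ) : ℝ≥0∞ := ∫⁻ ω, Zq P' N Y X γ T ω ∂P

lemma EZ_eq (hS : IsTrapSystem P d ρ ν N Y) (hX : IsCTSRW P' d κ 0 X) (γ : ℝ≥0) (T : ℕ) :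
    EZ P P' N Y X γ T = ∫⁻ ω', wexp (ν * W1 P (fun y => Y y 0) γ T (pth X ω')) ∂P' := by
  unfold EZ Zq
  rw [lintegral_lintegral_swap (measurable_wt hS hX γ T).aemeasurable]
  exact lintegral_congr fun ω' => annealed_one hS γ T (rc_pth hX ω')

lemma tendsto_E1 (hS : IsTrapSystem P d ρ ν N Y) (hX : IsCTSRW P' d κ 0 X) (γ : ℝ≥0) (T : ℕ) :
    Tendsto (fun m : ℕ => E1 (PP (muB d m ρ)) (muB d m κ) ν (γ / m) T) atTop
      (𝓝 (EZ P P' N Y X γ T)) := by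
  rw [EZ_eq hS hX]
  have h1 : Tendsto (fun m : ℕ =>
      ∫⁻ ω', sv1 (PP (muB d m ρ)) ν (γ / m) T (blk m (pth X ω')) ∂P') atTop
      (𝓝 (∫⁻ ω', wexp (ν * W1 P (fun y => Y y 0) γ T (pth X ω')) ∂P')) := by
    refine tendsto_lintegral_of_dominated_convergence (fun _ => 1) (fun m => ?_) (fun m => ?_)
      (by simp) ?_
    · exact (measurable_sv1 _ _ T).comp (measurable_blkX hX.measurable m)
    · exact ae_of_all _ fun ω' => sv1_le_one _ _ _ ν.2 T _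
    · exact ae_of_all _ fun ω' => tendsto_sv1 hS hX γ T ω'
  refine h1.congr' ?_
  filter_upwards [eventually_ge_atTop 1] with m hm
  exact (E1_eq_walk hX ν γ T hm).symm

lemma EZ_pos (hS : IsTrapSystem P d ρ ν N Y) (hX : IsCTSRW P' d κ 0 X) (γ : ℝ≥0) (T : ℕ) :
    EZ P P' N Y X γ T ≠ 0 := by
  rw [EZ_eq hS hX]
  have h1 : ∀ ω', wexp (ν * (γ * T)) ≤ wexp (ν * W1 P (fun y => Y y 0) γ T (pth X ω')) := by
    intro ω'
    have h2 := W1_le (fun y => hS.walk y 0) γ T (rc_pth hX ω')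
    have h3 : (ν : ℝ≥0∞) * W1 P (fun y => Y y 0) γ T (pth X ω') ≤ ν * (γ * T) :=
      mul_le_mul' le_rfl h2
    unfold wexp
    apply EReal.exp_monotone
    rw [EReal.neg_le_neg_iff]
    exact_mod_cast h3
  have h4 : wexp (ν * (γ * T)) ≤ ∫⁻ ω', wexp (ν * W1 P (fun y => Y y 0) γ T (pth X ω')) ∂P' := by
    calc wexp (ν * (γ * T)) = ∫⁻ _, wexp (ν * (γ * T)) ∂P' := by simp
      _ ≤ _ := lintegral_mono h1
  have h5 : wexp (ν * (γ * T)) ≠ 0 := by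
    rw [wexp_eq (ENNReal.mul_ne_top (by simp) (ENNReal.mul_ne_top (by simp) (by simp)))]
    simp only [ne_eq, ENNReal.ofReal_eq_zero, not_le]
    exact Real.exp_pos _
  intro h6
  rw [h6] at h4
  exact h5 (le_antisymm h4 zero_le)

lemma EZ_le_one (hS : IsTrapSystem P d ρ ν N Y) (hX : IsCTSRW P' d κ 0 X) (γ : ℝ≥0) (T : ℕ) :
    EZ P P' N Y X γ T ≤ 1 := by
  unfold EZ
  calc ∫⁻ ω, Zq P' N Y X γ T ω ∂P ≤ ∫⁻ _, 1 ∂P := lintegral_mono fun ω => Zq_le_one hS hX γ T ω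
    _ = 1 := by simp

end Pool.Agent.Helper83.MobileTraps
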