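import Pool.Agent.Helper83.MobileTraps.Main1

open MeasureTheory ProbabilityTheory Filter
open scoped ENNReal NNReal Topology

set_option linter.unusedSectionVars false

namespace Pool.Agent.Helper83.MobileTraps

open Pool.Agent.Helper83.Traps

variable {d : ℕ} [NeZero d] {Ω Ω' : Type*} [MeasurableSpace Ω] [MeasurableSpace Ω']
  {P : Measure Ω} {P' : Measure Ω'} [IsProbabilityMeasure P] [IsProbabilityMeasure P']
  {κ ρ ν : ℝ≥0} {N : (Fin d → ℤ) → Ω → ℕ}
  {Y : (Fin d → ℤ) → ℕ → ℝ≥0 → Ω → (Fin d → ℤ)} {X : ℝ≥0 → Ω' → (Fin d → ℤ)}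

lemma measurable_wt_left (hS : IsTrapSystem P d ρ ν N Y) (hX : IsCTSRW P' d κ 0 X) (γ : ℝ≥0)
    (T : ℕ) (ω : Ω) : Measurable fun ω' => wt N Y X γ T ω ω' := by
  have h1 : Measurable fun ω' : Ω' => (ω, ω') := measurable_const.prodMk measurable_id
  have h2 := (measurable_wt hS hX γ T).comp h1
  exact h2

/-- second moment of the quenched survival probability -/
lemma second_moment_eq (hS : IsTrapSystem P d ρ ν N Y) (hX : IsCTSRW P' d κ 0 X) (γ : ℝ≥0)
    (T : ℕ) : ∫⁻ ω, Zq P' N Y X γ T ω * Zq P' N Y X γ T ω ∂P =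
      ∫⁻ ω'', ∫⁻ ω', wexp (ν * W2 P (fun y => Y y 0) γ T (pth X ω') (pth X ω'')) ∂P' ∂P' := by
  have hw := measurable_wt hS hX (P' := P') γ T
  have h1 : ∀ ω, Zq P' N Y X γ T ω * Zq P' N Y X γ T ω =
      ∫⁻ ω'', ∫⁻ ω', wt N Y X γ T ω ω' * wt N Y X γ T ω ω'' ∂P' ∂P' := by
    intro ω
    have hl := measurable_wt_left hS hX γ T ω
    unfold Zq
    rw [← lintegral_const_mul _ hl]
    refine lintegral_congr fun ω'' => ?_
    rw [lintegral_mul_const _ hl]
  simp only [h1]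
  -- exchange of the integrals
  have hm3 : Measurable fun p : (Ω × Ω') × Ω' =>
      wt N Y X γ T p.1.1 p.2 * wt N Y X γ T p.1.1 p.1.2 := by
    have e1 : Measurable fun p : (Ω × Ω') × Ω' => (p.1.1, p.2) :=
      (measurable_fst.comp measurable_fst).prodMk measurable_snd
    have e2 : Measurable fun p : (Ω × Ω') × Ω' => (p.1.1, p.1.2) :=
      (measurable_fst.comp measurable_fst).prodMk (measurable_snd.comp measurable_fst)
    have e3 := hw.comp e1
    have e4 := hw.comp e2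
    exact e3.mul e4
  have hm4 : Measurable fun p : Ω × Ω' =>
      ∫⁻ ω', wt N Y X γ T p.1 ω' * wt N Y X γ T p.1 p.2 ∂P' := hm3.lintegral_prod_right'
  rw [lintegral_lintegral_swap hm4.aemeasurable]
  refine lintegral_congr fun ω'' => ?_
  have hm5 : Measurable fun p : Ω × Ω' => wt N Y X γ T p.1 p.2 * wt N Y X γ T p.1 ω'' := by
    have e1 : Measurable fun p : Ω × Ω' => (p.1, ω'') := measurable_fst.prodMk measurable_const
    have e2 := hw.comp e1
    exact hw.mul e2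
  rw [lintegral_lintegral_swap hm5.aemeasurable]
  exact lintegral_congr fun ω' => annealed_two hS γ T (rc_pth hX ω') (rc_pth hX ω'')

/-- Hypotheses collecting the constants of the weak disorder regime. -/
structure Weak (d : ℕ) [NeZero d] (κ ρ ν γ : ℝ≥0) (θ CX CY CY2 C0 : ℝ) : Prop where
  trunc : TruncC C0
  walk : ∀ m : ℕ, 1 ≤ m → WalkLaw (muB d m κ) (κ : ℝ≥0∞) CX
  trap : ∀ m : ℕ, 1 ≤ m → TrapLaw (PP (muB d m ρ)) CY CY2
  par : ∀ m : ℕ, 1 ≤ m → Par m (ν : ℝ) (γ : ℝ) θ CY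
  eta : 12 * (ENNReal.ofReal (4 * θ * (Cone CX C0 + CY)) * zet) ≤ 1

variable {γ : ℝ≥0} {θ CX CY CY2 C0 : ℝ}

/-- **E[Z^2] ≤ 2 E[Z]^2** -/
lemma second_moment (hS : IsTrapSystem P d ρ ν N Y) (hX : IsCTSRW P' d κ 0 X)
    (hW : Weak d κ ρ ν γ θ CX CY CY2 C0) (T : ℕ) :
    ∫⁻ ω, Zq P' N Y X γ T ω * Zq P' N Y X γ T ω ∂P ≤ 2 * EZ P P' N Y X γ T ^ 2 := by
  rw [second_moment_eq hS hX]
  have hmblk : ∀ m : ℕ, Measurable fun ω' : Ω' => blk m (pth X ω') := fun m =>
    measurable_blkX hX.measurable m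
  have hmsv : ∀ m : ℕ, Measurable fun p : Ω' × Ω' =>
      sv2 (PP (muB d m ρ)) ν (γ / m) T (blk m (pth X p.2)) (blk m (pth X p.1)) := by
    intro m
    have e1 : Measurable fun p : Ω' × Ω' => (blk m (pth X p.2), blk m (pth X p.1)) :=
      ((hmblk m).comp measurable_snd).prodMk ((hmblk m).comp measurable_fst)
    have e2 := (measurable_sv2 (PP (muB d m ρ)) (ν : ℝ) (γ / m) T).comp e1
    exact e2
  have hlim : Tendsto (fun m : ℕ => ∫⁻ p : Ω' × Ω',
      sv2 (PP (muB d m ρ)) ν (γ / m) T (blk m (pth X p.2)) (blk m (pth X p.1)) ∂(P'.prod P'))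
      atTop (𝓝 (∫⁻ p : Ω' × Ω',
        wexp (ν * W2 P (fun y => Y y 0) γ T (pth X p.2) (pth X p.1)) ∂(P'.prod P'))) := by
    refine tendsto_lintegral_of_dominated_convergence (fun _ => 1) (fun m => hmsv m)
      (fun m => ?_) (by simp) ?_
    · exact ae_of_all _ fun p => sv2_le_one _ _ _ ν.2 T _ _
    · exact ae_of_all _ fun p => tendsto_sv2 hS hX γ T p.2 p.1
  have hmlim : Measurable fun p : Ω' × Ω' =>
      wexp (ν * W2 P (fun y => Y y 0) γ T (pth X p.2) (pth X p.1)) := by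
    refine measurable_of_tendsto_metrizable (hmsv) ?_
    rw [tendsto_pi_nhds]
    exact fun p => tendsto_sv2 hS hX γ T p.2 p.1
  rw [lintegral_prod _ hmlim.aemeasurable] at hlim
  have hE1 := tendsto_E1 hS hX γ T
  have hE2 : Tendsto (fun m : ℕ => 2 * E1 (PP (muB d m ρ)) (muB d m κ) ν (γ / m) T ^ 2) atTop
      (𝓝 (2 * EZ P P' N Y X γ T ^ 2)) := by
    have hfin : EZ P P' N Y X γ T ≠ ⊤ :=
      ne_top_of_le_ne_top ENNReal.one_ne_top (EZ_le_one hS hX γ T)
    exact ENNReal.Tendsto.const_mul (ENNReal.Tendsto.pow hE1) (Or.inr (by simp))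
  refine le_of_tendsto_of_tendsto hlim hE2 ?_
  filter_upwards [eventually_ge_atTop 1] with m hm
  rw [lintegral_prod _ (hmsv m).aemeasurable]
  have hmap : P'.map (fun ω' => blk m (pth X ω')) = PP (muB d m κ) := hX.map_blk hm
  have hd := disc_second (hW.trap m hm) (hW.par m hm) (hW.walk m hm) hW.trunc hW.eta T
  refine le_trans (le_of_eq ?_) hd
  have hin : ∀ c : ℕ → Fin m → Fin d → ℤ,
      ∫⁻ b, sv2 (PP (muB d m ρ)) ν (γ / m) T b c ∂PP (muB d m κ) =
      ∫⁻ ω', sv2 (PP (muB d m ρ)) ν (γ / m) T (blk m (pth X ω')) c ∂P' := by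
    intro c
    have e1 : Measurable fun b : ℕ → Fin m → Fin d → ℤ =>
        sv2 (PP (muB d m ρ)) (ν : ℝ) (γ / m) T b c := by
      have e2 : Measurable fun b : ℕ → Fin m → Fin d → ℤ => (b, c) :=
        measurable_id.prodMk measurable_const
      have e3 := (measurable_sv2 (PP (muB d m ρ)) (ν : ℝ) (γ / m) T).comp e2
      exact e3
    rw [← hmap, lintegral_map e1 (hmblk m)]
  simp only [hin]
  have e4 : Measurable fun c : ℕ → Fin m → Fin d → ℤ =>
      ∫⁻ ω', sv2 (PP (muB d m ρ)) (ν : ℝ) (γ / m) T (blk m (pth X ω')) c ∂P' := by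
    have e5 : Measurable fun p : (ℕ → Fin m → Fin d → ℤ) × Ω' => (blk m (pth X p.2), p.1) :=
      ((hmblk m).comp measurable_snd).prodMk measurable_fst
    have e6 := (measurable_sv2 (PP (muB d m ρ)) (ν : ℝ) (γ / m) T).comp e5
    exact Measurable.lintegral_prod_right' e6
  rw [← hmap, lintegral_map e4 (hmblk m)]

/-- **E[Z |X_T|^2] ≤ C T E[Z]** -/
lemma moment_bound (hS : IsTrapSystem P d ρ ν N Y) (hX : IsCTSRW P' d κ 0 X)
    (hW : Weak d κ ρ ν γ θ CX CY CY2 C0) (T : ℕ) :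
    ∫⁻ ω, ∫⁻ ω', (nsq (X T ω') : ℝ≥0∞) * wt N Y X γ T ω ω' ∂P' ∂P ≤
      (112 * κ + 6 * ENNReal.ofReal CY2) * T * EZ P P' N Y X γ T := by
  have hw := measurable_wt hS hX (P' := P') γ T
  have hmn : Measurable fun ω' => (nsq (X T ω') : ℝ≥0∞) := meas_nsq' (hX.measurable T)
  have hmj : Measurable fun p : Ω × Ω' => (nsq (X T p.2) : ℝ≥0∞) * wt N Y X γ T p.1 p.2 :=
    (hmn.comp measurable_snd).mul hw
  rw [lintegral_lintegral_swap hmj.aemeasurable]
  have h1 : ∀ ω', ∫⁻ ω, (nsq (X T ω') : ℝ≥0∞) * wt N Y X γ T ω ω' ∂P =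
      (nsq (X T ω') : ℝ≥0∞) * wexp (ν * W1 P (fun y => Y y 0) γ T (pth X ω')) := by
    intro ω'
    have e1 : Measurable fun ω : Ω => wt N Y X γ T ω ω' := by
      have e2 : Measurable fun ω : Ω => (ω, ω') := measurable_id.prodMk measurable_const
      have e3 := hw.comp e2
      exact e3
    rw [lintegral_const_mul _ e1]
    congr 1
    exact annealed_one hS γ T (rc_pth hX ω')
  simp only [h1]
  have hmm : ∀ m : ℕ, Measurable fun ω' => (nsq (X T ω') : ℝ≥0∞) *
      sv1 (PP (muB d m ρ)) ν (γ / m) T (blk m (pth X ω')) := fun m =>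
    hmn.mul ((measurable_sv1 _ _ T).comp (measurable_blkX hX.measurable m))
  have hfatou : ∫⁻ ω', (nsq (X T ω') : ℝ≥0∞) *
      wexp (ν * W1 P (fun y => Y y 0) γ T (pth X ω')) ∂P' ≤
      liminf (fun m : ℕ => ∫⁻ ω', (nsq (X T ω') : ℝ≥0∞) *
        sv1 (PP (muB d m ρ)) ν (γ / m) T (blk m (pth X ω')) ∂P') atTop := by
    refine le_trans (le_of_eq ?_) (lintegral_liminf_le hmm)
    refine lintegral_congr fun ω' => ?_
    have := ENNReal.Tendsto.const_mul (a := (nsq (X T ω') : ℝ≥0∞))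
      (tendsto_sv1 hS hX γ T ω') (Or.inr (by simp))
    exact this.liminf_eq.symm
  refine hfatou.trans ?_
  have hlim : Tendsto (fun m : ℕ => (112 * κ + 6 * ENNReal.ofReal CY2) * T *
      E1 (PP (muB d m ρ)) (muB d m κ) ν (γ / m) T) atTop
      (𝓝 ((112 * κ + 6 * ENNReal.ofReal CY2) * T * EZ P P' N Y X γ T)) :=
    ENNReal.Tendsto.const_mul (tendsto_E1 hS hX γ T) (Or.inr (by
      refine ENNReal.mul_ne_top (ENNReal.add_ne_top.2 ⟨?_, ?_⟩) (by simp)
      · exact ENNReal.mul_ne_top (by simp) (by simp)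
      · exact ENNReal.mul_ne_top (by simp) (by simp)))
  rw [← hlim.liminf_eq]
  refine liminf_le_liminf ?_
  filter_upwards [eventually_ge_atTop 1] with m hm
  have hd := disc_diffusive (hW.trap m hm) (hW.par m hm) (hW.walk m hm) T
  refine le_trans (le_of_eq ?_) hd
  have e1 : Measurable fun b : ℕ → Fin m → Fin d → ℤ =>
      (nsq (∑ k ∈ Finset.range T, del (b k)) : ℝ≥0∞) * sv1 (PP (muB d m ρ)) ν (γ / m) T b :=
    (meas_nsq' (Finset.measurable_fun_sum _ fun k _ =>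
      measurable_del.comp (measurable_pi_apply k))).mul (measurable_sv1 _ _ T)
  have hmap : P'.map (fun ω' => blk m (pth X ω')) = PP (muB d m κ) := hX.map_blk hm
  have hmblk : Measurable fun ω' : Ω' => blk m (pth X ω') := measurable_blkX hX.measurable m
  rw [← hmap, lintegral_map e1 hmblk]
  refine lintegral_congr fun ω' => ?_
  have h2 : ∑ k ∈ Finset.range T, del (blk m (pth X ω') k) = X T ω' := by
    rw [sum_del_blk, gt_mul hm]
    unfold pth
    rw [hX.start ω', sub_zero]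
  rw [h2]

end Pool.Agent.Helper83.MobileTraps
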