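import Pool.Agent.Helper83.MobileTraps.Main2

open MeasureTheory ProbabilityTheory Filter
open scoped ENNReal NNReal Topology

set_option linter.unusedSectionVars false

namespace Pool.Agent.Helper83.MobileTraps

open Pool.Agent.Helper83.Traps

section CS
variable {Ω : Type*} [MeasurableSpace Ω] {P : Measure Ω}

/-- Cauchy–Schwarz on an event -/
lemma cs_event (f : Ω → ℝ≥0∞) (hf : Measurable f) {G : Set Ω} (hG : MeasurableSet G) :
    (∫⁻ ω in G, f ω ∂P) ^ 2 ≤ (∫⁻ ω, f ω * f ω ∂P) * P G := by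
  have h := ENNReal.lintegral_mul_le_Lp_mul_Lq P (Real.HolderConjugate.two_two) hf.aemeasurable
    ((measurable_const.indicator hG : Measurable (G.indicator fun _ => (1 : ℝ≥0∞))).aemeasurable)
  have h1 : ∫⁻ ω, (f * G.indicator fun _ => (1 : ℝ≥0∞)) ω ∂P = ∫⁻ ω in G, f ω ∂P := by
    rw [← lintegral_indicator hG]
    refine lintegral_congr fun ω => ?_
    by_cases hω : ω ∈ G <;> simp [hω]
  have h2 : ∫⁻ ω, f ω ^ (2 : ℝ) ∂P = ∫⁻ ω, f ω * f ω ∂P := by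
    refine lintegral_congr fun ω => ?_
    rw [ENNReal.rpow_two, sq]
  have h3 : ∫⁻ ω, (G.indicator (fun _ => (1 : ℝ≥0∞)) ω) ^ (2 : ℝ) ∂P = P G := by
    rw [← lintegral_indicator_one hG]
    refine lintegral_congr fun ω => ?_
    by_cases hω : ω ∈ G <;> simp [hω]
  rw [h1, h2, h3, ← ENNReal.mul_rpow_of_nonneg _ _ (by norm_num)] at h
  have h4 := pow_le_pow_left' h 2
  rw [← ENNReal.rpow_two, ← ENNReal.rpow_two, ← ENNReal.rpow_mul] at h4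
  norm_num at h4
  exact h4

end CS

lemma len_sq {d : ℕ} (x : Fin d → ℤ) : len x ^ 2 = (nsq x : ℝ) := by
  unfold len
  rw [Real.sq_sqrt (Finset.sum_nonneg fun i _ => sq_nonneg _)]
  have := nsq_cast x
  have h2 : ((nsq x : ℤ) : ℝ) = ((∑ i, x i ^ 2 : ℤ) : ℝ) := by rw [this]
  push_cast at h2
  exact h2.symm

lemma len_nonneg {d : ℕ} (x : Fin d → ℤ) : 0 ≤ len x := Real.sqrt_nonneg _

variable {d : ℕ} [NeZero d] {Ω Ω' : Type*} [MeasurableSpace Ω] [MeasurableSpace Ω']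
  {P : Measure Ω} {P' : Measure Ω'} [IsProbabilityMeasure P] [IsProbabilityMeasure P']
  {κ ρ ν : ℝ≥0} {N : (Fin d → ℤ) → Ω → ℕ}
  {Y : (Fin d → ℤ) → ℕ → ℝ≥0 → Ω → (Fin d → ℤ)} {X : ℝ≥0 → Ω' → (Fin d → ℤ)}
  {γ : ℝ≥0} {θ CX CY CY2 C0 : ℝ}

/-- the set of good trajectories at time `T` -/
def Near (X : ℝ≥0 → Ω' → (Fin d → ℤ)) (M : ℝ) (T : ℕ) : Set Ω' :=
  {ω' | len (X T ω') ≤ M * Real.sqrt ((T : ℝ≥0) : ℝ)}

lemma measurableSet_Near (hX : IsCTSRW P' d κ 0 X) (M : ℝ) (T : ℕ) :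
    MeasurableSet (Near X M T) := by
  have h : Measurable fun ω' => len (X T ω') := by
    have h1 : Measurable (len : (Fin d → ℤ) → ℝ) := Measurable.of_discrete
    exact h1.comp (hX.measurable T)
  exact measurableSet_le h measurable_const

/-- part of the quenched survival probability carried by an event -/
noncomputable def ZA (P' : Measure Ω') (N : (Fin d → ℤ) → Ω → ℕ)
    (Y : (Fin d → ℤ) → ℕ → ℝ≥0 → Ω → (Fin d → ℤ))
    (X : ℝ≥0 → Ω' → (Fin d → ℤ)) (γ : ℝ≥0) (T : ℕ) (A : Set Ω') (ω : Ω) : ℝ≥0∞ :=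
  ∫⁻ ω' in A, wt N Y X γ T ω ω' ∂P'

lemma measurable_ZA (hS : IsTrapSystem P d ρ ν N Y) (hX : IsCTSRW P' d κ 0 X) (γ : ℝ≥0) (T : ℕ)
    (A : Set Ω') : Measurable (ZA P' N Y X γ T A) :=
  (measurable_wt hS hX γ T).lintegral_prod_right' (ν := P'.restrict A)

lemma ZA_add_compl {A : Set Ω'} (hA : MeasurableSet A) (T : ℕ) (ω : Ω) :
    ZA P' N Y X γ T A ω + ZA P' N Y X γ T Aᶜ ω = Zq P' N Y X γ T ω :=
  lintegral_add_compl _ hA

/-- the diffusive constant -/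
noncomputable def cdiff (κ : ℝ≥0) (CY2 : ℝ) : ℝ≥0∞ := 112 * κ + 6 * ENNReal.ofReal CY2

lemma cdiff_ne_top (κ : ℝ≥0) (CY2 : ℝ) : cdiff κ CY2 ≠ ⊤ := by
  unfold cdiff
  refine ENNReal.add_ne_top.2 ⟨?_, ?_⟩
  · exact ENNReal.mul_ne_top (by simp) (by simp)
  · exact ENNReal.mul_ne_top (by simp) (by simp)

noncomputable def Mdiff (κ : ℝ≥0) (CY2 : ℝ) : ℝ := Real.sqrt (4 * ((cdiff κ CY2).toReal + 1))

/-- the far part of the survival probability is at most a quarter -/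
lemma far_part (hS : IsTrapSystem P d ρ ν N Y) (hX : IsCTSRW P' d κ 0 X)
    (hW : Weak d κ ρ ν γ θ CX CY CY2 C0) {T : ℕ} (hT : 1 ≤ T) :
    4 * ∫⁻ ω, ZA P' N Y X γ T (Near X (Mdiff κ CY2) T)ᶜ ω ∂P ≤ EZ P P' N Y X γ T := by
  set c : ℝ≥0∞ := cdiff κ CY2 with hc
  set M := Mdiff κ CY2 with hM
  have hcm : c ≠ ⊤ := cdiff_ne_top κ CY2
  have hmb := moment_bound hS hX hW T
  have hA := measurableSet_Near hX M T
  have hM2 : M ^ 2 = 4 * (c.toReal + 1) := by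
    rw [hM]; unfold Mdiff; rw [Real.sq_sqrt (by positivity)]
  have h1 : ∀ ω, 4 * (c + 1) * T * ZA P' N Y X γ T (Near X M T)ᶜ ω ≤
      ∫⁻ ω', (nsq (X T ω') : ℝ≥0∞) * wt N Y X γ T ω ω' ∂P' := by
    intro ω
    unfold ZA
    rw [← lintegral_const_mul _ (measurable_wt_left hS hX γ T ω)]
    refine le_trans ?_ (setLIntegral_le_lintegral (Near X M T)ᶜ _)
    refine setLIntegral_mono' hA.compl fun ω' hω' => ?_
    refine mul_le_mul' ?_ le_rfl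
    have h2 : M * Real.sqrt ((T : ℝ≥0) : ℝ) < len (X T ω') := by
      unfold Near at hω'
      simpa using hω'
    have h3 : (M * Real.sqrt ((T : ℝ≥0) : ℝ)) ^ 2 < len (X T ω') ^ 2 :=
      pow_lt_pow_left₀ h2 (by rw [hM]; unfold Mdiff; positivity) (by norm_num)
    rw [mul_pow, hM2, len_sq, Real.sq_sqrt (by positivity)] at h3
    have h4 : 4 * (c + 1) * T = ENNReal.ofReal (4 * (c.toReal + 1) * ((T : ℝ≥0) : ℝ)) := by
      rw [ENNReal.ofReal_mul (by positivity), ENNReal.ofReal_mul (by positivity),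
        ENNReal.ofReal_add (by positivity) (by norm_num), ENNReal.ofReal_toReal hcm]
      simp
    rw [h4, ← ENNReal.ofReal_natCast]
    exact ENNReal.ofReal_le_ofReal h3.le
  have h5 : 4 * (c + 1) * T * ∫⁻ ω, ZA P' N Y X γ T (Near X M T)ᶜ ω ∂P ≤
      c * T * EZ P P' N Y X γ T := by
    rw [← lintegral_const_mul _ (measurable_ZA hS hX γ T _)]
    exact (lintegral_mono h1).trans hmb
  have hT0 : (T : ℝ≥0∞) ≠ 0 := by
    have : T ≠ 0 := by omega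
    exact_mod_cast this
  have h6 : ((c + 1) * T) * (4 * ∫⁻ ω, ZA P' N Y X γ T (Near X M T)ᶜ ω ∂P) ≤
      ((c + 1) * T) * EZ P P' N Y X γ T := by
    calc _ = 4 * (c + 1) * T * ∫⁻ ω, ZA P' N Y X γ T (Near X M T)ᶜ ω ∂P := by ring
      _ ≤ c * T * EZ P P' N Y X γ T := h5
      _ ≤ ((c + 1) * T) * EZ P P' N Y X γ T := by
        gcongr
        exact le_self_add
  refine (ENNReal.mul_le_mul_iff_right ?_ ?_).1 h6
  · exact mul_ne_zero (by simp) hT0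
  · exact ENNReal.mul_ne_top (ENNReal.add_ne_top.2 ⟨hcm, by simp⟩) (by simp)

/-- good environments at time `T` -/
def Good (P' : Measure Ω') (N : (Fin d → ℤ) → Ω → ℕ)
    (Y : (Fin d → ℤ) → ℕ → ℝ≥0 → Ω → (Fin d → ℤ))
    (X : ℝ≥0 → Ω' → (Fin d → ℤ)) (γ : ℝ≥0) (M : ℝ) (T : ℕ) : Set Ω :=
  {ω | Zq P' N Y X γ T ω ≤ 2 * ZA P' N Y X γ T (Near X M T) ω ∧ Zq P' N Y X γ T ω ≠ 0}

lemma measurableSet_Good (hS : IsTrapSystem P d ρ ν N Y) (hX : IsCTSRW P' d κ 0 X) (γ : ℝ≥0)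
    (M : ℝ) (T : ℕ) : MeasurableSet (Good P' N Y X γ M T) := by
  have h1 : MeasurableSet {ω | Zq P' N Y X γ T ω ≤ 2 * ZA P' N Y X γ T (Near X M T) ω} :=
    measurableSet_le (measurable_Zq hS hX γ T) ((measurable_ZA hS hX γ T _).const_mul _)
  have h2 : MeasurableSet {ω | Zq P' N Y X γ T ω ≠ 0} :=
    (measurable_Zq hS hX γ T (measurableSet_singleton 0)).compl
  exact h1.inter h2

lemma good_prob (hS : IsTrapSystem P d ρ ν N Y) (hX : IsCTSRW P' d κ 0 X)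
    (hW : Weak d κ ρ ν γ θ CX CY CY2 C0) {T : ℕ} (hT : 1 ≤ T) :
    1 / 8 ≤ P (Good P' N Y X γ (Mdiff κ CY2) T) := by
  set M := Mdiff κ CY2 with hM
  set G := Good P' N Y X γ M T with hG
  set E := EZ P P' N Y X γ T with hE
  have hGm : MeasurableSet G := measurableSet_Good hS hX γ M T
  have hZm := measurable_Zq (P' := P') hS hX γ T
  have hE0 : E ≠ 0 := EZ_pos hS hX γ T
  have hE1 : E ≠ ⊤ := ne_top_of_le_ne_top ENNReal.one_ne_top (EZ_le_one hS hX γ T)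
  have hA := measurableSet_Near hX M T
  -- off `G` the survival probability is mostly far
  have h1 : 2 * ∫⁻ ω in Gᶜ, Zq P' N Y X γ T ω ∂P ≤ E := by
    refine le_trans ?_ (far_part hS hX hW hT)
    have h2 : ∫⁻ ω in Gᶜ, Zq P' N Y X γ T ω ∂P ≤
        2 * ∫⁻ ω, ZA P' N Y X γ T (Near X M T)ᶜ ω ∂P := by
      rw [← lintegral_const_mul _ (measurable_ZA hS hX γ T _)]
      refine le_trans ?_ (setLIntegral_le_lintegral Gᶜ _)
      refine setLIntegral_mono' hGm.compl fun ω hω => ?_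
      have h3 := ZA_add_compl (P' := P') (N := N) (Y := Y) (X := X) (γ := γ) hA T ω
      by_cases h4 : Zq P' N Y X γ T ω = 0
      · rw [h4]; exact zero_le
      · have h5 : 2 * ZA P' N Y X γ T (Near X M T) ω < Zq P' N Y X γ T ω := by
          rw [hG] at hω
          simp only [Good, Set.mem_compl_iff, Set.mem_ofPred_eq, not_and_or, not_not] at hω
          rcases hω with h | h
          · exact not_le.1 h
          · exact absurd h h4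
        have h6 : ZA P' N Y X γ T (Near X M T) ω < ZA P' N Y X γ T (Near X M T)ᶜ ω := by
          rw [← h3, two_mul] at h5
          exact lt_of_add_lt_add_left h5
        rw [← h3, two_mul]
        gcongr
    calc 2 * ∫⁻ ω in Gᶜ, Zq P' N Y X γ T ω ∂P ≤
        2 * (2 * ∫⁻ ω, ZA P' N Y X γ T (Near X M T)ᶜ ω ∂P) := by gcongr
      _ = 4 * ∫⁻ ω, ZA P' N Y X γ T (Near X M T)ᶜ ω ∂P := by ring
  have h2 : E ≤ 2 * ∫⁻ ω in G, Zq P' N Y X γ T ω ∂P := by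
    have h3 : ∫⁻ ω in G, Zq P' N Y X γ T ω ∂P + ∫⁻ ω in Gᶜ, Zq P' N Y X γ T ω ∂P = E :=
      lintegral_add_compl _ hGm
    have h4 : E + E ≤ 2 * (∫⁻ ω in G, Zq P' N Y X γ T ω ∂P) + E := by
      calc E + E = 2 * (∫⁻ ω in G, Zq P' N Y X γ T ω ∂P) +
            2 * ∫⁻ ω in Gᶜ, Zq P' N Y X γ T ω ∂P := by rw [← h3]; ring
        _ ≤ _ := by gcongr
    exact (ENNReal.add_le_add_iff_right hE1).1 h4
  have h3 := cs_event (P := P) _ hZm hGm
  have h4 := second_moment hS hX hW T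
  have h5 : E ^ 2 ≤ E ^ 2 * (8 * P G) := by
    calc E ^ 2 ≤ (2 * ∫⁻ ω in G, Zq P' N Y X γ T ω ∂P) ^ 2 := pow_le_pow_left' h2 2
      _ = 4 * (∫⁻ ω in G, Zq P' N Y X γ T ω ∂P) ^ 2 := by ring
      _ ≤ 4 * ((∫⁻ ω, Zq P' N Y X γ T ω * Zq P' N Y X γ T ω ∂P) * P G) := by gcongr
      _ ≤ 4 * ((2 * E ^ 2) * P G) := by gcongr
      _ = E ^ 2 * (8 * P G) := by ring
  have h6 : (1 : ℝ≥0∞) ≤ 8 * P G := by
    have h7 : E ^ 2 * 1 ≤ E ^ 2 * (8 * P G) := by rwa [mul_one]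
    exact (ENNReal.mul_le_mul_iff_right (pow_ne_zero 2 hE0) (ENNReal.pow_ne_top hE1)).1 h7
  rw [ENNReal.div_le_iff (by norm_num) (by norm_num), mul_comm]
  exact h6

/-- on a good environment the walk stays diffusive with quenched probability at least 1/2 -/
lemma quenched_ge (hS : IsTrapSystem P d ρ ν N Y) (hX : IsCTSRW P' d κ 0 X) {M : ℝ} {T : ℕ}
    {ω : Ω} (hω : ω ∈ Good P' N Y X γ M T) :
    1 / 2 ≤ quenched P' X γ (field N Y ω) (T : ℝ≥0)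
      {x | len (x (T : ℝ≥0)) ≤ M * Real.sqrt ((T : ℝ≥0) : ℝ)} := by
  obtain ⟨h1, h2⟩ := hω
  have h3 : Zq P' N Y X γ T ω ≠ ⊤ := ne_top_of_le_ne_top ENNReal.one_ne_top (Zq_le_one hS hX γ T ω)
  have h4 : quenched P' X γ (field N Y ω) (T : ℝ≥0)
      {x | len (x (T : ℝ≥0)) ≤ M * Real.sqrt ((T : ℝ≥0) : ℝ)} =
      ZA P' N Y X γ T (Near X M T) ω / Zq P' N Y X γ T ω := rfl
  rw [h4, ENNReal.le_div_iff_mul_le (Or.inl h2) (Or.inl h3), one_div]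
  calc (2 : ℝ≥0∞)⁻¹ * Zq P' N Y X γ T ω ≤ 2⁻¹ * (2 * ZA P' N Y X γ T (Near X M T) ω) := by
        gcongr
    _ = ZA P' N Y X γ T (Near X M T) ω := by
        rw [← mul_assoc, ENNReal.inv_mul_cancel (by norm_num) (by norm_num), one_mul]

lemma limsup_prob (hS : IsTrapSystem P d ρ ν N Y) (hX : IsCTSRW P' d κ 0 X)
    (hW : Weak d κ ρ ν γ θ CX CY CY2 C0) :
    ∃ B : Set Ω, MeasurableSet B ∧ 1 / 8 ≤ P B ∧
      ∀ ω ∈ B, ∀ t₀ : ℝ≥0, ∃ t ≥ t₀,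
        1 / 2 ≤ quenched P' X γ (field N Y ω) t
          {x | len (x t) ≤ Mdiff κ CY2 * Real.sqrt t} := by
  set M := Mdiff κ CY2 with hM
  set G := fun T => Good P' N Y X γ M T with hG
  have hGm : ∀ T, MeasurableSet (G T) := fun T => measurableSet_Good hS hX γ M T
  have hU : ∀ n, MeasurableSet (⋃ T ≥ n, G T) := fun n =>
    MeasurableSet.iUnion fun T => MeasurableSet.iUnion fun _ => hGm T
  refine ⟨⋂ n, ⋃ T ≥ n, G T, MeasurableSet.iInter hU, ?_, ?_⟩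
  · have hanti : Antitone fun n => ⋃ T ≥ n, G T := by
      intro a b hab
      exact Set.iUnion_mono fun T => Set.iUnion_mono' fun h => ⟨le_trans hab h, le_rfl⟩
    rw [hanti.measure_iInter (fun n => (hU n).nullMeasurableSet) ⟨0, measure_ne_top _ _⟩]
    refine le_iInf fun n => ?_
    refine (good_prob hS hX hW (T := n + 1) (by omega)).trans (measure_mono ?_)
    intro ω hω
    simp only [Set.mem_iUnion]
    exact ⟨n + 1, by omega, hω⟩
  · intro ω hω t₀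
    obtain ⟨n, hn⟩ := exists_nat_ge t₀
    have h1 := Set.mem_iInter.1 hω n
    simp only [Set.mem_iUnion] at h1
    obtain ⟨T, hT, h2⟩ := h1
    refine ⟨(T : ℝ≥0), le_trans hn (by exact_mod_cast hT), ?_⟩
    exact quenched_ge hS hX h2

/-- the weak disorder constants -/
lemma exists_weak.{u, v} (hd : 5 ≤ d) {κ ρ : ℝ≥0} (hκ : 0 < κ) (hρ : 0 < ρ) :
    ∃ (θ0 : ℝ≥0) (θ CX CY CY2 C0 : ℝ), 0 < θ0 ∧ ∀ {Ω : Type u} {Ω' : Type v} [MeasurableSpace Ω]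
      [MeasurableSpace Ω'] {P : Measure Ω} {P' : Measure Ω'} [IsProbabilityMeasure P]
      [IsProbabilityMeasure P'] {ν γ : ℝ≥0} {N : (Fin d → ℤ) → Ω → ℕ}
      {Y : (Fin d → ℤ) → ℕ → ℝ≥0 → Ω → (Fin d → ℤ)} {X : ℝ≥0 → Ω' → (Fin d → ℤ)},
      ν * γ ^ 2 ≤ θ0 → IsTrapSystem P d ρ ν N Y → IsCTSRW P' d κ 0 X →
      Weak d κ ρ ν γ θ CX CY CY2 C0 := by
  obtain ⟨Ck, hCk, hk⟩ := ctLaw_le hd hκ
  obtain ⟨Cr, hCr, hr⟩ := ctLaw_le hd hρ
  obtain ⟨C0, hC0⟩ := exists_trunc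
  have hC0' : 0 < C0 := hC0.1
  set z : ℝ := zet.toReal with hz
  have hz0 : 0 ≤ z := ENNReal.toReal_nonneg
  set D : ℝ := Cone Ck C0 + 6 * Cr with hD
  have hD1 : 1 ≤ D := by
    rw [hD]; unfold Cone; linarith
  have hDY : 6 * Cr ≤ D := by
    rw [hD]; unfold Cone; linarith
  set θ : ℝ := 1 / (256 * D * (z + 1)) with hθ
  have hθ0 : 0 < θ := by positivity
  have hθD : θ * D * (z + 1) = 1 / 256 := by
    rw [hθ]; field_simp
  have hθDz : θ * D * z ≤ 1 / 256 := by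
    have : 0 < θ * D := by positivity
    nlinarith
  have hθD' : θ * D ≤ 1 / 256 := by
    have : 0 ≤ θ * D * z := by positivity
    nlinarith
  have hzt : zet = ENNReal.ofReal z := by rw [hz, ENNReal.ofReal_toReal zet_ne_top]
  refine ⟨θ.toNNReal, θ, Ck, 6 * Cr, 36 * Cr * ρ, C0, by simpa using hθ0, ?_⟩
  intro Ω Ω' _ _ P P' _ _ ν γ N Y X hνγ hS hX
  refine ⟨hC0, fun m hm => hX.walkLaw hCk hk hm, fun m hm => (hS.walk 0 0).trapLaw hCr hr hm,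
    fun m hm => ⟨hm, ν.2, γ.2, ?_, ?_, ?_⟩, ?_⟩
  · have h1 : ((ν * γ ^ 2 : ℝ≥0) : ℝ) ≤ (θ.toNNReal : ℝ) := by exact_mod_cast hνγ
    rw [Real.coe_toNNReal _ hθ0.le] at h1
    push_cast at h1
    exact h1
  · calc θ * (6 * Cr) ≤ θ * D := by gcongr
      _ ≤ 1 / 256 := hθD'
      _ ≤ 1 / 4 := by norm_num
  · rw [hzt, ← ENNReal.ofReal_mul (by positivity)]
    have h1 : (1 / 128 : ℝ≥0∞) = ENNReal.ofReal (1 / 128) := by
      rw [ENNReal.ofReal_div_of_pos (by norm_num)]; simp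
    rw [h1]
    apply ENNReal.ofReal_le_ofReal
    calc 2 * (θ * (6 * Cr)) * z ≤ 2 * (θ * D) * z := by gcongr
      _ = 2 * (θ * D * z) := by ring
      _ ≤ 1 / 128 := by linarith
  · rw [hzt, ← ENNReal.ofReal_mul (by positivity)]
    have h1 : (12 : ℝ≥0∞) = ENNReal.ofReal 12 := by simp
    rw [h1, ← ENNReal.ofReal_mul (by norm_num), ← ENNReal.ofReal_one]
    apply ENNReal.ofReal_le_ofReal
    rw [← hD]
    calc 12 * (4 * θ * D * z) = 48 * (θ * D * z) := by ring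
      _ ≤ 1 := by linarith

/-- **Main theorem.** -/
theorem not_superdiffusive.{u, v} {d : ℕ} (hd : 5 ≤ d) {κ ρ : ℝ≥0} (hκ : 0 < κ) (hρ : 0 < ρ) :
    ∃ (θ : ℝ≥0) (M : ℝ), 0 < θ ∧
      ∀ (Ω : Type u) (Ω' : Type v) [MeasurableSpace Ω] [MeasurableSpace Ω']
        (P : Measure Ω) (P' : Measure Ω') [IsProbabilityMeasure P] [IsProbabilityMeasure P']
        (ν γ : ℝ≥0) (N : (Fin d → ℤ) → Ω → ℕ) (Y : (Fin d → ℤ) → ℕ → ℝ≥0 → Ω → (Fin d → ℤ))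
        (X : ℝ≥0 → Ω' → (Fin d → ℤ)),
        ν * γ ^ 2 ≤ θ → IsTrapSystem P d ρ ν N Y → IsCTSRW P' d κ 0 X →
        (∃ B : Set Ω, MeasurableSet B ∧ 1 / 8 ≤ P B ∧ ∀ ω ∈ B, ∀ t₀ : ℝ≥0, ∃ t ≥ t₀,
          1 / 2 ≤ quenched P' X γ (field N Y ω) t {x | len (x t) ≤ M * Real.sqrt t}) ∧
        ¬ ∀ᵐ ω ∂P, SuperDiffusive P' X γ (field N Y ω) := by
  haveI : NeZero d := ⟨by omega⟩
  obtain ⟨θ0, θ, CX, CY, CY2, C0, hθ0, hW⟩ := exists_weak.{u, v} hd hκ hρ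
  refine ⟨θ0, Mdiff κ CY2, hθ0, ?_⟩
  intro Ω Ω' _ _ P P' _ _ ν γ N Y X hνγ hS hX
  have h := limsup_prob hS hX (hW hνγ hS hX)
  refine ⟨h, fun hae => ?_⟩
  obtain ⟨B, hBm, hB, hBt⟩ := h
  have h1 : ∀ ω ∈ B, ¬ SuperDiffusive P' X γ (field N Y ω) := by
    intro ω hω hsd
    have h2 := hsd (Mdiff κ CY2)
    have h3 : ∀ᶠ t in atTop, quenched P' X γ (field N Y ω) t
        {x | len (x t) ≤ Mdiff κ CY2 * Real.sqrt t} < 1 / 2 :=
      h2.eventually_lt_const (by norm_num)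
    obtain ⟨t₀, ht₀⟩ := eventually_atTop.1 h3
    obtain ⟨t, ht, ht2⟩ := hBt ω hω t₀
    exact absurd ht2 (not_le.2 (ht₀ t ht))
  have h4 : P B = 0 := by
    refine measure_mono_null (fun ω hω => ?_) hae
    exact h1 ω hω
  rw [h4] at hB
  norm_num at hB

end Pool.Agent.Helper83.MobileTraps
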