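import Pool.Agent.Helper83.MobileTraps.Lim3

open MeasureTheory ProbabilityTheory Filter
open scoped ENNReal NNReal Topology

set_option linter.unusedSectionVars false

namespace Pool.Agent.Helper83.MobileTraps

open Pool.Agent.Helper83.Traps

/-- generating function of the Poisson law -/
lemma lintegral_pow_poisson (ν : ℝ≥0) {v : ℝ≥0∞} (hv : v ≤ 1) :
    ∫⁻ n, v ^ n ∂poissonMeasure ν = wexp (ν * (1 - v)) := by
  have hvt : v ≠ ⊤ := ne_top_of_le_ne_top ENNReal.one_ne_top hv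
  lift v to ℝ≥0 using hvt
  have hv' : v ≤ 1 := by exact_mod_cast hv
  rw [lintegral_countable']
  simp only [poissonMeasure_singleton]
  have h1 : ∀ n : ℕ, (v : ℝ≥0∞) ^ n * ENNReal.ofReal (Real.exp (-ν) * ν ^ n / n.factorial) =
      ENNReal.ofReal (Real.exp (-ν) * (((ν : ℝ) * v) ^ n / n.factorial)) := by
    intro n
    rw [← ENNReal.coe_pow, ← ENNReal.ofReal_coe_nnreal, ← ENNReal.ofReal_mul (by positivity)]
    congr 1
    push_cast
    rw [mul_pow]
    ring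
  simp only [h1]
  have h2 := (NormedSpace.expSeries_div_hasSum_exp ((ν : ℝ) * v)).mul_left (Real.exp (-ν))
  rw [← ENNReal.ofReal_tsum_of_nonneg (fun n => by positivity) h2.summable, h2.tsum_eq,
    ← Real.exp_eq_exp_ℝ, ← Real.exp_add, wexp_eq (ENNReal.mul_ne_top (by simp) (by simp))]
  congr 2
  rw [ENNReal.toReal_mul, ENNReal.coe_toReal, ENNReal.toReal_sub_of_le (by exact_mod_cast hv')
    (by simp)]
  simp
  ring

variable {d : ℕ} [NeZero d] {Ω : Type*} [MeasurableSpace Ω] {P : Measure Ω}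
  [IsProbabilityMeasure P] {ρ ν : ℝ≥0} {N : (Fin d → ℤ) → Ω → ℕ}
  {Y : (Fin d → ℤ) → ℕ → ℝ≥0 → Ω → (Fin d → ℤ)}

/-- product over a finite set of starting points -/
noncomputable def FS (A : (ℝ≥0 → Fin d → ℤ) → ℝ≥0∞) (S : Finset (Fin d → ℤ))
    (p : ((Fin d → ℤ) → ℕ) × (((Fin d → ℤ) × ℕ) → ℝ≥0 → Fin d → ℤ)) : ℝ≥0∞ :=
  ∏ y ∈ S, ∏ j ∈ Finset.range (p.1 y), wexp (A (p.2 (y, j)))

lemma measurable_FS {A : (ℝ≥0 → Fin d → ℤ) → ℝ≥0∞} (hA : Measurable A)
    (S : Finset (Fin d → ℤ)) : Measurable (FS A S) := by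
  unfold FS
  refine Finset.measurable_fun_prod _ fun y _ => ?_
  have h1 : Measurable fun q : ℕ × (((Fin d → ℤ) × ℕ) → ℝ≥0 → Fin d → ℤ) =>
      ∏ j ∈ Finset.range q.1, wexp (A (q.2 (y, j))) := by
    have hk : ∀ k : ℕ, Measurable fun r : ((Fin d → ℤ) × ℕ) → ℝ≥0 → Fin d → ℤ =>
        ∏ j ∈ Finset.range k, wexp (A (r (y, j))) := fun k =>
      Finset.measurable_fun_prod _ fun j _ =>
        measurable_wexp.comp (hA.comp (measurable_pi_apply (y, j)))
    exact measurable_from_prod_countable_right hk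
  have h2 : Measurable fun p : ((Fin d → ℤ) → ℕ) × (((Fin d → ℤ) × ℕ) → ℝ≥0 → Fin d → ℤ) =>
      (p.1 y, p.2) := by
    have e1 : Measurable fun p : ((Fin d → ℤ) → ℕ) × (((Fin d → ℤ) × ℕ) → ℝ≥0 → Fin d → ℤ) =>
        p.1 y := (measurable_pi_apply y).comp measurable_fst
    exact e1.prodMk measurable_snd
  have h3 := h1.comp h2
  exact h3

lemma finite_formula (hS : IsTrapSystem P d ρ ν N Y) {A : (ℝ≥0 → Fin d → ℤ) → ℝ≥0∞}
    (hA : Measurable A) {v : (Fin d → ℤ) → ℝ≥0∞}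
    (hv : ∀ y j, ∫⁻ ω, wexp (A (pth (Y y j) ω)) ∂P = v y) (S : Finset (Fin d → ℤ)) :
    ∫⁻ ω, ∏ y ∈ S, ∏ j ∈ Finset.range (N y ω), wexp (A (pth (Y y j) ω)) ∂P =
      ∏ y ∈ S, wexp (ν * (1 - v y)) := by
  have hmN : Measurable fun (ω : Ω) (y : Fin d → ℤ) => N y ω :=
    measurable_pi_lambda _ fun y => hS.measN y
  have hmY : Measurable fun (ω : Ω) (p : (Fin d → ℤ) × ℕ) (t : ℝ≥0) => Y p.1 p.2 t ω :=
    measurable_pi_lambda _ fun p => measurable_pi_lambda _ fun t => (hS.walk p.1 p.2).measurable t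
  have hmY1 : ∀ p : (Fin d → ℤ) × ℕ, Measurable fun (ω : Ω) (t : ℝ≥0) => Y p.1 p.2 t ω := fun p =>
    measurable_pi_lambda _ fun t => (hS.walk p.1 p.2).measurable t
  have hv1 : ∀ y, v y ≤ 1 := by
    intro y
    rw [← hv y 0]
    calc ∫⁻ ω, wexp (A (pth (Y y 0) ω)) ∂P ≤ ∫⁻ _, 1 ∂P := lintegral_mono fun ω => wexp_le_one _
      _ = 1 := by simp
  have hprod := (indepFun_iff_map_prod_eq_prod_map_map hmN.aemeasurable hmY.aemeasurable).1
    hS.indepNY
  have hmF := measurable_FS hA S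
  -- step 1: use independence of numbers and trajectories
  have hstep1 : ∫⁻ ω, ∏ y ∈ S, ∏ j ∈ Finset.range (N y ω), wexp (A (pth (Y y j) ω)) ∂P =
      ∫⁻ ω, ∫⁻ ω', FS A S ((fun y => N y ω), (fun p t => Y p.1 p.2 t ω')) ∂P ∂P := by
    have e1 : ∫⁻ ω, ∏ y ∈ S, ∏ j ∈ Finset.range (N y ω), wexp (A (pth (Y y j) ω)) ∂P =
        ∫⁻ ω, FS A S ((fun y => N y ω), (fun p t => Y p.1 p.2 t ω)) ∂P := rfl
    rw [e1, ← lintegral_map hmF (hmN.prodMk hmY), hprod, lintegral_prod _ hmF.aemeasurable]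
    have hinner : Measurable fun n : (Fin d → ℤ) → ℕ => ∫⁻ y, FS A S (n, y)
        ∂(P.map fun (ω : Ω) (p : (Fin d → ℤ) × ℕ) (t : ℝ≥0) => Y p.1 p.2 t ω) :=
      hmF.lintegral_prod_right'
    rw [lintegral_map hinner hmN]
    refine lintegral_congr fun ω => ?_
    have hsec : Measurable fun y : ((Fin d → ℤ) × ℕ) → ℝ≥0 → Fin d → ℤ =>
        FS A S ((fun y => N y ω), y) := hmF.comp (measurable_const.prodMk measurable_id)
    rw [lintegral_map hsec hmY]
  -- step 2: independence of the trajectories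
  have hg : iIndepFun (fun (p : (Fin d → ℤ) × ℕ) (ω : Ω) => wexp (A (pth (Y p.1 p.2) ω))) P :=
    hS.indepY.comp (fun _ z => wexp (A z)) (fun _ => measurable_wexp.comp hA)
  have hmg : ∀ p : (Fin d → ℤ) × ℕ, Measurable fun ω : Ω => wexp (A (pth (Y p.1 p.2) ω)) :=
    fun p => measurable_wexp.comp (hA.comp (hmY1 p))
  have hstep2 : ∀ n : (Fin d → ℤ) → ℕ,
      ∫⁻ ω', FS A S (n, (fun p t => Y p.1 p.2 t ω')) ∂P = ∏ y ∈ S, v y ^ n y := by
    intro n
    set K : Finset ((Fin d → ℤ) × ℕ) :=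
      (S.sigma fun y => Finset.range (n y)).map (Equiv.sigmaEquivProd _ _).toEmbedding with hK
    have e1 : ∀ f : (Fin d → ℤ) × ℕ → ℝ≥0∞, ∏ y ∈ S, ∏ j ∈ Finset.range (n y), f (y, j) =
        ∏ p ∈ K, f p := by
      intro f
      rw [hK, Finset.prod_map, Finset.prod_sigma]
      rfl
    have e2 : ∀ ω', FS A S (n, (fun p t => Y p.1 p.2 t ω')) =
        ∏ p ∈ K, wexp (A (pth (Y p.1 p.2) ω')) := by
      intro ω'
      rw [← e1]; rfl
    simp only [e2]
    rw [lintegral_prod_eq_prod_lintegral_of_indepFun K _ hg hmg]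
    simp only [hv]
    rw [← e1 (fun p => v p.1)]
    refine Finset.prod_congr rfl fun y _ => ?_
    show ∏ _j ∈ Finset.range (n y), v y = v y ^ n y
    rw [Finset.prod_const, Finset.card_range]
  -- step 3: independence of the numbers
  have hgN : iIndepFun (fun (y : Fin d → ℤ) (ω : Ω) => v y ^ N y ω) P :=
    hS.indepN.comp (fun y n => v y ^ n) (fun _ => Measurable.of_discrete)
  have hmgN : ∀ y : Fin d → ℤ, Measurable fun ω : Ω => v y ^ N y ω := fun y =>
    (Measurable.of_discrete (f := fun n : ℕ => v y ^ n)).comp (hS.measN y)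
  rw [hstep1]
  simp only [hstep2]
  rw [lintegral_prod_eq_prod_lintegral_of_indepFun S _ hgN hmgN]
  refine Finset.prod_congr rfl fun y _ => ?_
  rw [← lintegral_pow_poisson ν (hv1 y), ← hS.lawN y, lintegral_map Measurable.of_discrete
    (hS.measN y)]

/-- **Laplace functional of the trap field** -/
lemma poisson_formula (hS : IsTrapSystem P d ρ ν N Y) {A : (ℝ≥0 → Fin d → ℤ) → ℝ≥0∞}
    (hA : Measurable A) {v : (Fin d → ℤ) → ℝ≥0∞}
    (hv : ∀ y j, ∫⁻ ω, wexp (A (pth (Y y j) ω)) ∂P = v y) :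
    ∫⁻ ω, wexp (∑' y, ∑ j ∈ Finset.range (N y ω), A (pth (Y y j) ω)) ∂P =
      wexp (ν * ∑' y, (1 - v y)) := by
  have hmY1 : ∀ p : (Fin d → ℤ) × ℕ, Measurable fun (ω : Ω) (t : ℝ≥0) => Y p.1 p.2 t ω := fun p =>
    measurable_pi_lambda _ fun t => (hS.walk p.1 p.2).measurable t
  have hmS : ∀ y : Fin d → ℤ, Measurable fun ω =>
      ∑ j ∈ Finset.range (N y ω), A (pth (Y y j) ω) := by
    intro y
    have h1 : Measurable fun q : ℕ × Ω => ∑ j ∈ Finset.range q.1, A (pth (Y y j) q.2) := by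
      have hk : ∀ k : ℕ, Measurable fun ω : Ω => ∑ j ∈ Finset.range k, A (pth (Y y j) ω) :=
        fun k => Finset.measurable_fun_sum _ fun j _ => hA.comp (hmY1 (y, j))
      exact measurable_from_prod_countable_right hk
    have h2 : Measurable fun ω : Ω => (N y ω, ω) := (hS.measN y).prodMk measurable_id
    have h3 := h1.comp h2
    exact h3
  have hlim1 : Tendsto (fun S : Finset (Fin d → ℤ) =>
      ∫⁻ ω, wexp (∑ y ∈ S, ∑ j ∈ Finset.range (N y ω), A (pth (Y y j) ω)) ∂P) atTop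
      (𝓝 (∫⁻ ω, wexp (∑' y, ∑ j ∈ Finset.range (N y ω), A (pth (Y y j) ω)) ∂P)) := by
    refine tendsto_lintegral_filter_of_dominated_convergence (fun _ => 1) ?_ ?_ (by simp) ?_
    · exact Eventually.of_forall fun S => measurable_wexp.comp
        (Finset.measurable_fun_sum _ fun y _ => hmS y)
    · exact Eventually.of_forall fun S => ae_of_all _ fun ω => wexp_le_one _
    · exact ae_of_all _ fun ω => tendsto_wexp (ENNReal.summable.hasSum)
  have hlim2 : Tendsto (fun S : Finset (Fin d → ℤ) => ∏ y ∈ S, wexp (ν * (1 - v y))) atTop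
      (𝓝 (wexp (ν * ∑' y, (1 - v y)))) := by
    rw [← ENNReal.tsum_mul_left]
    simp only [← wexp_sum]
    exact tendsto_wexp (ENNReal.summable.hasSum)
  have heq : (fun S : Finset (Fin d → ℤ) =>
      ∫⁻ ω, wexp (∑ y ∈ S, ∑ j ∈ Finset.range (N y ω), A (pth (Y y j) ω)) ∂P) =
      fun S : Finset (Fin d → ℤ) => ∏ y ∈ S, wexp (ν * (1 - v y)) := by
    funext S
    rw [← finite_formula hS hA hv S]
    refine lintegral_congr fun ω => ?_
    rw [wexp_sum]
    refine Finset.prod_congr rfl fun y _ => ?_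
    rw [wexp_sum]
  rw [heq] at hlim1
  exact tendsto_nhds_unique hlim1 hlim2

end Pool.Agent.Helper83.MobileTraps
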