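import Pool.Agent.Helper83.MobileTraps.Grid2

open MeasureTheory ProbabilityTheory Filter
open scoped ENNReal NNReal Topology

namespace Pool.Agent.Helper83.MobileTraps

open Pool.Agent.Helper83.Traps

/-- right endpoint of the mesh interval containing `s` -/
noncomputable def cm (m : ℕ) (s : ℝ) : ℝ≥0 := gt m ⌈(m : ℝ) * s⌉₊

lemma measurable_ceilmul (m : ℕ) : Measurable fun s : ℝ => ⌈(m : ℝ) * s⌉₊ :=
  Nat.measurable_ceil.comp (measurable_id.const_mul _)

lemma cm_le {m : ℕ} (hm : 1 ≤ m) {s : ℝ} (hs : 0 ≤ s) : s ≤ cm m s ∧ (cm m s : ℝ) ≤ s + 1 / m := by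
  have hm0 : (0 : ℝ) < m := by exact_mod_cast hm
  unfold cm gt
  push_cast
  constructor
  · rw [le_div_iff₀ hm0, mul_comm]
    exact Nat.le_ceil _
  · rw [div_le_iff₀ hm0]
    have := (Nat.ceil_lt_add_one (by positivity : 0 ≤ (m : ℝ) * s)).le
    calc ((⌈(m : ℝ) * s⌉₊ : ℕ) : ℝ) ≤ m * s + 1 := this
      _ = _ := by field_simp

/-- convergence of the sampled function -/
lemma tendsto_cm {f : ℝ≥0 → ℝ≥0∞} (hf : ∀ t, ∀ᶠ s in 𝓝[>] t, f s = f t) {s : ℝ} (hs : 0 ≤ s) :
    Tendsto (fun m : ℕ => f (cm m s)) atTop (𝓝 (f s.toNNReal)) := by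
  have h1 := hf s.toNNReal
  have h2 : ∀ᶠ u in 𝓝[≥] s.toNNReal, f u = f s.toNNReal := by
    rw [← Set.Ioi_insert, nhdsWithin_insert, eventually_sup]
    exact ⟨by simp, h1⟩
  have h3 : Tendsto (fun m : ℕ => cm m s) atTop (𝓝[≥] s.toNNReal) := by
    rw [tendsto_nhdsWithin_iff]
    constructor
    · rw [← NNReal.tendsto_coe, Real.coe_toNNReal s hs]
      have h4 : Tendsto (fun m : ℕ => s + 1 / (m : ℝ)) atTop (𝓝 s) := by
        have := (tendsto_one_div_atTop_nhds_zero_nat (𝕜 := ℝ)).const_add s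
        rwa [add_zero] at this
      refine tendsto_of_tendsto_of_tendsto_of_le_of_le' tendsto_const_nhds h4 ?_ ?_
      · filter_upwards [eventually_ge_atTop 1] with m hm using (cm_le hm hs).1
      · filter_upwards [eventually_ge_atTop 1] with m hm using (cm_le hm hs).2
    · filter_upwards [eventually_ge_atTop 1] with m hm
      rw [Set.mem_Ici, Real.toNNReal_le_iff_le_coe]
      exact (cm_le hm hs).1
  have h5 := h3.eventually h2
  exact tendsto_const_nhds.congr' (h5.mono fun m hm => hm.symm)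

/-- integral of the sampled function -/
lemma lintegral_cm {m : ℕ} (hm : 1 ≤ m) (f : ℝ≥0 → ℝ≥0∞) (n : ℕ) :
    ∫⁻ s in Set.Ioc (0 : ℝ) (n / m), f (cm m s) =
      (m : ℝ≥0∞)⁻¹ * ∑ k ∈ Finset.range n, f (gt m (k + 1)) := by
  have hm0 : (0 : ℝ) < m := by exact_mod_cast hm
  induction n with
  | zero => simp
  | succ n ih =>
    have h1 : Set.Ioc (0 : ℝ) ((n + 1 : ℕ) / m) =
        Set.Ioc (0 : ℝ) (n / m) ∪ Set.Ioc ((n : ℝ) / m) ((n + 1 : ℕ) / m) := by
      rw [Set.Ioc_union_Ioc_eq_Ioc (by positivity)]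
      gcongr
      simp
    have h2 : Disjoint (Set.Ioc (0 : ℝ) (n / m)) (Set.Ioc ((n : ℝ) / m) ((n + 1 : ℕ) / m)) :=
      Set.Ioc_disjoint_Ioc_of_le le_rfl
    rw [h1, lintegral_union measurableSet_Ioc h2, ih, Finset.sum_range_succ, mul_add]
    congr 1
    have h3 : ∀ s ∈ Set.Ioc ((n : ℝ) / m) ((n + 1 : ℕ) / m), f (cm m s) = f (gt m (n + 1)) := by
      intro s hs
      unfold cm
      congr 2
      rw [Nat.ceil_eq_iff (by omega)]
      constructor
      · have := hs.1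
        rw [div_lt_iff₀ hm0] at this
        simp only [Nat.add_sub_cancel]
        linarith
      · have := hs.2
        rw [le_div_iff₀ hm0] at this
        linarith
    rw [setLIntegral_congr_fun measurableSet_Ioc h3, setLIntegral_const, Real.volume_Ioc, mul_comm]
    congr 1
    have : ((n + 1 : ℕ) : ℝ) / m - n / m = (m : ℝ)⁻¹ := by
      push_cast; field_simp; ring
    rw [this, ENNReal.ofReal_inv_of_pos hm0, ENNReal.ofReal_natCast]

/-- **Riemann sums** of a right-continuous step function -/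
lemma tendsto_riemann {f : ℝ≥0 → ℝ≥0∞} (hf1 : ∀ s, f s ≤ 1)
    (hf : ∀ t, ∀ᶠ s in 𝓝[>] t, f s = f t) (T : ℕ) :
    Tendsto (fun m : ℕ => (m : ℝ≥0∞)⁻¹ * ∑ k ∈ Finset.range (T * m), f (gt m (k + 1))) atTop
      (𝓝 (∫⁻ s in Set.Icc (0 : ℝ) T, f s.toNNReal)) := by
  have h1 : Tendsto (fun m : ℕ => ∫⁻ s in Set.Icc (0 : ℝ) T, f (cm m s)) atTop
      (𝓝 (∫⁻ s in Set.Icc (0 : ℝ) T, f s.toNNReal)) := by
    refine tendsto_lintegral_of_dominated_convergence (fun _ => 1) (fun m => ?_) (fun m => ?_)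
      ?_ ?_
    · exact (Measurable.of_discrete (f := fun k : ℕ => f (gt m k))).comp (measurable_ceilmul m)
    · exact ae_of_all _ fun s => hf1 _
    · simp
    · rw [ae_restrict_iff' measurableSet_Icc]
      exact ae_of_all _ fun s hs => tendsto_cm hf hs.1
  refine h1.congr' ?_
  filter_upwards [eventually_ge_atTop 1] with m hm
  have hm0 : (0 : ℝ) < m := by exact_mod_cast hm
  rw [setLIntegral_congr Ioc_ae_eq_Icc.symm, ← lintegral_cm hm f (T * m)]
  congr 3
  push_cast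
  field_simp

end Pool.Agent.Helper83.MobileTraps
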