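import Pool.Agent.Helper83.MobileTraps.Main3

open MeasureTheory ProbabilityTheory Filter
open scoped ENNReal NNReal Topology

set_option linter.unusedSectionVars false

namespace Pool.Agent.Helper83.MobileTraps

open Pool.Agent.Helper83.Traps

/-! ## the action of the traps that start in a set of sites -/

section defs

variable {d : ℕ} [NeZero d] {Ω Ω' : Type*}

open Classical in
/-- coincidence time with the traps that start in `S` -/
noncomputable def act (S : Set (Fin d → ℤ)) (N : (Fin d → ℤ) → Ω → ℕ)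
    (Y : (Fin d → ℤ) → ℕ → ℝ≥0 → Ω → (Fin d → ℤ)) (X : ℝ≥0 → Ω' → (Fin d → ℤ)) (T : ℕ)
    (ω : Ω) (ω' : Ω') : ℝ≥0∞ :=
  ∑' y : Fin d → ℤ, if y ∈ S then
    ∑ j ∈ Finset.range (N y ω), Lsup T (fun t => X t ω') (fun t => Y y j t ω) else 0

variable {S : Set (Fin d → ℤ)} {N : (Fin d → ℤ) → Ω → ℕ}
    {Y : (Fin d → ℤ) → ℕ → ℝ≥0 → Ω → (Fin d → ℤ)} {X : ℝ≥0 → Ω' → (Fin d → ℤ)}

lemma act_add_compl (T : ℕ) (ω : Ω) (ω' : Ω') :
    act S N Y X T ω ω' + act Sᶜ N Y X T ω ω' = act Set.univ N Y X T ω ω' := by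
  classical
  unfold act
  rw [← ENNReal.tsum_add]
  refine tsum_congr fun y => ?_
  by_cases h : y ∈ S
  · rw [if_pos h, if_neg (by simpa using h), if_pos (Set.mem_univ _), add_zero]
  · rw [if_neg h, if_pos (by simpa using h), if_pos (Set.mem_univ _), zero_add]

lemma measurable_act {mΩ : MeasurableSpace Ω} {mΩ' : MeasurableSpace Ω'}
    (hN : ∀ y ∈ S, Measurable (N y)) (hY : ∀ y ∈ S, ∀ j t, Measurable (Y y j t))
    (hX : ∀ t, Measurable (X t)) (T : ℕ) :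
    Measurable fun p : Ω × Ω' => act S N Y X T p.1 p.2 := by
  classical
  unfold act
  refine Measurable.tsum fun y => ?_
  by_cases hy : y ∈ S
  · simp only [if_pos hy]
    have hj : ∀ j, Measurable fun p : Ω × Ω' =>
        Lsup T (fun t => X t p.2) (fun t => Y y j t p.1) := by
      intro j
      have e1 : Measurable fun p : Ω × Ω' =>
          ((fun t => X t p.2 : ℝ≥0 → Fin d → ℤ), (fun t => Y y j t p.1 : ℝ≥0 → Fin d → ℤ)) := by
        have e2 : Measurable fun p : Ω × Ω' => (fun t => X t p.2 : ℝ≥0 → Fin d → ℤ) :=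
          measurable_pi_lambda _ fun t => (hX t).comp measurable_snd
        have e3 : Measurable fun p : Ω × Ω' => (fun t => Y y j t p.1 : ℝ≥0 → Fin d → ℤ) :=
          measurable_pi_lambda _ fun t => (hY y hy j t).comp measurable_fst
        exact e2.prodMk e3
      have e4 := (measurable_Lsup' T).comp e1
      exact e4
    have hk : ∀ k : ℕ, Measurable fun p : Ω × Ω' =>
        ∑ j ∈ Finset.range k, Lsup T (fun t => X t p.2) (fun t => Y y j t p.1) := fun k =>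
      Finset.measurable_fun_sum _ fun j _ => hj j
    have h1 : Measurable fun q : ℕ × (Ω × Ω') => ∑ j ∈ Finset.range q.1,
        Lsup T (fun t => X t q.2.2) (fun t => Y y j t q.2.1) :=
      measurable_from_prod_countable_right hk
    have h2 : Measurable fun p : Ω × Ω' => (N y p.1, p) :=
      ((hN y hy).comp measurable_fst).prodMk measurable_id
    have h3 := h1.comp h2
    exact h3
  · simp only [if_neg hy]
    exact measurable_const

/-- survival weight for the traps that start in `S` -/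
noncomputable def wS (S : Set (Fin d → ℤ)) (N : (Fin d → ℤ) → Ω → ℕ)
    (Y : (Fin d → ℤ) → ℕ → ℝ≥0 → Ω → (Fin d → ℤ)) (X : ℝ≥0 → Ω' → (Fin d → ℤ)) (γ : ℝ≥0) (T : ℕ)
    (ω : Ω) (ω' : Ω') : ℝ≥0∞ := wexp (γ * act S N Y X T ω ω')

lemma measurable_wS {mΩ : MeasurableSpace Ω} {mΩ' : MeasurableSpace Ω'}
    (hN : ∀ y ∈ S, Measurable (N y)) (hY : ∀ y ∈ S, ∀ j t, Measurable (Y y j t))
    (hX : ∀ t, Measurable (X t)) (γ : ℝ≥0) (T : ℕ) :
    Measurable fun p : Ω × Ω' => wS S N Y X γ T p.1 p.2 :=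
  measurable_wexp.comp ((measurable_act hN hY hX T).const_mul _)

lemma wexp_anti {a b : ℝ≥0∞} (h : a ≤ b) : wexp b ≤ wexp a := by
  unfold wexp
  apply EReal.exp_monotone
  rw [EReal.neg_le_neg_iff]
  exact_mod_cast h

lemma wexp_pos {a : ℝ≥0∞} (ha : a ≠ ⊤) : wexp a ≠ 0 := by
  rw [wexp_eq ha]
  simp only [ne_eq, ENNReal.ofReal_eq_zero, not_le]
  exact Real.exp_pos _

lemma wS_le_one (γ : ℝ≥0) (T : ℕ) (ω : Ω) (ω' : Ω') : wS S N Y X γ T ω ω' ≤ 1 := wexp_le_one _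

lemma wS_mul (γ : ℝ≥0) (T : ℕ) (ω : Ω) (ω' : Ω') :
    wS Set.univ N Y X γ T ω ω' = wS S N Y X γ T ω ω' * wexp (γ * act Sᶜ N Y X T ω ω') := by
  unfold wS
  rw [← act_add_compl (S := S), mul_add, wexp_add]

lemma wS_univ_le (γ : ℝ≥0) (T : ℕ) (ω : Ω) (ω' : Ω') :
    wS Set.univ N Y X γ T ω ω' ≤ wS S N Y X γ T ω ω' := by
  rw [wS_mul (S := S)]
  exact mul_le_of_le_one_right' (wexp_le_one _)

end defs

/-! ## pathwise comparison -/

section compare

variable {d : ℕ} [NeZero d] {Ω Ω' : Type*} [MeasurableSpace Ω'] {P' : Measure Ω'}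
  {S : Set (Fin d → ℤ)} {N : (Fin d → ℤ) → Ω → ℕ}
  {Y : (Fin d → ℤ) → ℕ → ℝ≥0 → Ω → (Fin d → ℤ)} {X : ℝ≥0 → Ω' → (Fin d → ℤ)}

/-- mass of the survival weight on a set of paths -/
noncomputable def ZS (P' : Measure Ω') (S : Set (Fin d → ℤ)) (N : (Fin d → ℤ) → Ω → ℕ)
    (Y : (Fin d → ℤ) → ℕ → ℝ≥0 → Ω → (Fin d → ℤ)) (X : ℝ≥0 → Ω' → (Fin d → ℤ)) (γ : ℝ≥0) (T : ℕ)
    (A : Set Ω') (ω : Ω) : ℝ≥0∞ := ∫⁻ ω' in A, wS S N Y X γ T ω ω' ∂P'

/-- integrated coincidence time with the other traps -/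
noncomputable def AS (P' : Measure Ω') (S : Set (Fin d → ℤ)) (N : (Fin d → ℤ) → Ω → ℕ)
    (Y : (Fin d → ℤ) → ℕ → ℝ≥0 → Ω → (Fin d → ℤ)) (X : ℝ≥0 → Ω' → (Fin d → ℤ)) (γ : ℝ≥0) (T : ℕ)
    (ω : Ω) : ℝ≥0∞ := ∫⁻ ω', act Sᶜ N Y X T ω ω' * wS S N Y X γ T ω ω' ∂P'

lemma ZS_univ_le (γ : ℝ≥0) (T : ℕ) (A : Set Ω') (ω : Ω) :
    ZS P' Set.univ N Y X γ T A ω ≤ ZS P' S N Y X γ T A ω :=
  lintegral_mono fun ω' => wS_univ_le γ T ω ω'

lemma ZS_mono (γ : ℝ≥0) (T : ℕ) {A B : Set Ω'} (h : A ⊆ B) (ω : Ω) :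
    ZS P' S N Y X γ T A ω ≤ ZS P' S N Y X γ T B ω := lintegral_mono_set h

/-- removing the traps outside `S` changes little when they are rarely met -/
lemma compare {K : ℝ≥0∞} (hK0 : K ≠ 0) (hK1 : K ≠ ⊤) (γ : ℝ≥0) (T : ℕ) {A : Set Ω'}
    (hA : MeasurableSet A) (ω : Ω)
    (hm : Measurable fun ω' => wS S N Y X γ T ω ω')
    (hma : Measurable fun ω' => act Sᶜ N Y X T ω ω') :
    wexp (γ * K) * ZS P' S N Y X γ T A ω ≤ ZS P' Set.univ N Y X γ T A ω +
      wexp (γ * K) * (K⁻¹ * AS P' S N Y X γ T ω) := by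
  set c := wexp (γ * K) with hc
  have hB : MeasurableSet {ω' | act Sᶜ N Y X T ω ω' ≤ K} := hma measurableSet_Iic
  set B : Set Ω' := {ω' | act Sᶜ N Y X T ω ω' ≤ K} with hBdef
  have h1 : ZS P' S N Y X γ T A ω = ∫⁻ ω' in A ∩ B, wS S N Y X γ T ω ω' ∂P' +
      ∫⁻ ω' in A \ B, wS S N Y X γ T ω ω' ∂P' := by
    unfold ZS
    exact (lintegral_inter_add_diff _ A hB).symm
  have h2 : c * ∫⁻ ω' in A ∩ B, wS S N Y X γ T ω ω' ∂P' ≤ ZS P' Set.univ N Y X γ T A ω := by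
    rw [← lintegral_const_mul _ hm]
    calc ∫⁻ ω' in A ∩ B, c * wS S N Y X γ T ω ω' ∂P' ≤
        ∫⁻ ω' in A ∩ B, wS Set.univ N Y X γ T ω ω' ∂P' := by
          refine setLIntegral_mono' (hA.inter hB) fun ω' hω' => ?_
          rw [wS_mul (S := S), mul_comm]
          refine mul_le_mul' le_rfl (wexp_anti ?_)
          exact mul_le_mul' le_rfl hω'.2
      _ ≤ ZS P' Set.univ N Y X γ T A ω := lintegral_mono_set Set.inter_subset_left
  have h3 : ∫⁻ ω' in A \ B, wS S N Y X γ T ω ω' ∂P' ≤ K⁻¹ * AS P' S N Y X γ T ω := by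
    unfold AS
    have hprod : Measurable fun ω' => act Sᶜ N Y X T ω ω' * wS S N Y X γ T ω ω' := hma.mul hm
    rw [← lintegral_const_mul _ hprod]
    calc ∫⁻ ω' in A \ B, wS S N Y X γ T ω ω' ∂P' ≤
        ∫⁻ ω' in A \ B, K⁻¹ * (act Sᶜ N Y X T ω ω' * wS S N Y X γ T ω ω') ∂P' := by
          refine setLIntegral_mono' (hA.diff hB) fun ω' hω' => ?_
          have h4 : K ≤ act Sᶜ N Y X T ω ω' := by
            have := hω'.2
            rw [hBdef] at this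
            simp only [Set.mem_ofPred_eq, not_le] at this
            exact this.le
          calc wS S N Y X γ T ω ω' = K⁻¹ * (K * wS S N Y X γ T ω ω') := by
                rw [← mul_assoc, ENNReal.inv_mul_cancel hK0 hK1, one_mul]
            _ ≤ _ := by gcongr
      _ ≤ _ := setLIntegral_le_lintegral _ _
  calc c * ZS P' S N Y X γ T A ω = c * ∫⁻ ω' in A ∩ B, wS S N Y X γ T ω ω' ∂P' +
        c * ∫⁻ ω' in A \ B, wS S N Y X γ T ω ω' ∂P' := by rw [h1, mul_add]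
    _ ≤ _ := by gcongr

end compare

end Pool.Agent.Helper83.MobileTraps
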