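import Pool.Agent.Helper83.MobileTraps.Z1

open MeasureTheory ProbabilityTheory Filter
open scoped ENNReal NNReal Topology

set_option linter.unusedSectionVars false

namespace Pool.Agent.Helper83.MobileTraps

open Pool.Agent.Helper83.Traps

variable {d : ℕ} [NeZero d] {Ω Ω' : Type*} [MeasurableSpace Ω] [MeasurableSpace Ω']
  {P : Measure Ω} {P' : Measure Ω'} [IsProbabilityMeasure P] [IsProbabilityMeasure P']
  {κ ρ ν : ℝ≥0} {N : (Fin d → ℤ) → Ω → ℕ}
  {Y : (Fin d → ℤ) → ℕ → ℝ≥0 → Ω → (Fin d → ℤ)} {X : ℝ≥0 → Ω' → (Fin d → ℤ)}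

/-- the total of the heat kernel bound -/
noncomputable def Cst (C : ℝ) : ℝ≥0∞ :=
  ∫⁻ s in Set.Ioi (0 : ℝ), ENNReal.ofReal (C * (s + 1) ^ (-(5 / 2) : ℝ))

lemma Cst_ne_top (C : ℝ) : Cst C ≠ ⊤ := by
  unfold Cst
  have h1 : IntegrableOn (fun s : ℝ => C * (s + 1) ^ (-(5 / 2) : ℝ)) (Set.Ioi 0) :=
    (integrableOn_add_rpow_Ioi_of_lt (m := 1) (c := 0) (by norm_num) (by norm_num)).const_mul C
  exact h1.lintegral_lt_top.ne

/-- mean coincidence time with one trap -/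
lemma Lsup_mean (hS : IsTrapSystem P d ρ ν N Y) {C : ℝ}
    (hC : ∀ (t : ℝ≥0) (z : Fin d → ℤ),
      ctLaw d ρ t {z} ≤ ENNReal.ofReal (C * (1 + (t : ℝ)) ^ (-(5 / 2) : ℝ)))
    (T : ℕ) {x : ℝ≥0 → Fin d → ℤ} (hx : RC x) (y : Fin d → ℤ) (j : ℕ) :
    ∫⁻ ω, Lsup T x (pth (Y y j) ω) ∂P ≤ Cst C := by
  have h1 : ∀ ω, Lsup T x (pth (Y y j) ω) =
      ∫⁻ s in Set.Icc (0 : ℝ) T, coin x (pth (Y y j) ω) s.toNNReal := fun ω =>
    Lsup_eq hx (rc_pth (hS.walk y j) ω) T
  simp only [h1]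
  have hj : Measurable fun p : Ω × ℝ => coin x (pth (Y y j) p.1) p.2.toNNReal :=
    measurable_coin_joint (hS.walk y j).measurable (rc_pth (hS.walk y j)) hx
  rw [lintegral_lintegral_swap hj.aemeasurable]
  have h2 : ∀ s : ℝ, ∫⁻ ω, coin x (pth (Y y j) ω) s.toNNReal ∂P =
      ctLaw d ρ s.toNNReal {x s.toNNReal - y} := fun s =>
    lintegral_coin (Z := fun y => Y y j) (fun y => hS.walk y j) x s.toNNReal y
  simp only [h2]
  rw [setLIntegral_congr Ioc_ae_eq_Icc.symm]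
  unfold Cst
  calc ∫⁻ s in Set.Ioc (0 : ℝ) T, ctLaw d ρ s.toNNReal {x s.toNNReal - y}
      ≤ ∫⁻ s in Set.Ioc (0 : ℝ) T, ENNReal.ofReal (C * (s + 1) ^ (-(5 / 2) : ℝ)) := by
        refine setLIntegral_mono' measurableSet_Ioc fun s hs => ?_
        have h3 := hC s.toNNReal (x s.toNNReal - y)
        rwa [Real.coe_toNNReal s hs.1.le, add_comm] at h3
    _ ≤ _ := lintegral_mono_set Set.Ioc_subset_Ioi_self

omit [MeasurableSpace Ω'] [IsProbabilityMeasure P'] in
lemma mean_N (hS : IsTrapSystem P d ρ ν N Y) (y : Fin d → ℤ) :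
    ∫⁻ ω, (N y ω : ℝ≥0∞) ∂P = ν := by
  have h1 : ∫⁻ ω, (N y ω : ℝ≥0∞) ∂P = ∫⁻ n : ℕ, (n : ℝ≥0∞) ∂(P.map (N y)) := by
    rw [lintegral_map Measurable.of_discrete (hS.measN y)]
  rw [h1, hS.lawN y, lintegral_countable']
  have h2 := lintegral_nsq_ctLaw (d := d) ν 1
  rw [lintegral_ctLaw] at h2
  simp only [lintegral_nsq_srwLaw, mul_one] at h2
  rw [← h2]
  exact tsum_congr fun n => mul_comm _ _

/-- mean of a Poisson number of coincidence times -/
lemma sum_mean (hS : IsTrapSystem P d ρ ν N Y) {C : ℝ}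
    (hC : ∀ (t : ℝ≥0) (z : Fin d → ℤ),
      ctLaw d ρ t {z} ≤ ENNReal.ofReal (C * (1 + (t : ℝ)) ^ (-(5 / 2) : ℝ)))
    (T : ℕ) {x : ℝ≥0 → Fin d → ℤ} (hx : RC x) (y : Fin d → ℤ) :
    ∫⁻ ω, ∑ j ∈ Finset.range (N y ω), Lsup T x (pth (Y y j) ω) ∂P ≤ ν * Cst C := by
  classical
  have hL : ∀ j, Measurable fun ω => Lsup T x (pth (Y y j) ω) := fun j =>
    (measurable_Lsup T x).comp (measurable_pi_lambda _ fun t => (hS.walk y j).measurable t)
  have hI : ∀ j, Measurable fun ω => if j < N y ω then (1 : ℝ≥0∞) else 0 := fun j =>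
    (Measurable.of_discrete (f := fun n : ℕ => if j < n then (1 : ℝ≥0∞) else 0)).comp (hS.measN y)
  have h1 : ∀ ω, ∑ j ∈ Finset.range (N y ω), Lsup T x (pth (Y y j) ω) =
      ∑' j : ℕ, (if j < N y ω then (1 : ℝ≥0∞) else 0) * Lsup T x (pth (Y y j) ω) := by
    intro ω
    rw [tsum_eq_sum (s := Finset.range (N y ω))]
    · refine Finset.sum_congr rfl fun j hj => ?_
      rw [if_pos (Finset.mem_range.1 hj), one_mul]
    · intro j hj
      rw [Finset.mem_range] at hj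
      rw [if_neg hj, zero_mul]
  simp only [h1]
  have hIL : ∀ j, Measurable fun ω =>
      (if j < N y ω then (1 : ℝ≥0∞) else 0) * Lsup T x (pth (Y y j) ω) := fun j =>
    (hI j).mul (hL j)
  rw [lintegral_tsum fun j => (hIL j).aemeasurable]
  have h2 : ∀ j, ∫⁻ ω, (if j < N y ω then (1 : ℝ≥0∞) else 0) * Lsup T x (pth (Y y j) ω) ∂P ≤
      (∫⁻ ω, (if j < N y ω then (1 : ℝ≥0∞) else 0) ∂P) * Cst C := by
    intro j
    have hind : IndepFun (fun ω => if j < N y ω then (1 : ℝ≥0∞) else 0)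
        (fun ω => Lsup T x (pth (Y y j) ω)) P := by
      have e1 : Measurable fun f : (Fin d → ℤ) → ℕ => if j < f y then (1 : ℝ≥0∞) else 0 :=
        (Measurable.of_discrete (f := fun n : ℕ => if j < n then (1 : ℝ≥0∞) else 0)).comp
          (measurable_pi_apply y)
      have e2 : Measurable fun g : (Fin d → ℤ) × ℕ → ℝ≥0 → (Fin d → ℤ) => Lsup T x (g (y, j)) :=
        (measurable_Lsup T x).comp (measurable_pi_apply (y, j))
      exact hS.indepNY.comp e1 e2
    have h3 := lintegral_mul_eq_lintegral_mul_lintegral_of_indepFun (hI j) (hL j) hind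
    simp only [Pi.mul_apply] at h3
    rw [h3]
    gcongr
    exact Lsup_mean hS hC T hx y j
  calc ∑' j, ∫⁻ ω, (if j < N y ω then (1 : ℝ≥0∞) else 0) * Lsup T x (pth (Y y j) ω) ∂P
      ≤ ∑' j, (∫⁻ ω, (if j < N y ω then (1 : ℝ≥0∞) else 0) ∂P) * Cst C :=
        ENNReal.tsum_le_tsum h2
    _ = (∫⁻ ω, ∑' j : ℕ, (if j < N y ω then (1 : ℝ≥0∞) else 0) ∂P) * Cst C := by
        rw [ENNReal.tsum_mul_right, lintegral_tsum fun j => (hI j).aemeasurable]
    _ = ν * Cst C := by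
        congr 1
        rw [← mean_N hS y]
        refine lintegral_congr fun ω => ?_
        rw [tsum_eq_sum (s := Finset.range (N y ω))]
        · rw [Finset.sum_congr rfl (g := fun _ => (1 : ℝ≥0∞)) (fun j hj => by
            rw [if_pos (Finset.mem_range.1 hj)])]
          simp
        · intro j hj
          rw [Finset.mem_range] at hj
          rw [if_neg hj]

/-- mean coincidence time with the traps starting in a finite set -/
lemma act_mean (hS : IsTrapSystem P d ρ ν N Y) (hX : IsCTSRW P' d κ 0 X) {C : ℝ}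
    (hC : ∀ (t : ℝ≥0) (z : Fin d → ℤ),
      ctLaw d ρ t {z} ≤ ENNReal.ofReal (C * (1 + (t : ℝ)) ^ (-(5 / 2) : ℝ)))
    (B : Finset (Fin d → ℤ)) (T : ℕ) (ω' : Ω') :
    ∫⁻ ω, act (B : Set (Fin d → ℤ)) N Y X T ω ω' ∂P ≤ B.card * (ν * Cst C) := by
  classical
  have h1 : ∀ ω, act (B : Set (Fin d → ℤ)) N Y X T ω ω' =
      ∑ y ∈ B, ∑ j ∈ Finset.range (N y ω), Lsup T (pth X ω') (pth (Y y j) ω) := by
    intro ω
    unfold act
    rw [tsum_eq_sum (s := B)]
    · refine Finset.sum_congr rfl fun y hy => ?_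
      rw [if_pos (by exact_mod_cast hy)]
      rfl
    · intro y hy
      rw [if_neg (by exact_mod_cast hy)]
  have hm : ∀ y, Measurable fun ω =>
      ∑ j ∈ Finset.range (N y ω), Lsup T (pth X ω') (pth (Y y j) ω) := by
    intro y
    have hL : ∀ j, Measurable fun ω => Lsup T (pth X ω') (pth (Y y j) ω) := fun j =>
      (measurable_Lsup T _).comp (measurable_pi_lambda _ fun t => (hS.walk y j).measurable t)
    have hk : ∀ k : ℕ, Measurable fun ω : Ω =>
        ∑ j ∈ Finset.range k, Lsup T (pth X ω') (pth (Y y j) ω) := fun k =>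
      Finset.measurable_fun_sum _ fun j _ => hL j
    have h2 : Measurable fun q : ℕ × Ω => ∑ j ∈ Finset.range q.1,
        Lsup T (pth X ω') (pth (Y y j) q.2) :=
      measurable_from_prod_countable_right hk
    have h3 : Measurable fun ω : Ω => (N y ω, ω) := (hS.measN y).prodMk measurable_id
    have h4 := h2.comp h3
    exact h4
  simp only [h1]
  rw [lintegral_finsetSum _ fun y _ => hm y]
  calc ∑ y ∈ B, ∫⁻ ω, ∑ j ∈ Finset.range (N y ω), Lsup T (pth X ω') (pth (Y y j) ω) ∂P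
      ≤ ∑ _y ∈ B, (ν * Cst C) :=
        Finset.sum_le_sum fun y _ => sum_mean hS hC T (rc_pth hX ω') y
    _ = _ := by rw [Finset.sum_const, nsmul_eq_mul]

end Pool.Agent.Helper83.MobileTraps
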