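import Pool.Agent.Helper83.MobileTraps.Z2

open MeasureTheory ProbabilityTheory Filter
open scoped ENNReal NNReal Topology

set_option linter.unusedSectionVars false

namespace Pool.Agent.Helper83.MobileTraps

open Pool.Agent.Helper83.Traps

/-! ## independent σ-algebras of the traps -/

section sigma

variable {d : ℕ} {Ω : Type*}

/-- indices of the random variables: numbers and trajectories -/
abbrev Idx (d : ℕ) : Type := (Fin d → ℤ) ⊕ ((Fin d → ℤ) × ℕ)

/-- the starting site of an index -/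
def site : Idx d → (Fin d → ℤ)
  | Sum.inl y => y
  | Sum.inr p => p.1

/-- the σ-algebra of one random variable -/
def sig (N : (Fin d → ℤ) → Ω → ℕ) (Y : (Fin d → ℤ) → ℕ → ℝ≥0 → Ω → (Fin d → ℤ)) :
    Idx d → MeasurableSpace Ω
  | Sum.inl y => MeasurableSpace.comap (N y) inferInstance
  | Sum.inr p => MeasurableSpace.comap (fun ω (t : ℝ≥0) => Y p.1 p.2 t ω) inferInstance

/-- the σ-algebra of the traps that start in `S` -/
def sigS (N : (Fin d → ℤ) → Ω → ℕ) (Y : (Fin d → ℤ) → ℕ → ℝ≥0 → Ω → (Fin d → ℤ))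
    (S : Set (Fin d → ℤ)) : MeasurableSpace Ω := ⨆ i ∈ {i : Idx d | site i ∈ S}, sig N Y i

variable {N : (Fin d → ℤ) → Ω → ℕ} {Y : (Fin d → ℤ) → ℕ → ℝ≥0 → Ω → (Fin d → ℤ)}
  {S : Set (Fin d → ℤ)}

lemma sig_le_sigS {i : Idx d} (h : site i ∈ S) : sig N Y i ≤ sigS N Y S :=
  le_iSup₂ (f := fun i (_ : i ∈ {i : Idx d | site i ∈ S}) => sig N Y i) i h

lemma sigS_mono {S' : Set (Fin d → ℤ)} (h : S ⊆ S') : sigS N Y S ≤ sigS N Y S' :=
  iSup₂_le fun _ hi => sig_le_sigS (h hi)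

lemma measurable_N_sig {y : Fin d → ℤ} (hy : y ∈ S) : @Measurable Ω ℕ (sigS N Y S) _ (N y) := by
  rw [measurable_iff_comap_le]
  exact sig_le_sigS (i := Sum.inl y) hy

lemma measurable_Y_sig {y : Fin d → ℤ} (hy : y ∈ S) (j : ℕ) (t : ℝ≥0) :
    @Measurable Ω (Fin d → ℤ) (sigS N Y S) _ (Y y j t) := by
  have h1 : @Measurable Ω (ℝ≥0 → Fin d → ℤ) (sigS N Y S) _ (fun ω (t : ℝ≥0) => Y y j t ω) := by
    rw [measurable_iff_comap_le]
    exact sig_le_sigS (i := Sum.inr (y, j)) hy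
  exact (measurable_pi_apply t).comp h1

variable [mΩ : MeasurableSpace Ω] {P : Measure Ω} [IsProbabilityMeasure P] {ρ ν : ℝ≥0}

lemma sig_le (hS : IsTrapSystem P d ρ ν N Y) (i : Idx d) : sig N Y i ≤ mΩ := by
  rcases i with y | p
  · exact (measurable_iff_comap_le.1 (hS.measN y))
  · have h : Measurable fun ω (t : ℝ≥0) => Y p.1 p.2 t ω :=
      measurable_pi_lambda _ fun t => (hS.walk p.1 p.2).measurable t
    exact (measurable_iff_comap_le.1 h)

lemma sigS_le (hS : IsTrapSystem P d ρ ν N Y) (S : Set (Fin d → ℤ)) : sigS N Y S ≤ mΩ :=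
  iSup₂_le fun i _ => sig_le hS i

lemma iIndep_sig (hS : IsTrapSystem P d ρ ν N Y) : iIndep (sig N Y) P := by
  rw [iIndep_iff]
  intro s f hf
  have hL : ∀ y ∈ s.toLeft, MeasurableSet[MeasurableSpace.comap (N y) inferInstance]
      (f (Sum.inl y)) := fun y hy => hf _ (Finset.mem_toLeft.1 hy)
  have hR : ∀ p ∈ s.toRight, MeasurableSet[MeasurableSpace.comap
      (fun ω (t : ℝ≥0) => Y p.1 p.2 t ω) inferInstance] (f (Sum.inr p)) :=
    fun p hp => hf _ (Finset.mem_toRight.1 hp)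
  have e1 : ⋂ i ∈ s, f i = (⋂ y ∈ s.toLeft, f (Sum.inl y)) ∩ ⋂ p ∈ s.toRight, f (Sum.inr p) := by
    ext ω
    simp only [Set.mem_iInter, Set.mem_inter_iff, Finset.mem_toLeft, Finset.mem_toRight]
    constructor
    · intro h
      exact ⟨fun y hy => h _ hy, fun p hp => h _ hp⟩
    · rintro ⟨h1, h2⟩ i hi
      rcases i with y | p
      · exact h1 y hi
      · exact h2 p hi
  have m1 : MeasurableSet[MeasurableSpace.comap (fun (ω : Ω) (y : Fin d → ℤ) => N y ω)
      inferInstance] (⋂ y ∈ s.toLeft, f (Sum.inl y)) := by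
    refine Finset.measurableSet_biInter _ fun y hy => ?_
    have h1 : MeasurableSpace.comap (N y) inferInstance ≤
        MeasurableSpace.comap (fun (ω : Ω) (y : Fin d → ℤ) => N y ω) inferInstance := by
      have h2 : (N y) = (fun g : (Fin d → ℤ) → ℕ => g y) ∘
          (fun (ω : Ω) (y : Fin d → ℤ) => N y ω) := rfl
      rw [h2, ← MeasurableSpace.comap_comp]
      exact MeasurableSpace.comap_mono (measurable_pi_apply y).comap_le
    exact h1 _ (hL y hy)
  have m2 : MeasurableSet[MeasurableSpace.comap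
      (fun (ω : Ω) (p : (Fin d → ℤ) × ℕ) (t : ℝ≥0) => Y p.1 p.2 t ω) inferInstance]
      (⋂ p ∈ s.toRight, f (Sum.inr p)) := by
    refine Finset.measurableSet_biInter _ fun p hp => ?_
    have h1 : MeasurableSpace.comap (fun ω (t : ℝ≥0) => Y p.1 p.2 t ω) inferInstance ≤
        MeasurableSpace.comap
          (fun (ω : Ω) (p : (Fin d → ℤ) × ℕ) (t : ℝ≥0) => Y p.1 p.2 t ω) inferInstance := by
      have h2 : (fun ω (t : ℝ≥0) => Y p.1 p.2 t ω) =
          (fun g : (Fin d → ℤ) × ℕ → ℝ≥0 → (Fin d → ℤ) => g p) ∘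
          (fun (ω : Ω) (p : (Fin d → ℤ) × ℕ) (t : ℝ≥0) => Y p.1 p.2 t ω) := rfl
      rw [h2, ← MeasurableSpace.comap_comp]
      exact MeasurableSpace.comap_mono (measurable_pi_apply p).comap_le
    exact h1 _ (hR p hp)
  rw [e1, hS.indepNY.meas_inter m1 m2, hS.indepN.meas_biInter hL,
    hS.indepY.meas_biInter hR, Finset.prod_sum_eq_prod_toLeft_mul_prod_toRight]

lemma indep_sigS (hS : IsTrapSystem P d ρ ν N Y) (S : Set (Fin d → ℤ)) :
    Indep (sigS N Y S) (sigS N Y Sᶜ) P := by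
  refine indep_iSup_of_disjoint (sig_le hS) (iIndep_sig hS) ?_
  rw [Set.disjoint_left]
  intro i h1 h2
  exact h2 h1

/-! ## the boxes and the zero-one law -/

/-- boxes -/
noncomputable def Bx (d n : ℕ) : Finset (Fin d → ℤ) := Fintype.piFinset fun _ => Finset.Icc (-(n : ℤ)) n

lemma mem_Bx {n : ℕ} {y : Fin d → ℤ} : y ∈ Bx d n ↔ ∀ i, -(n : ℤ) ≤ y i ∧ y i ≤ n := by
  simp [Bx]

lemma Bx_mono {m n : ℕ} (h : m ≤ n) : Bx d m ⊆ Bx d n := by
  intro y hy
  rw [mem_Bx] at hy ⊢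
  intro i
  have := hy i
  have h' : (m : ℤ) ≤ n := by exact_mod_cast h
  omega

lemma exists_Bx (y : Fin d → ℤ) : ∃ n, y ∈ Bx d n := by
  refine ⟨∑ i, (y i).natAbs, ?_⟩
  rw [mem_Bx]
  intro i
  have h : (y i).natAbs ≤ ∑ i, (y i).natAbs :=
    Finset.single_le_sum (f := fun i => (y i).natAbs) (fun _ _ => Nat.zero_le _) (Finset.mem_univ i)
  omega

/-- events of the far traps are trivial -/
theorem zero_one (hS : IsTrapSystem P d ρ ν N Y) {E : ℕ → Set Ω}
    (hE : ∀ n, MeasurableSet[sigS N Y ((Bx d n : Set (Fin d → ℤ)))ᶜ] (E n)) :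
    P (⋂ m, ⋃ n ≥ m, E n) = 0 ∨ P (⋂ m, ⋃ n ≥ m, E n) = 1 := by
  set s := sig N Y with hs
  set U : ℕ → Set (Idx d) := fun n => {i | site i ∉ (Bx d n : Set (Fin d → ℤ))} with hU
  set f : Filter (Idx d) := ⨅ n, 𝓟 (U n) with hf
  have hdir : Directed (· ≥ ·) U := by
    intro a b
    refine ⟨max a b, ?_, ?_⟩
    · intro i hi h
      exact hi (Bx_mono (le_max_left a b) h)
    · intro i hi h
      exact hi (Bx_mono (le_max_right a b) h)
  have hbasis : f.HasBasis (fun _ => True) U := hasBasis_iInf_principal hdir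
  refine measure_zero_or_one_of_measurableSet_limsup (s := s) (f := f)
    (p := fun t => ∃ n, t ⊆ {i | site i ∈ (Bx d n : Set (Fin d → ℤ))})
    (ns := fun n : ℕ => {i | site i ∈ (Bx d n : Set (Fin d → ℤ))})
    (sig_le hS) (iIndep_sig hS) ?_ ?_ ?_ ?_ ?_
  · rintro t ⟨n, hn⟩
    refine hbasis.mem_iff.2 ⟨n, trivial, ?_⟩
    intro i hi h
    exact hi (hn h)
  · intro a b
    refine ⟨max a b, ?_, ?_⟩
    · intro i hi
      exact Bx_mono (le_max_left a b) hi
    · intro i hi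
      exact Bx_mono (le_max_right a b) hi
  · intro n
    exact ⟨n, le_rfl⟩
  · intro i
    obtain ⟨n, hn⟩ := exists_Bx (site i)
    exact ⟨n, hn⟩
  · rw [limsup_eq, MeasurableSpace.measurableSet_sInf]
    intro a ha
    obtain ⟨m, -, hm⟩ := hbasis.eventually_iff.1 ha
    have hle : sigS N Y ((Bx d m : Set (Fin d → ℤ)))ᶜ ≤ a := iSup₂_le fun i hi => hm hi
    have h1 : (⋂ k, ⋃ n ≥ k, E n) = ⋂ k, ⋃ n ≥ (k + m), E n := by
      apply Set.Subset.antisymm
      · exact Set.iInter_mono' fun k => ⟨k + m, le_rfl⟩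
      · refine Set.iInter_mono fun k => ?_
        exact Set.iUnion_mono fun n => Set.iUnion_mono' fun h => ⟨by omega, le_rfl⟩
    rw [h1]
    refine MeasurableSet.iInter fun k => MeasurableSet.iUnion fun n => MeasurableSet.iUnion
      fun hn => ?_
    refine hle _ ?_
    refine sigS_mono ?_ _ (hE n)
    intro y hy h
    exact hy (Bx_mono (by omega) h)

end sigma

end Pool.Agent.Helper83.MobileTraps
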