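import Pool.Agent.Helper83.MobileTraps.Z3

open MeasureTheory ProbabilityTheory Filter
open scoped ENNReal NNReal Topology

set_option linter.unusedSectionVars false

namespace Pool.Agent.Helper83.MobileTraps

open Pool.Agent.Helper83.Traps

/-! ## measurability with respect to the σ-algebra of the traps that start in `S` -/

section meas

variable {d : ℕ} [NeZero d] {Ω Ω' : Type*} [mΩ' : MeasurableSpace Ω'] {P' : Measure Ω'}
  [IsProbabilityMeasure P']
  {S : Set (Fin d → ℤ)} {N : (Fin d → ℤ) → Ω → ℕ}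
  {Y : (Fin d → ℤ) → ℕ → ℝ≥0 → Ω → (Fin d → ℤ)} {X : ℝ≥0 → Ω' → (Fin d → ℤ)}

lemma measurable_ZS {mΩ : MeasurableSpace Ω}
    (hN : ∀ y ∈ S, Measurable (N y)) (hY : ∀ y ∈ S, ∀ j t, Measurable (Y y j t))
    (hX : ∀ t, Measurable (X t)) (γ : ℝ≥0) (T : ℕ) (A : Set Ω') :
    Measurable (ZS P' S N Y X γ T A) :=
  (measurable_wS hN hY hX γ T).lintegral_prod_right' (ν := P'.restrict A)

lemma measurable_left {mΩ : MeasurableSpace Ω} {f : Ω × Ω' → ℝ≥0∞} (hf : Measurable f) (ω : Ω) :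
    Measurable fun ω' => f (ω, ω') := hf.comp (measurable_const.prodMk measurable_id)

lemma measurable_right {mΩ : MeasurableSpace Ω} {f : Ω × Ω' → ℝ≥0∞} (hf : Measurable f) (ω' : Ω') :
    Measurable fun ω => f (ω, ω') := hf.comp (measurable_id.prodMk measurable_const)

/-- good environments for the traps that start in `S` -/
def GS (P' : Measure Ω') (S : Set (Fin d → ℤ)) (N : (Fin d → ℤ) → Ω → ℕ)
    (Y : (Fin d → ℤ) → ℕ → ℝ≥0 → Ω → (Fin d → ℤ))
    (X : ℝ≥0 → Ω' → (Fin d → ℤ)) (γ : ℝ≥0) (M : ℝ) (T : ℕ) (ε : ℝ≥0∞) : Set Ω :=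
  {ω | ε * ZS P' S N Y X γ T Set.univ ω ≤ ZS P' S N Y X γ T (Near X M T) ω ∧
    ZS P' S N Y X γ T Set.univ ω ≠ 0}

lemma measurableSet_GS {mΩ : MeasurableSpace Ω}
    (hN : ∀ y ∈ S, Measurable (N y)) (hY : ∀ y ∈ S, ∀ j t, Measurable (Y y j t))
    (hX : ∀ t, Measurable (X t)) (γ : ℝ≥0) (M : ℝ) (T : ℕ) (ε : ℝ≥0∞) :
    MeasurableSet (GS P' S N Y X γ M T ε) := by
  have h1 := measurable_ZS (P' := P') hN hY hX γ T Set.univ
  have h2 := measurable_ZS (P' := P') hN hY hX γ T (Near X M T)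
  exact (measurableSet_le (h1.const_mul _) h2).inter (h1 (measurableSet_singleton 0)).compl

lemma ZS_le_one (γ : ℝ≥0) (T : ℕ) (A : Set Ω') (ω : Ω) : ZS P' S N Y X γ T A ω ≤ 1 := by
  unfold ZS
  calc ∫⁻ ω' in A, wS S N Y X γ T ω ω' ∂P' ≤ ∫⁻ _ in A, 1 ∂P' :=
        lintegral_mono fun ω' => wS_le_one γ T ω ω'
    _ ≤ 1 := by simp [prob_le_one]

end meas

/-! ## the key estimate -/

section key

variable {d : ℕ} [NeZero d] {Ω Ω' : Type*} [mΩ : MeasurableSpace Ω] [mΩ' : MeasurableSpace Ω']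
  {P : Measure Ω} {P' : Measure Ω'} [IsProbabilityMeasure P] [IsProbabilityMeasure P']
  {κ ρ ν : ℝ≥0} {N : (Fin d → ℤ) → Ω → ℕ}
  {Y : (Fin d → ℤ) → ℕ → ℝ≥0 → Ω → (Fin d → ℤ)} {X : ℝ≥0 → Ω' → (Fin d → ℤ)}

/-- the bound of the mean coincidence time -/
noncomputable def cB (B : Finset (Fin d → ℤ)) (ν : ℝ≥0) (C : ℝ) : ℝ≥0∞ := B.card * (ν * Cst C)

lemma cB_ne_top (B : Finset (Fin d → ℤ)) (ν : ℝ≥0) (C : ℝ) : cB B ν C ≠ ⊤ :=
  ENNReal.mul_ne_top (by simp) (ENNReal.mul_ne_top (by simp) (Cst_ne_top C))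

/-- mean coincidence time of the quenched path (without the traps from `B`) with the traps from
`B`, on an event of the other traps -/
lemma key (hS : IsTrapSystem P d ρ ν N Y) (hX : IsCTSRW P' d κ 0 X) {C : ℝ}
    (hC : ∀ (t : ℝ≥0) (z : Fin d → ℤ),
      ctLaw d ρ t {z} ≤ ENNReal.ofReal (C * (1 + (t : ℝ)) ^ (-(5 / 2) : ℝ)))
    (γ : ℝ≥0) (B : Finset (Fin d → ℤ)) (T : ℕ) {F : Set Ω}
    (hF : MeasurableSet[sigS N Y ((B : Set (Fin d → ℤ)))ᶜ] F) :
    ∫⁻ ω in F, AS P' ((B : Set (Fin d → ℤ)))ᶜ N Y X γ T ω /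
      ZS P' ((B : Set (Fin d → ℤ)))ᶜ N Y X γ T Set.univ ω ∂P ≤ cB B ν C * P F := by
  set S : Set (Fin d → ℤ) := ((B : Set (Fin d → ℤ)))ᶜ with hSdef
  have hle : sigS N Y S ≤ mΩ := sigS_le hS S
  have hle' : sigS N Y Sᶜ ≤ mΩ := sigS_le hS Sᶜ
  have hFm : MeasurableSet F := hle _ hF
  -- measurability with respect to the sub-σ-algebras
  have hw := @measurable_wS d _ Ω Ω' S N Y X (sigS N Y S) mΩ' (fun y hy => measurable_N_sig hy)
    (fun y hy j t => measurable_Y_sig hy j t) hX.measurable γ T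
  have hZ := @measurable_ZS d _ Ω Ω' mΩ' P' _ S N Y X (sigS N Y S) (fun y hy => measurable_N_sig hy)
    (fun y hy j t => measurable_Y_sig hy j t) hX.measurable γ T Set.univ
  have ha := @measurable_act d _ Ω Ω' Sᶜ N Y X (sigS N Y Sᶜ) mΩ'
    (fun y hy => measurable_N_sig hy)
    (fun y hy j t => measurable_Y_sig hy j t) hX.measurable T
  -- ambient measurability
  have hw0 : Measurable fun p : Ω × Ω' => wS S N Y X γ T p.1 p.2 :=
    measurable_wS (fun y _ => hS.measN y) (fun y _ j t => (hS.walk y j).measurable t)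
      hX.measurable γ T
  have hZ0 : Measurable (ZS P' S N Y X γ T Set.univ) :=
    measurable_ZS (fun y _ => hS.measN y) (fun y _ j t => (hS.walk y j).measurable t)
      hX.measurable γ T Set.univ
  have ha0 : Measurable fun p : Ω × Ω' => act Sᶜ N Y X T p.1 p.2 :=
    measurable_act (fun y _ => hS.measN y) (fun y _ j t => (hS.walk y j).measurable t)
      hX.measurable T
  set g : Ω → ℝ≥0∞ := F.indicator (fun ω => (ZS P' S N Y X γ T Set.univ ω)⁻¹) with hg
  have hg0 : Measurable g := hZ0.inv.indicator hFm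
  have hgS : @Measurable Ω ℝ≥0∞ (sigS N Y S) _ g := by
    have hZi : @Measurable Ω ℝ≥0∞ (sigS N Y S) _
      (fun ω => (ZS P' S N Y X γ T Set.univ ω)⁻¹) := hZ.inv
    exact hZi.indicator hF
  have h1 : ∫⁻ ω in F, AS P' S N Y X γ T ω / ZS P' S N Y X γ T Set.univ ω ∂P =
      ∫⁻ ω, ∫⁻ ω', g ω * (act Sᶜ N Y X T ω ω' * wS S N Y X γ T ω ω') ∂P' ∂P := by
    rw [← lintegral_indicator hFm]
    refine lintegral_congr fun ω => ?_
    have hm : Measurable fun ω' => act Sᶜ N Y X T ω ω' * wS S N Y X γ T ω ω' :=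
      (measurable_left ha0 ω).mul (measurable_left hw0 ω)
    rw [lintegral_const_mul _ hm]
    by_cases hω : ω ∈ F
    · rw [Set.indicator_of_mem hω, hg, Set.indicator_of_mem hω, mul_comm]
      rfl
    · rw [Set.indicator_of_notMem hω, hg, Set.indicator_of_notMem hω, zero_mul]
  rw [h1]
  have hjoint : Measurable fun p : Ω × Ω' =>
      g p.1 * (act Sᶜ N Y X T p.1 p.2 * wS S N Y X γ T p.1 p.2) :=
    (hg0.comp measurable_fst).mul (ha0.mul hw0)
  rw [lintegral_lintegral_swap hjoint.aemeasurable]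
  have h2 : ∀ ω', ∫⁻ ω, g ω * (act Sᶜ N Y X T ω ω' * wS S N Y X γ T ω ω') ∂P ≤
      (∫⁻ ω, g ω * wS S N Y X γ T ω ω' ∂P) * cB B ν C := by
    intro ω'
    have e1 : @Measurable Ω ℝ≥0∞ (sigS N Y S) _ (fun ω => g ω * wS S N Y X γ T ω ω') := by
      have e2 := @measurable_right Ω Ω' mΩ' (sigS N Y S) _ hw ω'
      exact hgS.mul e2
    have e3 : @Measurable Ω ℝ≥0∞ (sigS N Y Sᶜ) _ (fun ω => act Sᶜ N Y X T ω ω') :=
      @measurable_right Ω Ω' mΩ' (sigS N Y Sᶜ) _ ha ω'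
    have e4 := lintegral_mul_eq_lintegral_mul_lintegral_of_independent_measurableSpace
      hle hle' (indep_sigS hS S) e1 e3
    calc ∫⁻ ω, g ω * (act Sᶜ N Y X T ω ω' * wS S N Y X γ T ω ω') ∂P
        = ∫⁻ ω, (g ω * wS S N Y X γ T ω ω') * act Sᶜ N Y X T ω ω' ∂P :=
          lintegral_congr fun ω => by ring
      _ = (∫⁻ ω, g ω * wS S N Y X γ T ω ω' ∂P) * ∫⁻ ω, act Sᶜ N Y X T ω ω' ∂P := e4
      _ ≤ _ := by
        gcongr
        rw [hSdef, compl_compl]
        exact act_mean hS hX hC B T ω'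
  calc ∫⁻ ω', ∫⁻ ω, g ω * (act Sᶜ N Y X T ω ω' * wS S N Y X γ T ω ω') ∂P ∂P'
      ≤ ∫⁻ ω', (∫⁻ ω, g ω * wS S N Y X γ T ω ω' ∂P) * cB B ν C ∂P' := lintegral_mono h2
    _ = (∫⁻ ω', ∫⁻ ω, g ω * wS S N Y X γ T ω ω' ∂P ∂P') * cB B ν C := by
        have e1 : Measurable fun p : Ω × Ω' => g p.1 * wS S N Y X γ T p.1 p.2 :=
          (hg0.comp measurable_fst).mul hw0
        have e2 : Measurable fun ω' => ∫⁻ ω, g ω * wS S N Y X γ T ω ω' ∂P :=
          e1.lintegral_prod_left'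
        rw [lintegral_mul_const _ e2]
    _ = (∫⁻ ω, ∫⁻ ω', g ω * wS S N Y X γ T ω ω' ∂P' ∂P) * cB B ν C := by
        congr 1
        have e1 : Measurable fun p : Ω × Ω' => g p.1 * wS S N Y X γ T p.1 p.2 :=
          (hg0.comp measurable_fst).mul hw0
        exact (lintegral_lintegral_swap e1.aemeasurable).symm
    _ ≤ (∫⁻ ω, F.indicator (fun _ => 1) ω ∂P) * cB B ν C := by
        gcongr with ω
        rw [lintegral_const_mul _ (measurable_left hw0 ω)]
        by_cases hω : ω ∈ F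
        · rw [hg, Set.indicator_of_mem hω, Set.indicator_of_mem hω]
          have e5 : ∫⁻ ω', wS S N Y X γ T ω ω' ∂P' = ZS P' S N Y X γ T Set.univ ω := by
            unfold ZS; rw [Measure.restrict_univ]
          rw [e5]
          exact ENNReal.inv_mul_le_one _
        · rw [hg, Set.indicator_of_notMem hω, Set.indicator_of_notMem hω, zero_mul]
    _ = cB B ν C * P F := by
        have e6 : ∫⁻ ω, F.indicator (fun _ => (1 : ℝ≥0∞)) ω ∂P = P F :=
          lintegral_indicator_one hFm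
        rw [e6, mul_comm]

/-- Markov inequality for the coincidence time -/
lemma key_markov (hS : IsTrapSystem P d ρ ν N Y) (hX : IsCTSRW P' d κ 0 X) {C : ℝ}
    (hC : ∀ (t : ℝ≥0) (z : Fin d → ℤ),
      ctLaw d ρ t {z} ≤ ENNReal.ofReal (C * (1 + (t : ℝ)) ^ (-(5 / 2) : ℝ)))
    (γ : ℝ≥0) (B : Finset (Fin d → ℤ)) (T : ℕ) {F : Set Ω}
    (hF : MeasurableSet[sigS N Y ((B : Set (Fin d → ℤ)))ᶜ] F) (a : ℝ≥0∞) :
    a * P (F ∩ {ω | a ≤ AS P' ((B : Set (Fin d → ℤ)))ᶜ N Y X γ T ω /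
      ZS P' ((B : Set (Fin d → ℤ)))ᶜ N Y X γ T Set.univ ω}) ≤ cB B ν C * P F := by
  refine le_trans ?_ (key hS hX hC γ B T hF)
  set S : Set (Fin d → ℤ) := ((B : Set (Fin d → ℤ)))ᶜ with hSdef
  have hFm : MeasurableSet F := sigS_le hS S _ hF
  have hw0 : Measurable fun p : Ω × Ω' => wS S N Y X γ T p.1 p.2 :=
    measurable_wS (fun y _ => hS.measN y) (fun y _ j t => (hS.walk y j).measurable t)
      hX.measurable γ T
  have hZ0 : Measurable (ZS P' S N Y X γ T Set.univ) :=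
    measurable_ZS (fun y _ => hS.measN y) (fun y _ j t => (hS.walk y j).measurable t)
      hX.measurable γ T Set.univ
  have ha0 : Measurable fun p : Ω × Ω' => act Sᶜ N Y X T p.1 p.2 :=
    measurable_act (fun y _ => hS.measN y) (fun y _ j t => (hS.walk y j).measurable t)
      hX.measurable T
  have hA0 : Measurable (AS P' S N Y X γ T) := (ha0.mul hw0).lintegral_prod_right'
  have hm : Measurable fun ω => AS P' S N Y X γ T ω / ZS P' S N Y X γ T Set.univ ω :=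
    hA0.div hZ0
  have h1 := mul_meas_ge_le_lintegral (μ := P.restrict F) hm a
  rw [Measure.restrict_apply (measurableSet_le measurable_const hm), Set.inter_comm] at h1
  exact h1

end key

end Pool.Agent.Helper83.MobileTraps
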