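import Pool.Agent.Helper83.MobileTraps.Z4

open MeasureTheory ProbabilityTheory Filter
open scoped ENNReal NNReal Topology

set_option linter.unusedSectionVars false

namespace Pool.Agent.Helper83.MobileTraps

open Pool.Agent.Helper83.Traps

section io

variable {d : ℕ} [NeZero d] {Ω Ω' : Type*} [mΩ' : MeasurableSpace Ω'] {P' : Measure Ω'}
  [IsProbabilityMeasure P']
  {S : Set (Fin d → ℤ)} {N : (Fin d → ℤ) → Ω → ℕ}
  {Y : (Fin d → ℤ) → ℕ → ℝ≥0 → Ω → (Fin d → ℤ)} {X : ℝ≥0 → Ω' → (Fin d → ℤ)}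

/-- infinitely often good -/
def IO (P' : Measure Ω') (S : Set (Fin d → ℤ)) (N : (Fin d → ℤ) → Ω → ℕ)
    (Y : (Fin d → ℤ) → ℕ → ℝ≥0 → Ω → (Fin d → ℤ))
    (X : ℝ≥0 → Ω' → (Fin d → ℤ)) (γ : ℝ≥0) (M : ℝ) (ε : ℝ≥0∞) : Set Ω :=
  ⋂ t : ℕ, ⋃ T ≥ t, GS P' S N Y X γ M T ε

lemma measurableSet_IO {mΩ : MeasurableSpace Ω}
    (hN : ∀ y ∈ S, Measurable (N y)) (hY : ∀ y ∈ S, ∀ j t, Measurable (Y y j t))
    (hX : ∀ t, Measurable (X t)) (γ : ℝ≥0) (M : ℝ) (ε : ℝ≥0∞) :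
    MeasurableSet (IO P' S N Y X γ M ε) :=
  MeasurableSet.iInter fun _ => MeasurableSet.iUnion fun T => MeasurableSet.iUnion fun _ =>
    measurableSet_GS hN hY hX γ M T ε

end io

variable {d : ℕ} [NeZero d] {Ω Ω' : Type*} [mΩ : MeasurableSpace Ω] [mΩ' : MeasurableSpace Ω']
  {P : Measure Ω} {P' : Measure Ω'} [IsProbabilityMeasure P] [IsProbabilityMeasure P']
  {κ ρ ν γ : ℝ≥0} {N : (Fin d → ℤ) → Ω → ℕ}
  {Y : (Fin d → ℤ) → ℕ → ℝ≥0 → Ω → (Fin d → ℤ)} {X : ℝ≥0 → Ω' → (Fin d → ℤ)}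
  {S : Set (Fin d → ℤ)}

lemma wexp_mul_pos {K : ℝ≥0∞} (hK1 : K ≠ ⊤) : wexp (γ * K) ≠ 0 :=
  wexp_pos (ENNReal.mul_ne_top (by simp) hK1)

lemma wexp_ne_top (a : ℝ≥0∞) : wexp a ≠ ⊤ := ne_top_of_le_ne_top ENNReal.one_ne_top (wexp_le_one a)

lemma meas_w (hS : IsTrapSystem P d ρ ν N Y) (hX : IsCTSRW P' d κ 0 X) (T : ℕ) (ω : Ω) :
    (Measurable fun ω' => wS S N Y X γ T ω ω') ∧ Measurable fun ω' => act Sᶜ N Y X T ω ω' := by
  have hw0 : Measurable fun p : Ω × Ω' => wS S N Y X γ T p.1 p.2 :=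
    measurable_wS (fun y _ => hS.measN y) (fun y _ j t => (hS.walk y j).measurable t)
      hX.measurable γ T
  have ha0 : Measurable fun p : Ω × Ω' => act Sᶜ N Y X T p.1 p.2 :=
    measurable_act (fun y _ => hS.measN y) (fun y _ j t => (hS.walk y j).measurable t)
      hX.measurable T
  exact ⟨measurable_left hw0 ω, measurable_left ha0 ω⟩

/-- adding back the traps -/
lemma step_add (hS : IsTrapSystem P d ρ ν N Y) (hX : IsCTSRW P' d κ 0 X) {K ε : ℝ≥0∞}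
    (hK0 : K ≠ 0) (hK1 : K ≠ ⊤) (hε0 : ε ≠ 0) (hε1 : ε ≠ ⊤) {M : ℝ} {T : ℕ} {ω : Ω}
    (hω : ω ∈ GS P' S N Y X γ M T ε)
    (ha : AS P' S N Y X γ T ω / ZS P' S N Y X γ T Set.univ ω < ε * K / 2) :
    ω ∈ GS P' Set.univ N Y X γ M T (wexp (γ * K) * (ε / 2)) := by
  obtain ⟨h1, h2⟩ := hω
  set Z := ZS P' S N Y X γ T Set.univ ω with hZ
  have hZ1 : Z ≠ ⊤ := ne_top_of_le_ne_top ENNReal.one_ne_top (ZS_le_one γ T _ ω)
  set c := wexp (γ * K) with hc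
  have hc0 : c ≠ 0 := wexp_mul_pos hK1
  have hc1 : c ≠ ⊤ := wexp_ne_top _
  obtain ⟨m1, m2⟩ := meas_w (S := S) (γ := γ) hS hX T ω
  have h3 := compare (P' := P') hK0 hK1 γ T (measurableSet_Near hX M T) ω m1 m2
  have h4 : AS P' S N Y X γ T ω ≤ ε * K / 2 * Z := by
    rw [← ENNReal.div_le_iff h2 hZ1]
    exact ha.le
  have h5 : K⁻¹ * AS P' S N Y X γ T ω ≤ ε / 2 * Z := by
    calc K⁻¹ * AS P' S N Y X γ T ω ≤ K⁻¹ * (ε * K / 2 * Z) := by gcongr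
      _ = (K⁻¹ * K) * (ε / 2 * Z) := by rw [ENNReal.div_eq_inv_mul, ENNReal.div_eq_inv_mul]; ring
      _ = ε / 2 * Z := by rw [ENNReal.inv_mul_cancel hK0 hK1, one_mul]
  have h6 : c * (ε / 2) * Z ≤ ZS P' Set.univ N Y X γ T (Near X M T) ω := by
    have h7 : c * (ε / 2) * Z + c * (ε / 2) * Z ≤
        ZS P' Set.univ N Y X γ T (Near X M T) ω + c * (ε / 2) * Z := by
      calc c * (ε / 2) * Z + c * (ε / 2) * Z = c * ((ε / 2 + ε / 2) * Z) := by ring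
        _ = c * (ε * Z) := by rw [ENNReal.add_halves]
        _ ≤ c * ZS P' S N Y X γ T (Near X M T) ω := by gcongr
        _ ≤ ZS P' Set.univ N Y X γ T (Near X M T) ω + c * (K⁻¹ * AS P' S N Y X γ T ω) := h3
        _ ≤ ZS P' Set.univ N Y X γ T (Near X M T) ω + c * (ε / 2 * Z) := by gcongr
        _ = _ := by ring
    refine (ENNReal.add_le_add_iff_right ?_).1 h7
    exact ENNReal.mul_ne_top (ENNReal.mul_ne_top hc1 (ENNReal.div_ne_top hε1 (by norm_num))) hZ1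
  have h8 : c * (ε / 2) * Z ≠ 0 := by
    refine mul_ne_zero (mul_ne_zero hc0 ?_) h2
    exact (ENNReal.div_pos hε0 (by norm_num)).ne'
  refine ⟨?_, ?_⟩
  · refine le_trans ?_ h6
    gcongr
    exact ZS_univ_le γ T Set.univ ω
  · intro h9
    have h10 : ZS P' Set.univ N Y X γ T (Near X M T) ω ≤ ZS P' Set.univ N Y X γ T Set.univ ω :=
      ZS_mono γ T (Set.subset_univ _) ω
    rw [h9] at h10
    exact h8 (le_antisymm (h6.trans h10) zero_le)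

/-- removing the traps -/
lemma step_remove (hS : IsTrapSystem P d ρ ν N Y) (hX : IsCTSRW P' d κ 0 X) {K : ℝ≥0∞}
    (hK0 : K ≠ 0) (hK1 : K ≠ ⊤) {M : ℝ} {T : ℕ} {ω : Ω}
    (hω : ω ∈ GS P' Set.univ N Y X γ M T (1 / 2))
    (ha : AS P' S N Y X γ T ω / ZS P' S N Y X γ T Set.univ ω < K / 2) :
    ω ∈ GS P' S N Y X γ M T (wexp (γ * K) / 4) := by
  obtain ⟨h1, h2⟩ := hω
  set Z := ZS P' S N Y X γ T Set.univ ω with hZ
  have hZ1 : Z ≠ ⊤ := ne_top_of_le_ne_top ENNReal.one_ne_top (ZS_le_one γ T _ ω)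
  have hZ0 : Z ≠ 0 := by
    intro h
    have h3 := ZS_univ_le (P' := P') (S := S) (N := N) (Y := Y) (X := X) γ T Set.univ ω
    rw [← hZ, h] at h3
    exact h2 (le_antisymm h3 zero_le)
  set c := wexp (γ * K) with hc
  have hc1 : c ≠ ⊤ := wexp_ne_top _
  obtain ⟨m1, m2⟩ := meas_w (S := S) (γ := γ) hS hX T ω
  have h3 := compare (P' := P') hK0 hK1 γ T MeasurableSet.univ ω m1 m2
  have h4 : AS P' S N Y X γ T ω ≤ K / 2 * Z := by
    rw [← ENNReal.div_le_iff hZ0 hZ1]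
    exact ha.le
  have h5 : K⁻¹ * AS P' S N Y X γ T ω ≤ 1 / 2 * Z := by
    calc K⁻¹ * AS P' S N Y X γ T ω ≤ K⁻¹ * (K / 2 * Z) := by gcongr
      _ = (K⁻¹ * K) * (1 / 2 * Z) := by rw [ENNReal.div_eq_inv_mul, one_div]; ring
      _ = 1 / 2 * Z := by rw [ENNReal.inv_mul_cancel hK0 hK1, one_mul]
  have h6 : c * (1 / 2) * Z ≤ ZS P' Set.univ N Y X γ T Set.univ ω := by
    have h7 : c * (1 / 2) * Z + c * (1 / 2) * Z ≤
        ZS P' Set.univ N Y X γ T Set.univ ω + c * (1 / 2) * Z := by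
      calc c * (1 / 2) * Z + c * (1 / 2) * Z = c * ((1 / 2 + 1 / 2) * Z) := by ring
        _ = c * Z := by rw [ENNReal.add_halves, one_mul]
        _ ≤ ZS P' Set.univ N Y X γ T Set.univ ω + c * (K⁻¹ * AS P' S N Y X γ T ω) := h3
        _ ≤ ZS P' Set.univ N Y X γ T Set.univ ω + c * (1 / 2 * Z) := by gcongr
        _ = _ := by ring
    refine (ENNReal.add_le_add_iff_right ?_).1 h7
    exact ENNReal.mul_ne_top (ENNReal.mul_ne_top hc1 (by norm_num)) hZ1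
  refine ⟨?_, hZ0⟩
  calc c / 4 * Z = 1 / 2 * (c * (1 / 2) * Z) := by
        rw [ENNReal.div_eq_inv_mul]
        have : (4 : ℝ≥0∞)⁻¹ = 1 / 2 * (1 / 2) := by
          rw [one_div, ← ENNReal.mul_inv (by norm_num) (by norm_num)]
          norm_num
        rw [this]; ring
    _ ≤ 1 / 2 * ZS P' Set.univ N Y X γ T Set.univ ω := by gcongr
    _ ≤ ZS P' Set.univ N Y X γ T (Near X M T) ω := h1
    _ ≤ ZS P' S N Y X γ T (Near X M T) ω := ZS_univ_le γ T _ ω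

lemma wt_eq_wS (hS : IsTrapSystem P d ρ ν N Y) (hX : IsCTSRW P' d κ 0 X) (T : ℕ) (ω : Ω)
    (ω' : Ω') : wt N Y X γ T ω ω' = wS Set.univ N Y X γ T ω ω' := by
  classical
  unfold wt wS act
  rw [weight_eq hS γ T (rc_pth hX ω'), ← ENNReal.tsum_mul_left]
  congr 1
  refine tsum_congr fun y => ?_
  rw [if_pos (Set.mem_univ _), Finset.mul_sum]
  refine Finset.sum_congr rfl fun j _ => ?_
  congr 1
  exact (Lsup_eq (rc_pth hX ω') (rc_pth (hS.walk y j) ω) T).symm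

lemma good_eq (hS : IsTrapSystem P d ρ ν N Y) (hX : IsCTSRW P' d κ 0 X) (M : ℝ) (T : ℕ) :
    Good P' N Y X γ M T ⊆ GS P' Set.univ N Y X γ M T (1 / 2) := by
  intro ω hω
  obtain ⟨h1, h2⟩ := hω
  have e1 : Zq P' N Y X γ T ω = ZS P' Set.univ N Y X γ T Set.univ ω := by
    unfold Zq ZS
    rw [Measure.restrict_univ]
    exact lintegral_congr fun ω' => wt_eq_wS hS hX T ω ω'
  have e2 : ZA P' N Y X γ T (Near X M T) ω = ZS P' Set.univ N Y X γ T (Near X M T) ω := by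
    unfold ZA ZS
    exact lintegral_congr fun ω' => wt_eq_wS hS hX T ω ω'
  rw [e1, e2] at h1
  rw [e1] at h2
  refine ⟨?_, h2⟩
  calc 1 / 2 * ZS P' Set.univ N Y X γ T Set.univ ω ≤
        1 / 2 * (2 * ZS P' Set.univ N Y X γ T (Near X M T) ω) := by gcongr
    _ = _ := by
        rw [← mul_assoc, one_div, ENNReal.inv_mul_cancel (by norm_num) (by norm_num), one_mul]

/-- the constant for the box `B` -/
noncomputable def KB (B : Finset (Fin d → ℤ)) (ν : ℝ≥0) (C : ℝ) : ℝ≥0∞ := 32 * cB B ν C + 1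

lemma KB_ne_zero (B : Finset (Fin d → ℤ)) (ν : ℝ≥0) (C : ℝ) : KB B ν C ≠ 0 := by
  unfold KB
  exact (lt_of_lt_of_le one_pos le_add_self).ne'

lemma KB_ne_top (B : Finset (Fin d → ℤ)) (ν : ℝ≥0) (C : ℝ) : KB B ν C ≠ ⊤ := by
  unfold KB
  exact ENNReal.add_ne_top.2 ⟨ENNReal.mul_ne_top (by norm_num) (cB_ne_top B ν C), by norm_num⟩

/-- the environment without the traps from `B` is good with probability at least `1/16` -/
lemma outer_prob (hS : IsTrapSystem P d ρ ν N Y) (hX : IsCTSRW P' d κ 0 X) {C : ℝ}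
    (hC : ∀ (t : ℝ≥0) (z : Fin d → ℤ),
      ctLaw d ρ t {z} ≤ ENNReal.ofReal (C * (1 + (t : ℝ)) ^ (-(5 / 2) : ℝ)))
    {θ CX CY CY2 C0 : ℝ}
    (hW : Weak d κ ρ ν γ θ CX CY CY2 C0) (B : Finset (Fin d → ℤ)) {T : ℕ} (hT : 1 ≤ T) :
    1 / 16 ≤ P (GS P' ((B : Set (Fin d → ℤ)))ᶜ N Y X γ (Mdiff κ CY2) T
      (wexp (γ * KB B ν C) / 4)) := by
  set S : Set (Fin d → ℤ) := ((B : Set (Fin d → ℤ)))ᶜ with hSdef
  set K := KB B ν C with hK
  have hK0 : K ≠ 0 := KB_ne_zero B ν C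
  have hK1 : K ≠ ⊤ := KB_ne_top B ν C
  set bad : Set Ω := {ω | K / 2 ≤ AS P' S N Y X γ T ω / ZS P' S N Y X γ T Set.univ ω} with hbad
  have h1 : P bad ≤ 1 / 16 := by
    have h2 := key_markov (P := P) (P' := P') hS hX hC γ B T (F := Set.univ)
      (@MeasurableSet.univ Ω (sigS N Y S)) (K / 2)
    rw [Set.univ_inter, measure_univ, mul_one] at h2
    have h3 : 16 * cB B ν C ≤ K / 2 := by
      rw [ENNReal.le_div_iff_mul_le (Or.inl (by norm_num)) (Or.inl (by norm_num)), hK]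
      unfold KB
      calc 16 * cB B ν C * 2 = 32 * cB B ν C := by ring
        _ ≤ _ := le_self_add
    have h4 : K / 2 * P bad ≤ K / 2 * (1 / 16) := by
      calc K / 2 * P bad ≤ cB B ν C := h2
        _ = (16 * cB B ν C) * (1 / 16) := by
            rw [one_div, mul_comm (16 : ℝ≥0∞), mul_assoc, ENNReal.mul_inv_cancel (by norm_num)
              (by norm_num), mul_one]
        _ ≤ K / 2 * (1 / 16) := by gcongr
    refine (ENNReal.mul_le_mul_iff_right ?_ ?_).1 h4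
    · exact (ENNReal.div_pos hK0 (by norm_num)).ne'
    · exact ENNReal.div_ne_top hK1 (by norm_num)
  have h2 := good_prob (P := P) (P' := P') hS hX hW hT
  have h3 : Good P' N Y X γ (Mdiff κ CY2) T ⊆
      bad ∪ GS P' S N Y X γ (Mdiff κ CY2) T (wexp (γ * K) / 4) := by
    intro ω hω
    by_cases hb : ω ∈ bad
    · exact Or.inl hb
    · right
      rw [hbad] at hb
      simp only [Set.mem_ofPred_eq, not_le] at hb
      exact step_remove hS hX hK0 hK1 (good_eq hS hX _ T hω) hb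
  have h4 : (1 : ℝ≥0∞) / 8 ≤
      1 / 16 + P (GS P' S N Y X γ (Mdiff κ CY2) T (wexp (γ * K) / 4)) := by
    calc (1 : ℝ≥0∞) / 8 ≤ P (Good P' N Y X γ (Mdiff κ CY2) T) := h2
      _ ≤ P (bad ∪ GS P' S N Y X γ (Mdiff κ CY2) T (wexp (γ * K) / 4)) := measure_mono h3
      _ ≤ P bad + P (GS P' S N Y X γ (Mdiff κ CY2) T (wexp (γ * K) / 4)) := measure_union_le _ _
      _ ≤ _ := by gcongr
  have h5 : (1 : ℝ≥0∞) / 8 = 1 / 16 + 1 / 16 := by
    have : (16 : ℝ≥0∞) = 8 * 2 := by norm_num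
    rw [this, one_div, one_div, ENNReal.mul_inv (by norm_num) (by norm_num), ← mul_add,
      ENNReal.inv_two_add_inv_two, mul_one]
  rw [h5] at h4
  exact (ENNReal.add_le_add_iff_left (by norm_num)).1 h4

lemma outer_io (hS : IsTrapSystem P d ρ ν N Y) (hX : IsCTSRW P' d κ 0 X) {C : ℝ}
    (hC : ∀ (t : ℝ≥0) (z : Fin d → ℤ),
      ctLaw d ρ t {z} ≤ ENNReal.ofReal (C * (1 + (t : ℝ)) ^ (-(5 / 2) : ℝ)))
    {θ CX CY CY2 C0 : ℝ}
    (hW : Weak d κ ρ ν γ θ CX CY CY2 C0) (B : Finset (Fin d → ℤ)) :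
    1 / 16 ≤ P (IO P' ((B : Set (Fin d → ℤ)))ᶜ N Y X γ (Mdiff κ CY2)
      (wexp (γ * KB B ν C) / 4)) := by
  unfold IO
  have hm : ∀ T, MeasurableSet (GS P' ((B : Set (Fin d → ℤ)))ᶜ N Y X γ (Mdiff κ CY2) T
      (wexp (γ * KB B ν C) / 4)) := fun T =>
    measurableSet_GS (fun y _ => hS.measN y) (fun y _ j t => (hS.walk y j).measurable t)
      hX.measurable γ _ T _
  have hU : ∀ n, MeasurableSet (⋃ T ≥ n, GS P' ((B : Set (Fin d → ℤ)))ᶜ N Y X γ (Mdiff κ CY2) T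
      (wexp (γ * KB B ν C) / 4)) := fun n =>
    MeasurableSet.iUnion fun T => MeasurableSet.iUnion fun _ => hm T
  have hanti : Antitone fun n => ⋃ T ≥ n, GS P' ((B : Set (Fin d → ℤ)))ᶜ N Y X γ (Mdiff κ CY2) T
      (wexp (γ * KB B ν C) / 4) := by
    intro a b hab
    exact Set.iUnion_mono fun T => Set.iUnion_mono' fun h => ⟨le_trans hab h, le_rfl⟩
  rw [hanti.measure_iInter (fun n => (hU n).nullMeasurableSet) ⟨0, measure_ne_top _ _⟩]
  refine le_iInf fun n => ?_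
  refine (outer_prob hS hX hC hW B (T := n + 1) (by omega)).trans (measure_mono ?_)
  intro ω hω
  simp only [Set.mem_iUnion]
  exact ⟨n + 1, by omega, hω⟩

/-- almost surely, adding the traps from `B` keeps the environment good infinitely often -/
lemma add_back (hS : IsTrapSystem P d ρ ν N Y) (hX : IsCTSRW P' d κ 0 X) {C : ℝ}
    (hC : ∀ (t : ℝ≥0) (z : Fin d → ℤ),
      ctLaw d ρ t {z} ≤ ENNReal.ofReal (C * (1 + (t : ℝ)) ^ (-(5 / 2) : ℝ)))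
    (γ : ℝ≥0) (M : ℝ) (B : Finset (Fin d → ℤ)) {ε : ℝ≥0∞} (hε0 : ε ≠ 0) (hε1 : ε ≠ ⊤) :
    P (IO P' ((B : Set (Fin d → ℤ)))ᶜ N Y X γ M ε \
      ⋃ K : ℕ, IO P' Set.univ N Y X γ M (wexp (γ * ((K : ℝ≥0∞) + 1)) * (ε / 2))) = 0 := by
  set S : Set (Fin d → ℤ) := ((B : Set (Fin d → ℤ)))ᶜ with hSdef
  set I := IO P' S N Y X γ M ε with hI
  set J : ℕ → Set Ω := fun K =>
    IO P' Set.univ N Y X γ M (wexp (γ * ((K : ℝ≥0∞) + 1)) * (ε / 2)) with hJ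
  -- for each `K`
  have hK : ∀ K : ℕ, ε * ((K : ℝ≥0∞) + 1) / 2 * P (I \ J K) ≤ cB B ν C := by
    intro K
    set a : ℝ≥0∞ := ε * ((K : ℝ≥0∞) + 1) / 2 with ha
    have hK0 : ((K : ℝ≥0∞) + 1) ≠ 0 := (lt_of_lt_of_le one_pos le_add_self).ne'
    have hK1 : ((K : ℝ≥0∞) + 1) ≠ ⊤ := ENNReal.add_ne_top.2 ⟨by simp, by simp⟩
    set δ : ℝ≥0∞ := wexp (γ * ((K : ℝ≥0∞) + 1)) * (ε / 2) with hδ
    set Nt : ℕ → Set Ω := fun t => {ω | ∀ T ≥ t, ω ∉ GS P' Set.univ N Y X γ M T δ} with hNt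
    have h1 : I \ J K = ⋃ t, I ∩ Nt t := by
      ext ω
      simp only [hJ, IO, hNt, Set.mem_diff, Set.mem_iInter, Set.mem_iUnion, Set.mem_inter_iff,
        Set.mem_ofPred_eq, not_forall, not_exists]
      constructor
      · rintro ⟨h2, t, ht⟩
        exact ⟨t, h2, fun T hT h => ht T hT h⟩
      · rintro ⟨t, h2, ht⟩
        exact ⟨h2, t, fun T hT h => ht T hT h⟩
    have hmono : Monotone fun t => I ∩ Nt t := by
      intro s t hst ω hω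
      exact ⟨hω.1, fun T hT => hω.2 T (hst.trans hT)⟩
    rw [h1, hmono.measure_iUnion, ENNReal.mul_iSup]
    refine iSup_le fun t => ?_
    set G : ℕ → Set Ω := fun s => GS P' S N Y X γ M (t + s) ε with hG
    have hGm : ∀ s, MeasurableSet[sigS N Y S] (G s) := fun s =>
      @measurableSet_GS d _ Ω Ω' mΩ' P' _ S N Y X (sigS N Y S) (fun y hy => measurable_N_sig hy)
        (fun y hy j t => measurable_Y_sig hy j t) hX.measurable γ M (t + s) ε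
    have hDm : ∀ s, MeasurableSet[sigS N Y S] (disjointed G s) := fun s =>
      @MeasurableSet.disjointed Ω (sigS N Y S) G hGm s
    have hDm0 : ∀ s, MeasurableSet (disjointed G s) := fun s => sigS_le hS S _ (hDm s)
    set bad : ℕ → Set Ω := fun s =>
      {ω | a ≤ AS P' S N Y X γ (t + s) ω / ZS P' S N Y X γ (t + s) Set.univ ω} with hbad
    have h2 : I ∩ Nt t ⊆ ⋃ s, disjointed G s ∩ bad s := by
      rintro ω ⟨hωI, hωN⟩
      have h3 : ω ∈ ⋃ s, G s := by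
        have h4 := Set.mem_iInter.1 hωI t
        simp only [Set.mem_iUnion] at h4
        obtain ⟨T, hT, h5⟩ := h4
        refine Set.mem_iUnion.2 ⟨T - t, ?_⟩
        show ω ∈ GS P' S N Y X γ M (t + (T - t)) ε
        rw [Nat.add_sub_cancel' hT]
        exact h5
      rw [← iUnion_disjointed] at h3
      obtain ⟨s, hs⟩ := Set.mem_iUnion.1 h3
      refine Set.mem_iUnion.2 ⟨s, hs, ?_⟩
      by_contra hb
      rw [hbad] at hb
      simp only [Set.mem_ofPred_eq, not_le] at hb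
      have h6 : ω ∈ G s := disjointed_subset G s hs
      exact hωN (t + s) (by omega) (step_add hS hX hK0 hK1 hε0 hε1 h6 hb)
    calc a * P (I ∩ Nt t) ≤ a * P (⋃ s, disjointed G s ∩ bad s) := by gcongr
      _ ≤ a * ∑' s, P (disjointed G s ∩ bad s) := by gcongr; exact measure_iUnion_le _
      _ = ∑' s, a * P (disjointed G s ∩ bad s) := ENNReal.tsum_mul_left.symm
      _ ≤ ∑' s, cB B ν C * P (disjointed G s) :=
          ENNReal.tsum_le_tsum fun s => key_markov hS hX hC γ B (t + s) (hDm s) a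
      _ = cB B ν C * ∑' s, P (disjointed G s) := ENNReal.tsum_mul_left
      _ = cB B ν C * P (⋃ s, disjointed G s) := by
          rw [measure_iUnion (disjoint_disjointed G) hDm0]
      _ ≤ cB B ν C * 1 := by gcongr; exact prob_le_one
      _ = cB B ν C := mul_one _
  by_contra hne
  set p := P (I \ ⋃ K, J K) with hp
  have h2 : ∀ K : ℕ, (K : ℝ≥0∞) * (ε / 2 * p) ≤ cB B ν C := by
    intro K
    calc (K : ℝ≥0∞) * (ε / 2 * p) ≤ ((K : ℝ≥0∞) + 1) * (ε / 2 * p) := by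
          gcongr; exact le_self_add
      _ = ε * ((K : ℝ≥0∞) + 1) / 2 * p := by
          rw [ENNReal.div_eq_inv_mul, ENNReal.div_eq_inv_mul]; ring
      _ ≤ ε * ((K : ℝ≥0∞) + 1) / 2 * P (I \ J K) :=
          mul_le_mul' le_rfl (measure_mono (Set.diff_subset_diff_right (Set.subset_iUnion J K)))
      _ ≤ _ := hK K
  have h3 : ε / 2 * p ≠ 0 :=
    mul_ne_zero (ENNReal.div_pos hε0 (by norm_num)).ne' hne
  obtain ⟨n, hn⟩ := ENNReal.exists_nat_mul_gt h3 (cB_ne_top B ν C)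
  exact absurd (h2 n) (not_le.2 hn)

/-- almost surely the environment is good infinitely often -/
theorem ae_io (hS : IsTrapSystem P d ρ ν N Y) (hX : IsCTSRW P' d κ 0 X) {C : ℝ}
    (hC : ∀ (t : ℝ≥0) (z : Fin d → ℤ),
      ctLaw d ρ t {z} ≤ ENNReal.ofReal (C * (1 + (t : ℝ)) ^ (-(5 / 2) : ℝ)))
    {θ CX CY CY2 C0 : ℝ} (hW : Weak d κ ρ ν γ θ CX CY CY2 C0) :
    ∀ᵐ ω ∂P, ∃ δ : ℝ≥0∞, δ ≠ 0 ∧ ω ∈ IO P' Set.univ N Y X γ (Mdiff κ CY2) δ := by
  set M := Mdiff κ CY2 with hM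
  set E : ℕ → Set Ω := fun n => IO P' ((Bx d n : Set (Fin d → ℤ)))ᶜ N Y X γ M
    (wexp (γ * KB (Bx d n) ν C) / 4) with hE
  have hEs : ∀ n, MeasurableSet[sigS N Y ((Bx d n : Set (Fin d → ℤ)))ᶜ] (E n) := fun n =>
    @measurableSet_IO d _ Ω Ω' mΩ' P' _ ((Bx d n : Set (Fin d → ℤ)))ᶜ N Y X
      (sigS N Y ((Bx d n : Set (Fin d → ℤ)))ᶜ) (fun y hy => measurable_N_sig hy)
        (fun y hy j t => measurable_Y_sig hy j t) hX.measurable γ M _
  have hEm : ∀ n, MeasurableSet (E n) := fun n => sigS_le hS _ _ (hEs n)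
  have hP : ∀ n, 1 / 16 ≤ P (E n) := fun n => outer_io hS hX hC hW (Bx d n)
  have hU : ∀ m, MeasurableSet (⋃ n ≥ m, E n) := fun m =>
    MeasurableSet.iUnion fun n => MeasurableSet.iUnion fun _ => hEm n
  have hanti : Antitone fun m => ⋃ n ≥ m, E n := by
    intro a b hab
    exact Set.iUnion_mono fun T => Set.iUnion_mono' fun h => ⟨le_trans hab h, le_rfl⟩
  have h1 : 1 / 16 ≤ P (⋂ m, ⋃ n ≥ m, E n) := by
    rw [hanti.measure_iInter (fun n => (hU n).nullMeasurableSet) ⟨0, measure_ne_top _ _⟩]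
    refine le_iInf fun m => ?_
    refine (hP m).trans (measure_mono ?_)
    intro ω hω
    simp only [Set.mem_iUnion]
    exact ⟨m, le_rfl, hω⟩
  have h2 : P (⋂ m, ⋃ n ≥ m, E n) = 1 := by
    rcases zero_one hS hEs with h | h
    · rw [h] at h1
      norm_num at h1
    · exact h
  have h3 : ∀ᵐ ω ∂P, ω ∈ ⋂ m, ⋃ n ≥ m, E n := by
    rw [← prob_compl_eq_zero_iff (MeasurableSet.iInter hU)] at h2
    exact h2
  have hε0 : ∀ n, wexp (γ * KB (Bx d n) ν C) / 4 ≠ 0 := fun n =>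
    (ENNReal.div_pos (wexp_mul_pos (KB_ne_top _ ν C)) (by norm_num)).ne'
  have hε1 : ∀ n, wexp (γ * KB (Bx d n) ν C) / 4 ≠ ⊤ := fun n =>
    ENNReal.div_ne_top (wexp_ne_top _) (by norm_num)
  have h4 : ∀ᵐ ω ∂P, ∀ n, ω ∈ E n →
      ω ∈ ⋃ K : ℕ, IO P' Set.univ N Y X γ M
        (wexp (γ * ((K : ℝ≥0∞) + 1)) * ((wexp (γ * KB (Bx d n) ν C) / 4) / 2)) := by
    rw [ae_all_iff]
    intro n
    have h5 := add_back (P := P) (P' := P') hS hX hC γ M (Bx d n) (hε0 n) (hε1 n)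
    rw [measure_eq_zero_iff_ae_notMem] at h5
    filter_upwards [h5] with ω hω hωE
    by_contra hcon
    exact hω ⟨hωE, hcon⟩
  filter_upwards [h3, h4] with ω h5 h6
  have h7 := Set.mem_iInter.1 h5 0
  simp only [Set.mem_iUnion] at h7
  obtain ⟨n, -, h8⟩ := h7
  obtain ⟨K, hK⟩ := Set.mem_iUnion.1 (h6 n h8)
  refine ⟨_, ?_, hK⟩
  refine mul_ne_zero (wexp_mul_pos (ENNReal.add_ne_top.2 ⟨by simp, by simp⟩)) ?_
  exact (ENNReal.div_pos (hε0 n) (by norm_num)).ne'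

/-- **Main theorem, almost sure version.** -/
theorem ae_not_superdiffusive.{u, v} {d : ℕ} (hd : 5 ≤ d) {κ ρ : ℝ≥0} (hκ : 0 < κ) (hρ : 0 < ρ) :
    ∃ (θ : ℝ≥0) (M : ℝ), 0 < θ ∧
      ∀ (Ω : Type u) (Ω' : Type v) [MeasurableSpace Ω] [MeasurableSpace Ω']
        (P : Measure Ω) (P' : Measure Ω') [IsProbabilityMeasure P] [IsProbabilityMeasure P']
        (ν γ : ℝ≥0) (N : (Fin d → ℤ) → Ω → ℕ) (Y : (Fin d → ℤ) → ℕ → ℝ≥0 → Ω → (Fin d → ℤ))
        (X : ℝ≥0 → Ω' → (Fin d → ℤ)),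
        ν * γ ^ 2 ≤ θ → IsTrapSystem P d ρ ν N Y → IsCTSRW P' d κ 0 X →
        (∀ᵐ ω ∂P, ∃ ε : ℝ≥0∞, 0 < ε ∧ ∀ t₀ : ℝ≥0, ∃ t ≥ t₀,
          ε ≤ quenched P' X γ (field N Y ω) t {x | len (x t) ≤ M * Real.sqrt t}) ∧
        ∀ᵐ ω ∂P, ¬ SuperDiffusive P' X γ (field N Y ω) := by
  haveI : NeZero d := ⟨by omega⟩
  obtain ⟨θ0, θ, CX, CY, CY2, C0, hθ0, hW⟩ := exists_weak.{u, v} hd hκ hρ
  obtain ⟨C, -, hC⟩ := ctLaw_le hd hρ
  refine ⟨θ0, Mdiff κ CY2, hθ0, ?_⟩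
  intro Ω Ω' _ _ P P' _ _ ν γ N Y X hνγ hS hX
  have h1 := ae_io hS hX hC (hW hνγ hS hX)
  have h2 : ∀ᵐ ω ∂P, ∃ ε : ℝ≥0∞, 0 < ε ∧ ∀ t₀ : ℝ≥0, ∃ t ≥ t₀,
      ε ≤ quenched P' X γ (field N Y ω) t {x | len (x t) ≤ Mdiff κ CY2 * Real.sqrt t} := by
    filter_upwards [h1] with ω hω
    obtain ⟨δ, hδ0, hδ⟩ := hω
    refine ⟨δ, pos_iff_ne_zero.2 hδ0, fun t₀ => ?_⟩
    obtain ⟨n, hn⟩ := exists_nat_ge t₀
    have h3 := Set.mem_iInter.1 hδ n
    simp only [Set.mem_iUnion] at h3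
    obtain ⟨T, hT, h4, h5⟩ := h3
    refine ⟨(T : ℝ≥0), le_trans hn (by exact_mod_cast hT), ?_⟩
    have e1 : Zq P' N Y X γ T ω = ZS P' Set.univ N Y X γ T Set.univ ω := by
      unfold Zq ZS
      rw [Measure.restrict_univ]
      exact lintegral_congr fun ω' => wt_eq_wS hS hX T ω ω'
    have e2 : ZA P' N Y X γ T (Near X (Mdiff κ CY2) T) ω =
        ZS P' Set.univ N Y X γ T (Near X (Mdiff κ CY2) T) ω := by
      unfold ZA ZS
      exact lintegral_congr fun ω' => wt_eq_wS hS hX T ω ω'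
    have h6 : quenched P' X γ (field N Y ω) (T : ℝ≥0)
        {x | len (x (T : ℝ≥0)) ≤ Mdiff κ CY2 * Real.sqrt ((T : ℝ≥0) : ℝ)} =
        ZA P' N Y X γ T (Near X (Mdiff κ CY2) T) ω / Zq P' N Y X γ T ω := rfl
    rw [h6, e1, e2, ENNReal.le_div_iff_mul_le (Or.inl h5)
      (Or.inl (ne_top_of_le_ne_top ENNReal.one_ne_top (ZS_le_one γ T _ ω)))]
    exact h4
  refine ⟨h2, ?_⟩
  filter_upwards [h2] with ω hω hsd
  obtain ⟨ε, hε, h3⟩ := hω
  have h4 := hsd (Mdiff κ CY2)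
  have h5 := h4.eventually_lt_const hε
  obtain ⟨t₀, ht₀⟩ := eventually_atTop.1 h5
  obtain ⟨t, ht, ht2⟩ := h3 t₀
  exact absurd ht2 (not_le.2 (ht₀ t ht))

end Pool.Agent.Helper83.MobileTraps
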